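import Mathlib
import Pool.Agent.H361R2.InfMain

/-! The sieve in a given residue class. -/

set_option autoImplicit false

namespace Pool.Agent.J6H52.AP

open Finset Filter Topology
open Pool.Agent.H361R2.Inf
open Pool.Agent.H361R2 (roughBound prodBound s1Upper omegaBound tailBound)
open Pool.Agent.H410R2 hiding GP GP_prof GP_cut_some GP_cut_none GP_lip gg_pos gg_le_one gg_anti ee_bound ee_nonneg gg_lip LB_gg LB_ee Sums exists_sums yx wx wxi Br sum_GP_none sum_GP_some sum_GP_some_ee sum_GP_some_one sum_GPr_none sum_GPr_some S1_final QI_final S2_final w_abs_le wmax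

variable {k : ℕ}

theorem exists_ctx_class (a b : Fin k → ℕ) (ha : ∀ i, 1 ≤ a i) (hb : ∀ i, 1 ≤ b i)
    (hnp : ∀ i j, i ≠ j → a i * b j ≠ a j * b i)
    (hadm : ∀ p : ℕ, p.Prime → ∃ n : ℕ, ¬ p ∣ n ∧ ∀ i, ¬ p ∣ a i * n + b i)
    (W r : ℕ) (hW : Squarefree W) (hr : r.Coprime W) (hr' : ∀ i, (a i * r + b i).Coprime W) :
    ∃ D₀ : ℕ, ∀ D, D₀ ≤ D → ∃ v, Ctx a b D v ∧ W ∣ WW D ∧ v ≡ r [MOD W] := by
  obtain ⟨D₀, h⟩ := Pool.Agent.H361R2.GM.exists_ctx Pool.Agent.H398R2.ariSetup a b ha hb hnp hadm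
  refine ⟨D₀ + W, fun D hD => ?_⟩
  obtain ⟨v0, hc⟩ := h D (by omega)
  have hW0 : W ≠ 0 := hW.ne_zero
  have hsub : W.primeFactors ⊆ (Icc 1 D).filter Nat.Prime := by
    intro p hp
    rw [Nat.mem_primeFactors] at hp
    rw [mem_filter, mem_Icc]
    exact ⟨⟨hp.1.pos, (Nat.le_of_dvd (by omega) hp.2.1).trans (by omega)⟩, hp.1⟩
  set W' : ℕ := ∏ p ∈ (Icc 1 D).filter Nat.Prime \ W.primeFactors, p with hW'
  have hWW : WW D = W' * W := by
    unfold WW
    rw [← Finset.prod_sdiff hsub, ← hW', Nat.prod_primeFactors_of_squarefree hW]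
  have hcop : W.Coprime W' := by
    conv_lhs => rw [← Nat.prod_primeFactors_of_squarefree hW]
    apply Nat.Coprime.prod_left
    intro p hp
    apply Nat.Coprime.prod_right
    intro q hq
    rw [Finset.mem_sdiff, mem_filter] at hq
    rw [Nat.coprime_primes (Nat.mem_primeFactors.1 hp).1 hq.1.2]
    rintro rfl
    exact hq.2 hp
  obtain ⟨v, hv1, hv2⟩ := Nat.chineseRemainder hcop r v0
  have hcopW : ∀ {y z : ℕ}, y ≡ z [MOD W] → z.Coprime W → y.Coprime W := by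
    intro y z h1 h2
    rw [Nat.Coprime, Nat.ModEq.gcd_eq h1]
    exact h2
  have hcopW' : ∀ {y z : ℕ}, y ≡ z [MOD W'] → z.Coprime W' → y.Coprime W' := by
    intro y z h1 h2
    rw [Nat.Coprime, Nat.ModEq.gcd_eq h1]
    exact h2
  have hd' : W' ∣ WW D := by rw [hWW]; exact dvd_mul_right _ _
  refine ⟨v, ⟨hc.hW, hc.tot, hc.BDpos, hc.hdvd, hc.hadvd, ?_, ?_, hc.sd, hc.ha, hc.hb, hc.hD⟩, ?_, hv1⟩
  · rw [hWW]
    exact Nat.Coprime.mul_right (hcopW' hv2 (hc.vcop.coprime_dvd_right hd')) (hcopW hv1 hr)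
  · intro i
    rw [hWW]
    exact Nat.Coprime.mul_right
      (hcopW' ((hv2.mul_left _).add_right _) ((hc.vcop' i).coprime_dvd_right hd'))
      (hcopW ((hv1.mul_left _).add_right _) (hr' i))
  · rw [hWW]
    exact dvd_mul_left _ _

end Pool.Agent.J6H52.AP
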