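import Mathlib
import Pool.Agent.H361R2.InfMain

/-! Second moment of the sieve weights. -/

set_option autoImplicit false

namespace Pool.Agent.J6H52.AP

open Finset Filter Topology
open Pool.Agent.H361R2.Inf
open Pool.Agent.H361R2 (roughBound prodBound s1Upper omegaBound tailBound)
open Pool.Agent.H410R2 hiding GP GP_prof GP_cut_some GP_cut_none GP_lip gg_pos gg_le_one gg_anti ee_bound ee_nonneg gg_lip LB_gg LB_ee Sums exists_sums yx wx wxi Br sum_GP_none sum_GP_some sum_GP_some_ee sum_GP_some_one sum_GPr_none sum_GPr_some S1_final QI_final S2_final w_abs_le wmax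

/-- the mean value of `A ^ ω(n)` -/
theorem sum_pow_omega (A : ℕ) (hA : 1 ≤ A) : ∃ C : ℝ, 0 < C ∧ ∃ m : ℕ, ∀ N : ℕ, 3 ≤ N →
    ∑ n ∈ Icc 1 N, (A : ℝ) ^ n.primeFactors.card ≤ C * N * (Real.log N) ^ m := by
  classical
  obtain ⟨C, hC, m, h⟩ := prodBound ((A : ℝ) - 1) (by
    have : (1 : ℝ) ≤ A := by exact_mod_cast hA
    linarith)
  refine ⟨C, hC, m, fun N hN => ?_⟩
  have hA1 : (0 : ℝ) ≤ (A : ℝ) - 1 := by
    have : (1 : ℝ) ≤ A := by exact_mod_cast hA
    linarith
  have hN0 : (0 : ℝ) ≤ N := Nat.cast_nonneg N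
  set P : Finset ℕ := (Icc 1 N).filter Nat.Prime with hP
  have h1 := h N (by exact_mod_cast hN)
  rw [Nat.floor_natCast, ← hP] at h1
  have e1 : ∀ n ∈ Icc 1 N, (A : ℝ) ^ n.primeFactors.card =
      ∑ s ∈ P.powerset, ∏ p ∈ s, (if p ∣ n then (A : ℝ) - 1 else 0) := by
    intro n hn
    rw [mem_Icc] at hn
    rw [← Finset.prod_one_add]
    have e2 : n.primeFactors = P.filter (fun p => p ∣ n) := by
      ext p
      rw [hP, mem_filter, mem_filter, mem_Icc, Nat.mem_primeFactors]
      constructor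
      · rintro ⟨a1, a2, a3⟩
        exact ⟨⟨⟨a1.pos, (Nat.le_of_dvd (by omega) a2).trans hn.2⟩, a1⟩, a2⟩
      · rintro ⟨⟨_, a1⟩, a2⟩
        exact ⟨a1, a2, by omega⟩
    have e3 : ∀ p ∈ P, (1 + (if p ∣ n then (A : ℝ) - 1 else 0)) = if p ∣ n then (A : ℝ) else 1 := by
      intro p _
      split_ifs <;> ring
    rw [Finset.prod_congr rfl e3, ← Finset.prod_filter, Finset.prod_const, e2]
  rw [Finset.sum_congr rfl e1, Finset.sum_comm]
  have e4 : ∀ s ∈ P.powerset, ∑ n ∈ Icc 1 N, ∏ p ∈ s, (if p ∣ n then (A : ℝ) - 1 else 0) ≤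
      N * ∏ p ∈ s, (((A : ℝ) - 1) / p) := by
    intro s hs
    rw [mem_powerset] at hs
    have hpr : ∀ p ∈ s, p.Prime := fun p hp => (mem_filter.1 (hs hp)).2
    set d := ∏ p ∈ s, p with hd
    have hd0 : 0 < d := Finset.prod_pos fun p hp => (hpr p hp).pos
    have e5 : ∀ n ∈ Icc 1 N, ∏ p ∈ s, (if p ∣ n then (A : ℝ) - 1 else 0) ≤
        if d ∣ n then ((A : ℝ) - 1) ^ s.card else 0 := by
      intro n _
      by_cases hdn : ∀ p ∈ s, p ∣ n
      · have h3 : d ∣ n := Finset.prod_primes_dvd n (fun p hp => (hpr p hp).prime) hdn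
        rw [if_pos h3, Finset.prod_congr rfl (fun p hp => if_pos (hdn p hp)), Finset.prod_const]
      · push Not at hdn
        obtain ⟨p, hp, hpn⟩ := hdn
        rw [Finset.prod_eq_zero hp (if_neg hpn)]
        split_ifs <;> positivity
    refine (Finset.sum_le_sum e5).trans ?_
    rw [← Finset.sum_filter, Finset.sum_const, nsmul_eq_mul]
    have e6 : (((Icc 1 N).filter (fun n => d ∣ n)).card : ℝ) ≤ N / d := by
      have h3 : (Icc 1 N).filter (fun n => d ∣ n) ⊆ (Icc 1 (N / d)).image (fun j => d * j) := by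
        intro n hn
        rw [mem_filter, mem_Icc] at hn
        obtain ⟨⟨a1, a2⟩, j, rfl⟩ := hn
        rw [mem_image]
        refine ⟨j, ?_, rfl⟩
        rw [mem_Icc, Nat.le_div_iff_mul_le hd0]
        constructor
        · by_contra hcon
          have : j = 0 := by omega
          rw [this] at a1
          simp at a1
        · rw [mul_comm]
          exact a2
      have h4 := (card_le_card h3).trans card_image_le
      rw [Nat.card_Icc, Nat.add_sub_cancel] at h4
      calc (((Icc 1 N).filter (fun n => d ∣ n)).card : ℝ) ≤ ((N / d : ℕ) : ℝ) := by exact_mod_cast h4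
        _ ≤ N / d := Nat.cast_div_le
    calc (((Icc 1 N).filter (fun n => d ∣ n)).card : ℝ) * ((A : ℝ) - 1) ^ s.card
        ≤ (N / d) * ((A : ℝ) - 1) ^ s.card := by gcongr
      _ = _ := by
        rw [Finset.prod_div_distrib, Finset.prod_const, hd]
        push_cast
        ring
  refine (Finset.sum_le_sum e4).trans ?_
  rw [← Finset.mul_sum, ← Finset.prod_one_add]
  calc (N : ℝ) * ∏ p ∈ P, (1 + ((A : ℝ) - 1) / p) ≤ N * (C * (Real.log N) ^ m) := by gcongr
    _ = _ := by ring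

variable {k : ℕ}

/-- the mean value of `16 ^ ω` of the product of the forms -/
theorem sum_pow_omega_NN (a b : Fin k → ℕ) (ha : ∀ i, 1 ≤ a i) (hb : ∀ i, 1 ≤ b i) :
    ∃ C : ℕ, ∀ᶠ x : ℝ in atTop,
      ∑ n ∈ Icc 1 ⌊x⌋₊, (16 : ℝ) ^ (NN a b n).primeFactors.card ≤ x * (Real.log x) ^ C := by
  classical
  obtain ⟨C, hC, m, h⟩ := sum_pow_omega (16 ^ (k + 1)) (Nat.one_le_pow _ _ (by norm_num))
  set S : ℕ := 1 + ∑ i, (a i + b i) with hS
  have hS1 : 1 ≤ S := by omega
  have hLle : ∀ j n, 1 ≤ n → 1 ≤ LF a b j n ∧ LF a b j n ≤ S * n := by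
    intro j n hn
    rcases j with _ | i
    · simp only [LF]
      exact ⟨hn, Nat.le_mul_of_pos_left _ hS1⟩
    · simp only [LF]
      have h1 : a i + b i ≤ ∑ i, (a i + b i) :=
        Finset.single_le_sum (f := fun i => a i + b i) (fun _ _ => Nat.zero_le _) (mem_univ i)
      have h2 := hb i
      refine ⟨by omega, ?_⟩
      calc a i * n + b i ≤ a i * n + b i * n := by
            have := Nat.le_mul_of_pos_right (b i) hn
            omega
        _ = (a i + b i) * n := by ring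
        _ ≤ S * n := Nat.mul_le_mul_right _ (by omega)
  have hLinj : ∀ j, Function.Injective (LF a b j) := by
    intro j n n' hnn
    rcases j with _ | i
    · exact hnn
    · simp only [LF] at hnn
      have h1 : a i * n = a i * n' := by omega
      exact Nat.eq_of_mul_eq_mul_left (ha i) h1
  have hone : ∀ N : ℕ, 3 ≤ N → ∑ n ∈ Icc 1 N, (16 : ℝ) ^ (NN a b n).primeFactors.card ≤
      (k + 1) * (C * (S * N : ℕ) * (Real.log (S * N : ℕ)) ^ m) := by
    intro N hN
    have hpt : ∀ n ∈ Icc 1 N, (16 : ℝ) ^ (NN a b n).primeFactors.card ≤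
        ∑ j, ((16 ^ (k + 1) : ℕ) : ℝ) ^ (LF a b j n).primeFactors.card := by
      intro n hn
      rw [mem_Icc] at hn
      have h1 : (NN a b n).primeFactors.card ≤ ∑ j, (LF a b j n).primeFactors.card := by
        have h2 : (NN a b n).primeFactors ⊆
            (univ : Finset (Option (Fin k))).biUnion (fun j => (LF a b j n).primeFactors) := by
          intro p hp
          rw [Nat.mem_primeFactors] at hp
          obtain ⟨hp1, hp2, hp3⟩ := hp
          obtain ⟨j, _, hj⟩ := hp1.prime.exists_mem_finset_dvd hp2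
          rw [mem_biUnion]
          have := (hLle j n hn.1).1
          exact ⟨j, mem_univ _, Nat.mem_primeFactors.2 ⟨hp1, hj, by omega⟩⟩
        exact (card_le_card h2).trans card_biUnion_le
      obtain ⟨j0, _, hj0⟩ := Finset.exists_max_image (univ : Finset (Option (Fin k)))
        (fun j => (LF a b j n).primeFactors.card) ⟨none, mem_univ _⟩
      have h2 : ∑ j, (LF a b j n).primeFactors.card ≤
          (k + 1) * (LF a b j0 n).primeFactors.card := by
        refine (Finset.sum_le_card_nsmul _ _ _ hj0).trans (le_of_eq ?_)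
        rw [Finset.card_univ, cardJ, smul_eq_mul]
      calc (16 : ℝ) ^ (NN a b n).primeFactors.card ≤
            16 ^ ((k + 1) * (LF a b j0 n).primeFactors.card) :=
            pow_le_pow_right₀ (by norm_num) (h1.trans h2)
        _ = ((16 ^ (k + 1) : ℕ) : ℝ) ^ (LF a b j0 n).primeFactors.card := by
            rw [pow_mul]
            push_cast
            rfl
        _ ≤ _ := Finset.single_le_sum
            (f := fun j => ((16 ^ (k + 1) : ℕ) : ℝ) ^ (LF a b j n).primeFactors.card)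
            (fun _ _ => by positivity) (mem_univ j0)
    refine (Finset.sum_le_sum hpt).trans ?_
    rw [Finset.sum_comm]
    have h3 : ∀ j ∈ (univ : Finset (Option (Fin k))),
        ∑ n ∈ Icc 1 N, ((16 ^ (k + 1) : ℕ) : ℝ) ^ (LF a b j n).primeFactors.card ≤
        C * (S * N : ℕ) * (Real.log (S * N : ℕ)) ^ m := by
      intro j _
      have h4 := h (S * N) (hN.trans (Nat.le_mul_of_pos_left _ hS1))
      refine le_trans ?_ h4
      have h5 : (Icc 1 N).image (LF a b j) ⊆ Icc 1 (S * N) := by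
        intro y hy
        rw [mem_image] at hy
        obtain ⟨n, hn, rfl⟩ := hy
        rw [mem_Icc] at hn ⊢
        have h6 := hLle j n hn.1
        exact ⟨h6.1, h6.2.trans (Nat.mul_le_mul_left _ hn.2)⟩
      rw [← Finset.sum_image (f := fun y => ((16 ^ (k + 1) : ℕ) : ℝ) ^ y.primeFactors.card)
        ((hLinj j).injOn)]
      exact Finset.sum_le_sum_of_subset_of_nonneg h5 fun _ _ _ => by positivity
    refine (Finset.sum_le_card_nsmul _ _ _ h3).trans (le_of_eq ?_)
    rw [Finset.card_univ, cardJ, nsmul_eq_mul]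
    push_cast
    ring
  refine ⟨m + 1, ?_⟩
  set K : ℝ := (k + 1) * C * S * 2 ^ m with hK
  have hK0 : 0 ≤ K := by positivity
  filter_upwards [eventually_ge_atTop (4 : ℝ), eventually_ge_atTop (S : ℝ),
    Real.tendsto_log_atTop.eventually_ge_atTop (max K 1)] with x hx hxS hlog
  have hx0 : 0 < x := by linarith
  have hlog1 : 1 ≤ Real.log x := (le_max_right _ _).trans hlog
  have hlogK : K ≤ Real.log x := (le_max_left _ _).trans hlog
  have hfl : 3 ≤ ⌊x⌋₊ := Nat.le_floor (by push_cast; linarith)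
  have hflx : (⌊x⌋₊ : ℝ) ≤ x := Nat.floor_le hx0.le
  refine (hone _ hfl).trans ?_
  have hS0 : (1 : ℝ) ≤ S := by exact_mod_cast hS1
  have h1 : Real.log ((S * ⌊x⌋₊ : ℕ) : ℝ) ≤ 2 * Real.log x := by
    push_cast
    have h2 : (0 : ℝ) < ⌊x⌋₊ := by
      have : (3 : ℝ) ≤ ⌊x⌋₊ := by exact_mod_cast hfl
      linarith
    calc Real.log ((S : ℝ) * ⌊x⌋₊) ≤ Real.log (x * x) := by
          apply Real.log_le_log (by positivity)
          exact mul_le_mul hxS hflx h2.le hx0.le
      _ = 2 * Real.log x := by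
          rw [Real.log_mul hx0.ne' hx0.ne']
          ring
  have h0 : 0 ≤ Real.log ((S * ⌊x⌋₊ : ℕ) : ℝ) := Real.log_natCast_nonneg _
  have h3 : (((S * ⌊x⌋₊ : ℕ) : ℕ) : ℝ) ≤ S * x := by
    push_cast
    gcongr
  calc ((k : ℝ) + 1) * (C * ((S * ⌊x⌋₊ : ℕ) : ℝ) * (Real.log ((S * ⌊x⌋₊ : ℕ) : ℝ)) ^ m)
      ≤ (k + 1) * (C * (S * x) * (2 * Real.log x) ^ m) := by gcongr
    _ = K * (x * (Real.log x) ^ m) := by rw [mul_pow, hK]; ring
    _ ≤ Real.log x * (x * (Real.log x) ^ m) := by
        apply mul_le_mul_of_nonneg_right hlogK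
        positivity
    _ = _ := by ring

/-- **second moment of the weights** -/
theorem mu_sq (B : BPar k) {a b : Fin k → ℕ} {D v : ℕ} (hc : Ctx a b D v) :
    ∃ C : ℕ, ∀ᶠ x : ℝ in atTop,
      ∑ n ∈ Icc 1 ⌊x⌋₊, (Real.log (x / n) * (wxb B a b D x n) ^ 2) ^ 2 ≤ x * (Real.log x) ^ C := by
  classical
  obtain ⟨C1, h1⟩ := sum_pow_omega_NN a b hc.ha hc.hb
  obtain ⟨C, hC, m, h2⟩ := prodIx_le prodBound (2 * ((k + 1 : ℕ) : ℝ)) (by positivity) D
  refine ⟨C1 + 4 * m + 3, ?_⟩
  filter_upwards [h1, h2, Real.tendsto_log_atTop.eventually_ge_atTop (max (C ^ 4) 1),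
    eventually_gt_atTop (1 : ℝ)] with x h1 h2 hlog hx
  have hx0 : 0 < x := by linarith
  have hlog1 : 1 ≤ Real.log x := (le_max_right _ _).trans hlog
  have hlogC : C ^ 4 ≤ Real.log x := (le_max_left _ _).trans hlog
  have hP0 : 0 ≤ ∏ t : Ix D x, (1 + 2 * ((k + 1 : ℕ) : ℝ) / (prx D x t : ℝ)) :=
    Finset.prod_nonneg fun t _ => by positivity
  have hpt : ∀ n ∈ Icc 1 ⌊x⌋₊, (Real.log (x / n) * (wxb B a b D x n) ^ 2) ^ 2 ≤
      (Real.log x) ^ 2 * (C * (Real.log x) ^ m) ^ 4 * (16 : ℝ) ^ (NN a b n).primeFactors.card := by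
    intro n hn
    rw [mem_Icc] at hn
    have hn1 : (1 : ℝ) ≤ n := by exact_mod_cast hn.1
    have hn0 : (0 : ℝ) < n := by linarith
    have hnx : (n : ℝ) ≤ x := (Nat.cast_le.2 hn.2).trans (Nat.floor_le hx0.le)
    have hl0 : 0 ≤ Real.log (x / n) := by
      apply Real.log_nonneg
      rw [le_div_iff₀ hn0]
      linarith
    have hl1 : Real.log (x / n) ≤ Real.log x := by
      apply Real.log_le_log (by positivity)
      exact div_le_self hx0.le hn1
    have h3 := (w_abs_le B hc x hx n hn.1).1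
    have h4 : |wxb B a b D x n| ≤ (C * (Real.log x) ^ m) * 2 ^ (NN a b n).primeFactors.card :=
      h3.trans (by gcongr)
    have h5 : (wxb B a b D x n) ^ 4 ≤
        ((C * (Real.log x) ^ m) * 2 ^ (NN a b n).primeFactors.card) ^ 4 := by
      have e : (wxb B a b D x n) ^ 4 = |wxb B a b D x n| ^ 4 := by
        rw [← abs_pow, abs_of_nonneg (by positivity)]
      rw [e]
      exact pow_le_pow_left₀ (abs_nonneg _) h4 4
    calc (Real.log (x / n) * (wxb B a b D x n) ^ 2) ^ 2
        = (Real.log (x / n)) ^ 2 * (wxb B a b D x n) ^ 4 := by ring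
      _ ≤ (Real.log x) ^ 2 * ((C * (Real.log x) ^ m) * 2 ^ (NN a b n).primeFactors.card) ^ 4 := by
          gcongr
      _ = _ := by
          rw [mul_pow _ ((2 : ℝ) ^ _), ← pow_mul, mul_comm (NN a b n).primeFactors.card 4, pow_mul]
          norm_num
          ring
  refine (Finset.sum_le_sum hpt).trans ?_
  rw [← Finset.mul_sum]
  calc (Real.log x) ^ 2 * (C * (Real.log x) ^ m) ^ 4 *
        ∑ n ∈ Icc 1 ⌊x⌋₊, (16 : ℝ) ^ (NN a b n).primeFactors.card
      ≤ (Real.log x) ^ 2 * (C * (Real.log x) ^ m) ^ 4 * (x * (Real.log x) ^ C1) := by gcongr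
    _ = C ^ 4 * (x * ((Real.log x) ^ 2 * ((Real.log x) ^ m) ^ 4 * (Real.log x) ^ C1)) := by ring
    _ ≤ Real.log x * (x * ((Real.log x) ^ 2 * ((Real.log x) ^ m) ^ 4 * (Real.log x) ^ C1)) := by
        apply mul_le_mul_of_nonneg_right hlogC
        positivity
    _ = _ := by
        rw [← pow_mul]
        ring

end Pool.Agent.J6H52.AP
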