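import Mathlib
import Pool.Agent.H361R2.InfMain

/-! Block weights: contribution of the `n` having a small prime factor. -/

set_option autoImplicit false

namespace Pool.Agent.J6H52.AP

open Finset Filter Topology
open Pool.Agent.H361R2.Inf
open Pool.Agent.H361R2 (roughBound prodBound s1Upper omegaBound tailBound)
open Pool.Agent.H410R2 hiding GP GP_prof GP_cut_some GP_cut_none GP_lip gg_pos gg_le_one gg_anti ee_bound ee_nonneg gg_lip LB_gg LB_ee Sums exists_sums yx wx wxi Br sum_GP_none sum_GP_some sum_GP_some_ee sum_GP_some_one sum_GPr_none sum_GPr_some S1_final QI_final S2_final w_abs_le wmax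

variable {k : ℕ}

theorem GPb_lip (B : BPar k) (L L0 : ℝ) (hL0 : 0 < L0) (s u : ℝ) (_hs : 0 ≤ s) (hu : 0 ≤ u) :
    GPb B L L0 none s - GPb B L L0 none (s + u) ≤ u / L0 := by
  have hu' : 0 ≤ u / L0 := by positivity
  simp only [GPb]
  split_ifs with h1 h2 h2
  · rw [add_div]; linarith
  · have h3 : L0 < s + u := not_le.1 h2
    have : 1 < (s + u) / L0 := (one_lt_div hL0).2 h3
    rw [add_div] at this
    linarith
  · exfalso
    exact h1 (by linarith)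
  · simpa using hu'

theorem sum_GPbr_none (B : BPar k) (D : ℕ) (x : ℝ) (h : ℕ → ℝ) :
    ∑ a : Finset (Ix D x), (∏ t ∈ a, h (prx D x t)) *
      GGr none (GPb B (Lx x) (Lx x / 48)) (Lx x / 48) none (lg (prx D x) a) ^ 2 =
      SS (Px D x) h 1 (Lx x / 48) (fun _ => 1) := by
  rw [SS_eq _ _ _ _ _ (fun p hp => (Px_prime D x p hp).1.pos)]
  refine Finset.sum_congr rfl fun a _ => ?_
  simp only [GGr, if_true, one_mul]
  congr 1
  split_ifs <;> simp

theorem sum_GPbr_some (B : BPar k) (D : ℕ) (x : ℝ) (i : Fin k) (h : ℕ → ℝ) :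
    ∑ a : Finset (Ix D x), (∏ t ∈ a, h (prx D x t)) *
      GGr none (GPb B (Lx x) (Lx x / 48)) (Lx x / 48) (some i) (lg (prx D x) a) ^ 2 =
      SS (Px D x) h (1 / 10) (Lx x) (fun t => (B.Q i).gg t ^ 2) := by
  rw [← sum_GPb_some B D x i h]
  refine Finset.sum_congr rfl fun a _ => ?_
  simp [GGr]

/-- the sum over a shorter range -/
theorem SS_one_le (D : ℕ) (x : ℝ) (hL : 0 < Lx x) (h : ℕ → ℝ) (hh : ∀ p ∈ Px D x, 0 ≤ h p) :
    SS (Px D x) h 1 (Lx x / 48) (fun _ => 1) ≤ SS (Px D x) h (1 / 2) (Lx x) (fun _ => 1) := by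
  rw [SS_eq _ _ _ _ _ (fun p hp => (Px_prime D x p hp).1.pos),
    SS_eq _ _ _ _ _ (fun p hp => (Px_prime D x p hp).1.pos)]
  refine Finset.sum_le_sum fun a _ => ?_
  apply mul_le_mul_of_nonneg_left _ (Finset.prod_nonneg fun t _ => hh t.1 t.2)
  split_ifs with h1 h2 h2
  · exact le_rfl
  · exfalso
    apply h2
    linarith
  · exact zero_le_one
  · exact le_rfl

theorem nrb_one (B : BPar k) {a b : Fin k → ℕ} {D v : ℕ} (hc : Ctx a b D v) (ε : ℝ)
    (hε : 0 < ε) (hε1 : ε < 1 / 10) (x : ℝ) (hx : 1 < x)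
    (hS : SumsB B D ε (k + 1) (Lx x) (Px D x)) (r : ℕ) (hr : r ∈ Px D x)
    (v' : ℕ) (hv' : r ∣ v') :
    ∑ n ∈ (Icc 1 ⌊x⌋₊).filter (fun n => n ≡ v' [MOD (r * WW D)]),
        Real.log (x / n) * (wxb B a b D x n) ^ 2 ≤
      (Real.log r / (Lx x / 48) + ((k + 1 : ℕ) : ℝ) / ((r : ℝ) - 1)) ^ 2 *
        ((1 / (r : ℝ)) * (Q0 k D x * (30 * ∏ i, ((B.Q i).I2 + ε))) + E0 k D x) := by
  have hL := Lx_pos hx
  have hL0 : 0 < Lx x / 48 := by positivity
  have hprof := GPb_prof B (Lx x) (Lx x / 48) hL hL0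
  have hsd := hc.sd (Px D x) (Px_prime D x)
  have h := nonrough_one s1Upper (prx D x) (LF a b) (WW D) v' hc.hW hsd ⟨r, hr⟩ none
    (fun n => rfl) hv' (GPb B (Lx x) (Lx x / 48)) hprof (Lx x) (Lx x / 48) hL0
    (fun s u hs hu => GPb_lip B _ _ hL0 s u hs hu)
    (fun s hs hs' => GPb_cut_none B _ _ s hs hs') x hx.le
  refine le_trans h ?_
  rw [Fintype.prod_option, cardJ]
  have e1 := sum_GPbr_none B D x h1
  have e2 := fun i => sum_GPbr_some B D x i h1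
  unfold h1 at e1 e2
  rw [e1]
  simp_rw [e2]
  apply mul_le_mul_of_nonneg_left _ (sq_nonneg _)
  apply add_le_add _ (le_of_eq rfl)
  have hB := hc.BDpos
  have hWpos : (0 : ℝ) < WW D := by exact_mod_cast hc.hW
  have hh1 : ∀ p ∈ Px D x, 0 ≤ h1 p := by
    intro p hp
    unfold h1
    positivity
  have hp0 : ∀ p ∈ Px D x, 0 < p := fun p hp => (Px_prime D x p hp).1.pos
  have hr0 : (0 : ℝ) < r := by exact_mod_cast hp0 r hr
  have n2 : ∀ i, 0 ≤ SS (Px D x) h1 (1 / 10) (Lx x) (fun t => (B.Q i).gg t ^ 2) := fun i =>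
    SS_nonneg _ _ _ _ _ hh1 hp0 hL fun t _ => sq_nonneg _
  have n1 : 0 ≤ SS (Px D x) h1 1 (Lx x / 48) (fun _ => 1) :=
    SS_nonneg _ _ _ _ _ hh1 hp0 hL0 fun t _ => zero_le_one
  have u1 : SS (Px D x) h1 1 (Lx x / 48) (fun _ => 1) ≤ BD D * (Lx x / 48) * 30 := by
    refine (SS_one_le D x hL h1 hh1).trans ?_
    have := (abs_le.1 (hS.o1 1)).2
    have e : hs (k + 1) 1 = h1 := rfl
    rw [e] at this
    have h3 : 0 < BD D * Lx x := by positivity
    nlinarith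
  have u2 : ∀ i, SS (Px D x) h1 (1 / 10) (Lx x) (fun t => (B.Q i).gg t ^ 2) ≤
      BD D * Lx x * ((B.Q i).I2 + ε) := by
    intro i
    have := (abs_le.1 (hS.s2 1 i)).2
    have e : hs (k + 1) 1 = h1 := rfl
    rw [e] at this
    linarith
  have u3 : ∏ i, SS (Px D x) h1 (1 / 10) (Lx x) (fun t => (B.Q i).gg t ^ 2) ≤
      ∏ i, (BD D * Lx x * ((B.Q i).I2 + ε)) :=
    Finset.prod_le_prod (fun i _ => n2 i) (fun i _ => u2 i)
  have n3 : 0 ≤ ∏ i, SS (Px D x) h1 (1 / 10) (Lx x) (fun t => (B.Q i).gg t ^ 2) :=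
    Finset.prod_nonneg fun i _ => n2 i
  calc x / ((r : ℝ) * WW D) * (SS (Px D x) h1 1 (Lx x / 48) (fun _ => 1) *
        ∏ i, SS (Px D x) h1 (1 / 10) (Lx x) (fun t => (B.Q i).gg t ^ 2))
      ≤ x / ((r : ℝ) * WW D) * ((BD D * (Lx x / 48) * 30) *
          ∏ i, (BD D * Lx x * ((B.Q i).I2 + ε))) := by
        gcongr
    _ = _ := by
        unfold Q0
        rw [Finset.prod_mul_distrib, Finset.prod_const, Finset.card_univ, Fintype.card_fin]
        field_simp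

open Classical in
theorem nrb_final (B : BPar k) (hI2 : ∀ i, 0 < (B.Q i).I2) {a b : Fin k → ℕ} {D v : ℕ}
    (hc : Ctx a b D v) (ε : ℝ)
    (hε : 0 < ε) (hε1 : ε < 1 / 10) (η δ : ℝ) (hδ' : δ ≤ 24 / 100) (x : ℝ) (hx : 1 < x)
    (hS : SumsB B D ε (k + 1) (Lx x) (Px D x))
    (hη : ∑ r ∈ PW D (x ^ δ), (1 / (r : ℝ)) *
      (Real.log r / ((1 / 200) * Real.log x) + ((k + 1 : ℕ) : ℝ) / ((r : ℝ) - 1)) ^ 2 ≤ η) :
    ∑ n ∈ (Icc 1 ⌊x⌋₊).filter
        (fun n => n ≡ v [MOD (WW D)] ∧ ∃ p : ℕ, p.Prime ∧ p ∣ n ∧ (p : ℝ) ≤ x ^ δ),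
        Real.log (x / n) * (wxb B a b D x n) ^ 2 ≤
      η * (Q0 k D x * (30 * ∏ i, ((B.Q i).I2 + ε))) + x ^ δ * η * E0 k D x := by
  classical
  have hx0 : 0 < x := by linarith
  have hL := Lx_pos hx
  have hLeq : Lx x / 48 = (1 / 200) * Real.log x := by unfold Lx; ring
  have hsub : PW D (x ^ δ) ⊆ Px D x := by
    intro p hp
    unfold Px
    unfold PW at hp ⊢
    rw [Finset.mem_filter, Finset.mem_Icc] at hp ⊢
    refine ⟨⟨hp.1.1, hp.1.2.trans ?_⟩, hp.2⟩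
    apply Nat.floor_le_floor
    rw [exp_Lx' x hx0]
    exact Real.rpow_le_rpow_of_exponent_le hx.le hδ'
  have hcop : ∀ r ∈ PW D (x ^ δ), Nat.Coprime r (WW D) := by
    intro r hr
    exact (hc.sd (Px D x) (Px_prime D x)).cop ⟨r, hsub hr⟩
  -- residue classes
  have hex : ∀ r ∈ PW D (x ^ δ), ∃ v' : ℕ, r ∣ v' ∧ ∀ n, n ≡ v [MOD (WW D)] → r ∣ n →
      n ≡ v' [MOD (r * WW D)] := by
    intro r hr
    obtain ⟨v', h1, h2⟩ := Nat.chineseRemainder (hcop r hr) 0 v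
    refine ⟨v', (Nat.modEq_zero_iff_dvd.1 h1), fun n hn hrn => ?_⟩
    rw [← Nat.modEq_and_modEq_iff_modEq_mul (hcop r hr)]
    exact ⟨((Nat.modEq_zero_iff_dvd.2 hrn).trans h1.symm), hn.trans h2.symm⟩
  choose! v' hv1 hv2 using hex
  have hnn : ∀ n ∈ Icc 1 ⌊x⌋₊, 0 ≤ Real.log (x / n) * (wxb B a b D x n) ^ 2 := by
    intro n hn
    rw [Finset.mem_Icc] at hn
    apply mul_nonneg _ (sq_nonneg _)
    apply Real.log_nonneg
    have h1 : (0 : ℝ) < n := by exact_mod_cast (by omega : 0 < n)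
    rw [one_le_div h1]
    exact (Nat.cast_le.2 hn.2).trans (Nat.floor_le hx0.le)
  have hcov : ∑ n ∈ (Icc 1 ⌊x⌋₊).filter
        (fun n => n ≡ v [MOD (WW D)] ∧ ∃ p : ℕ, p.Prime ∧ p ∣ n ∧ (p : ℝ) ≤ x ^ δ),
        Real.log (x / n) * (wxb B a b D x n) ^ 2 ≤
      ∑ r ∈ PW D (x ^ δ), ∑ n ∈ (Icc 1 ⌊x⌋₊).filter (fun n => n ≡ v' r [MOD (r * WW D)]),
        Real.log (x / n) * (wxb B a b D x n) ^ 2 := by
    calc _ ≤ ∑ n ∈ (PW D (x ^ δ)).biUnion (fun r =>
          (Icc 1 ⌊x⌋₊).filter (fun n => n ≡ v' r [MOD (r * WW D)])),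
          Real.log (x / n) * (wxb B a b D x n) ^ 2 := by
          apply Finset.sum_le_sum_of_subset_of_nonneg
          · intro n hn
            rw [Finset.mem_filter] at hn
            obtain ⟨hn1, hn2, p, hp, hpn, hpx⟩ := hn
            rw [Finset.mem_biUnion]
            have hpD : D < p := by
              by_contra hcon
              have h1 : p ∣ WW D := hc.hdvd p hp (not_lt.1 hcon)
              have h2 : n ≡ v [MOD p] := hn2.of_dvd h1
              have h3 : p ∣ v := (Nat.ModEq.dvd_iff h2 dvd_rfl).1 hpn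
              have h4 : p ∣ Nat.gcd v (WW D) := Nat.dvd_gcd h3 h1
              rw [hc.vcop] at h4
              exact hp.one_lt.ne' (Nat.dvd_one.1 h4)
            have hpP : p ∈ PW D (x ^ δ) := by
              unfold PW
              rw [Finset.mem_filter, Finset.mem_Icc]
              exact ⟨⟨hpD, Nat.le_floor hpx⟩, hp⟩
            exact ⟨p, hpP, Finset.mem_filter.2 ⟨hn1, hv2 p hpP n hn2 hpn⟩⟩
          · intro n hn _
            rw [Finset.mem_biUnion] at hn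
            obtain ⟨r, _, hn⟩ := hn
            exact hnn n (Finset.mem_filter.1 hn).1
      _ ≤ _ := by
          apply Pool.Agent.H361R2.GM.sum_biUnion_le'
          intro r _ n hn
          exact hnn n (Finset.mem_filter.1 hn).1
  refine le_trans hcov ?_
  have hE0 : 0 ≤ E0 k D x := by
    unfold E0
    have := Real.log_nonneg hx.le
    positivity
  have hprod : 0 ≤ ∏ i, ((B.Q i).I2 + ε) :=
    Finset.prod_nonneg fun i _ => by
      have := hI2 i
      linarith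
  have hterm : ∀ r ∈ PW D (x ^ δ), ∑ n ∈ (Icc 1 ⌊x⌋₊).filter (fun n => n ≡ v' r [MOD (r * WW D)]),
        Real.log (x / n) * (wxb B a b D x n) ^ 2 ≤
      ((1 / (r : ℝ)) * (Real.log r / ((1 / 200) * Real.log x) +
        ((k + 1 : ℕ) : ℝ) / ((r : ℝ) - 1)) ^ 2) *
        (Q0 k D x * (30 * ∏ i, ((B.Q i).I2 + ε)) + x ^ δ * E0 k D x) := by
    intro r hr
    have h1 := nrb_one B hc ε hε hε1 x hx hS r (hsub hr) (v' r) (hv1 r hr)
    rw [hLeq] at h1
    refine le_trans h1 ?_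
    have hrp : (0 : ℝ) < r := by exact_mod_cast (Px_prime D x r (hsub hr)).1.pos
    have hrx : (r : ℝ) ≤ x ^ δ := by
      unfold PW at hr
      rw [Finset.mem_filter, Finset.mem_Icc] at hr
      exact (Nat.cast_le.2 hr.1.2).trans (Nat.floor_le (by positivity))
    have h2 : E0 k D x ≤ (1 / (r : ℝ)) * (x ^ δ * E0 k D x) := by
      have : 1 ≤ (1 / (r : ℝ)) * x ^ δ := by
        rw [one_div, inv_mul_eq_div, one_le_div hrp]
        exact hrx
      nlinarith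
    have h3 : 0 ≤ (Real.log r / ((1 / 200) * Real.log x) +
        ((k + 1 : ℕ) : ℝ) / ((r : ℝ) - 1)) ^ 2 := sq_nonneg _
    calc _ ≤ (Real.log r / ((1 / 200) * Real.log x) +
        ((k + 1 : ℕ) : ℝ) / ((r : ℝ) - 1)) ^ 2 * ((1 / (r : ℝ)) *
          (Q0 k D x * (30 * ∏ i, ((B.Q i).I2 + ε))) + (1 / (r : ℝ)) * (x ^ δ * E0 k D x)) := by
          apply mul_le_mul_of_nonneg_left _ h3
          linarith
      _ = _ := by ring
  refine le_trans (Finset.sum_le_sum hterm) ?_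
  rw [← Finset.sum_mul]
  have hQ : 0 ≤ Q0 k D x * (30 * ∏ i, ((B.Q i).I2 + ε)) + x ^ δ * E0 k D x := by
    have hB := hc.BDpos
    unfold Q0
    positivity
  calc _ ≤ η * (Q0 k D x * (30 * ∏ i, ((B.Q i).I2 + ε)) + x ^ δ * E0 k D x) :=
        mul_le_mul_of_nonneg_right hη hQ
    _ = _ := by ring

open Classical in
/-- the mass of the `n` with a small prime factor -/
theorem fbb (B : BPar k) (hI2 : ∀ i, 0 < (B.Q i).I2) (η : ℝ) (hη : 0 < η) :
    ∃ D₀ : ℕ, ∃ δ : ℝ, 0 < δ ∧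
    ∀ (a b : Fin k → ℕ) (D v : ℕ), D₀ ≤ D → Ctx a b D v →
    ∀ (ε : ℝ), 0 < ε → ε < 1 / 10 →
    (∀ᶠ x : ℝ in atTop, SumsB B D ε (k + 1) (Lx x) (Px D x)) →
    ∀ᶠ x : ℝ in atTop,
      ∑ n ∈ (Icc 1 ⌊x⌋₊).filter (fun n => n ≡ v [MOD (WW D)] ∧
          ∃ p : ℕ, p.Prime ∧ p ∣ n ∧ (p : ℝ) ≤ x ^ δ),
        Real.log (x / n) * (wxb B a b D x n) ^ 2 ≤
      η * (Q0 k D x * (30 * ∏ i, ((B.Q i).I2 + ε))) + x ^ (3 / 4 : ℝ) := by
  obtain ⟨D₀, δ₀, hδ₀, h⟩ := roughBound (1 / 200) (by norm_num) ((k + 1 : ℕ) : ℝ)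
    (Nat.cast_nonneg _) η hη
  set δ : ℝ := min δ₀ (1 / 5) with hδdef
  have hδ : 0 < δ := lt_min hδ₀ (by norm_num)
  refine ⟨D₀, δ, hδ, ?_⟩
  intro a b D v hD hc ε hε hε1 hS
  obtain ⟨x₀, hx₀⟩ := h δ hδ (min_le_left _ _)
  have hδ5 : δ ≤ 1 / 5 := min_le_right _ _
  filter_upwards [hS, eventually_ge_atTop x₀, E0_le prodBound k D,
    ev_polylog η 0 (7 / 10) (3 / 4) (by norm_num), eventually_gt_atTop (1 : ℝ)]
    with x hS hx0 hE hp hx
  have hxp : 0 < x := by linarith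
  have h1 := hx₀ x hx0 (PW D (x ^ δ)) (by
    intro p hp
    unfold PW at hp
    rw [Finset.mem_filter, Finset.mem_Icc] at hp
    exact ⟨hp.2, by omega, (Nat.cast_le.2 hp.1.2).trans (Nat.floor_le (by positivity))⟩)
  have h2 := nrb_final B hI2 hc ε hε hε1 η δ (by linarith) x hx hS h1
  have h3 : x ^ δ * η * E0 k D x ≤ x ^ (3 / 4 : ℝ) := by
    calc x ^ δ * η * E0 k D x ≤ x ^ (1 / 5 : ℝ) * η * x ^ (1 / 2 : ℝ) := by
          have : x ^ δ ≤ x ^ (1 / 5 : ℝ) := Real.rpow_le_rpow_of_exponent_le hx.le hδ5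
          have hE0 : 0 ≤ E0 k D x := by
            unfold E0
            have := Real.log_nonneg hx.le
            positivity
          gcongr
      _ = η * (Real.log x) ^ 0 * x ^ (7 / 10 : ℝ) := by
          rw [pow_zero, mul_one, mul_comm (x ^ (1 / 5 : ℝ)) η, mul_assoc, ← Real.rpow_add hxp]
          norm_num
      _ ≤ _ := hp
  linarith

end Pool.Agent.J6H52.AP
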