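import Mathlib
import Pool.Agent.J6H52.AP.Rough
import Pool.Agent.J6H52.AP.Moment
import Pool.Agent.J6H52.AP.Class

/-! What the sieve gives, with the residue class and the small prime factors of `n` under control. -/

set_option autoImplicit false

namespace Pool.Agent.J6H52.AP

open Finset Filter Topology
open Pool.Agent.H361R2.Inf
open Pool.Agent.H361R2 (roughBound prodBound s1Upper omegaBound tailBound)
open Pool.Agent.H410R2 hiding GP GP_prof GP_cut_some GP_cut_none GP_lip gg_pos gg_le_one gg_anti ee_bound ee_nonneg gg_lip LB_gg LB_ee Sums exists_sums yx wx wxi Br sum_GP_none sum_GP_some sum_GP_some_ee sum_GP_some_one sum_GPr_none sum_GPr_some S1_final QI_final S2_final w_abs_le wmax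
open Pool.Agent.H361R2.GM (SPar)
open Pool.Agent.H361R2

variable {k : ℕ}

open Classical in
/-- what the sieve gives, for given `ε` -/
theorem sieve_out_aux (B : BPar k) (h1 : ∀ i, 0 < (B.Q i).I1) (h2 : ∀ i, 0 < (B.Q i).I2)
    (hE : ∃ ε : ℝ, 0 < ε ∧ ε < 1 / 10 ∧ (∀ i, ε < (B.Q i).I1) ∧ (∀ i, ε < (B.Q i).I2) ∧
      (∀ i, 0 < BrB B i ε) ∧
      (1 / 3 + ε) * ∏ i, ((B.Q i).I2 + ε) ≤ 3 / 2 * (1 / 3 * ∏ i, (B.Q i).I2) ∧
      (∀ i, 9 / 10 * ((B.Q i).I1 ^ 2 / (B.Q i).I2 * (1 / 3 * ∏ l, (B.Q l).I2)) ≤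
        (1 - ε) ^ 3 * ((B.Q i).I1 - ε) ^ 2 * BrB B i ε) ∧
      ∀ i j, i ≠ j →
        (1 / 3 + ε) * (∏ l ∈ (univ.erase i).erase j, ((B.Q l).I2 + ε)) *
          (((1 / 2 + ε) / (1 / 2 - ε) ^ 2) ^ 2 * ((B.Q i).I1 + ε) ^ 2 * ((B.Q j).I1 + ε) ^ 2) ≤
        5 * (((B.Q i).I1 ^ 2 / (B.Q i).I2) * ((B.Q j).I1 ^ 2 / (B.Q j).I2) *
          (1 / 3 * ∏ l, (B.Q l).I2)))
    (a b : Fin k → ℕ) (ha : ∀ i, 1 ≤ a i) (hb : ∀ i, 1 ≤ b i)
    (hnp : ∀ i j, i ≠ j → a i * b j ≠ a j * b i)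
    (hadm : ∀ p : ℕ, p.Prime → ∃ n : ℕ, ¬ p ∣ n ∧ ∀ i, ¬ p ∣ a i * n + b i)
    (W r : ℕ) (hW : Squarefree W) (hr : r.Coprime W) (hr' : ∀ i, (a i * r + b i).Coprime W)
    (η : ℝ) (hη : 0 < η) :
    ∃ (δ : ℝ) (C' : ℕ) (mu : ℝ → ℕ → ℝ) (Z : ℝ → ℝ), 0 < δ ∧ ∀ᶠ x : ℝ in atTop, x ≤ Z x ∧
      (∀ n ∈ Icc 1 ⌊x⌋₊, 0 ≤ mu x n ∧ (mu x n ≠ 0 → n ≡ r [MOD W])) ∧
      ∑ n ∈ Icc 1 ⌊x⌋₊, mu x n ≤ 2 * Z x ∧
      ∑ n ∈ Icc 1 ⌊x⌋₊, (mu x n) ^ 2 ≤ x * (Real.log x) ^ C' ∧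
      ∑ n ∈ (Icc 1 ⌊x⌋₊).filter (fun n => ∃ p : ℕ, p.Prime ∧ p ∣ n ∧ (p : ℝ) ≤ x ^ δ), mu x n ≤
        η * Z x ∧
      (∀ i : Fin k, 1 / 5 * ((B.Q i).I1 ^ 2 / (B.Q i).I2) * Z x ≤
        ∑ n ∈ (Icc 1 ⌊x⌋₊).filter (fun n => (a i * n + b i).Prime), mu x n) ∧
      ∀ i j : Fin k, i ≠ j →
        ∑ n ∈ (Icc 1 ⌊x⌋₊).filter
          (fun n => (a i * n + b i).Prime ∧ (a j * n + b j).Prime), mu x n ≤
          6 * (((B.Q i).I1 ^ 2 / (B.Q i).I2) * ((B.Q j).I1 ^ 2 / (B.Q j).I2) * Z x) := by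
  classical
  obtain ⟨ε, hε, hε1, hI1, hI2, hBr, hA, hbet, hpr⟩ := hE
  obtain ⟨D2, hctx⟩ := exists_ctx_class a b ha hb hnp hadm W r hW hr hr'
  obtain ⟨D3, hκ⟩ := GM.hκ_of Pool.Agent.H361R2.tailBound k ε hε
  obtain ⟨D4, hov⟩ := GM.hovl_of Pool.Agent.H361R2.tailBound k ε hε
  obtain ⟨D5, hsum⟩ := sumsB_ev B Pool.Agent.H399R2.oneDim (k + 1) ε hε
  obtain ⟨D6, δ, hδ, hfbb⟩ := fbb B h2 (η / 270) (by positivity)
  set D := D2 + D3 + D4 + D5 + D6 with hD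
  obtain ⟨v, hc, hWD, hvr⟩ := hctx D (by omega)
  have hκ := hκ D (by omega)
  have hov := hov D (by omega)
  have hsum := hsum D (by omega)
  set Z0 : ℝ := 1 / 3 * ∏ l, (B.Q l).I2 with hZ0
  have hZ0p : 0 < Z0 := by
    have : 0 < ∏ l, (B.Q l).I2 := Finset.prod_pos fun l _ => h2 l
    positivity
  set ρ : Fin k → ℝ := fun i => (B.Q i).I1 ^ 2 / (B.Q i).I2 with hρ
  have hρp : ∀ i, 0 < ρ i := fun i => by
    have := h1 i
    have := h2 i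
    simp only [hρ]
    positivity
  obtain ⟨C, hC0, hFC⟩ := fcb B a b D v hc
  have hFA := fab B a b D v hc (1 / 4) (by norm_num)
  have hS2 := S2_finalB B Pool.Agent.H732R2.s2Approx Pool.Agent.H361R2.s2Model bvap
    Pool.Agent.H732R2.pntLog Pool.Agent.H361R2.prodBound Pool.Agent.H361R2.omegaBound hc ε hε
    (by linarith) hI1 hI2 hBr hκ hov hsum
  have hP := pair_bound B h1 a b D v hc ε hε hε1 hsum
  have hNR := hfbb a b D v (by omega) hc ε hε hε1 hsum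
  obtain ⟨C', hMu⟩ := mu_sq B hc
  have hq3 : ∀ᶠ x : ℝ in atTop, ∀ i : Fin k, 3 / (ρ i * Z0) * x ≤ Q0 k D x :=
    Filter.eventually_all.2 fun i => GM.Q0_large k D hc.hW hc.BDpos _
  have hq4 : ∀ᶠ x : ℝ in atTop, ∀ i j : Fin k, 1 / (ρ i * ρ j * Z0) * x ≤ Q0 k D x :=
    Filter.eventually_all.2 fun i => Filter.eventually_all.2 fun j =>
      GM.Q0_large k D hc.hW hc.BDpos _
  refine ⟨δ, C', fun x n => if n ≡ v [MOD (WW D)] then Real.log (x / n) * (wxb B a b D x n) ^ 2 else 0,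
    fun x => Q0 k D x * Z0, hδ, ?_⟩
  filter_upwards [hFA, hS2, hFC, hP, hsum, hNR, hMu, GM.Q0_large k D hc.hW hc.BDpos (2 / (Z0 * η)), E0_le Pool.Agent.H361R2.prodBound k D,
    GM.Q0_large k D hc.hW hc.BDpos (2 / Z0), hq3, hq4,
    ev_polylog 1 1 (1 / 4) (3 / 4) (by norm_num),
    Real.tendsto_log_atTop.eventually_ge_atTop ((1 + C / 5) / (16 / 1000)),
    eventually_gt_atTop (1 : ℝ)]
    with x hFA hS2 hFC hP hsum hNR hMu hq0 hE0 hq1 hq3 hq4 hpl hlC hx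
  have hx0 : 0 < x := by linarith
  have hlx : 0 < Real.log x := Real.log_pos hx
  set Z := Q0 k D x * Z0 with hZ
  have hZ2 : 2 * x ≤ Z := by
    have := mul_le_mul_of_nonneg_right hq1 hZ0p.le
    calc 2 * x = 2 / Z0 * x * Z0 := by field_simp
      _ ≤ _ := this
  have hZpos : 0 < Z := by linarith
  have hNm : ∀ n ∈ Icc 1 ⌊x⌋₊, 1 ≤ n ∧ (n : ℝ) ≤ x := by
    intro n hn
    rw [Finset.mem_Icc] at hn
    exact ⟨hn.1, (Nat.cast_le.2 hn.2).trans (Nat.floor_le hx0.le)⟩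
  have hlogn : ∀ n ∈ Icc 1 ⌊x⌋₊, 0 ≤ Real.log (x / n) ∧ Real.log (x / n) ≤ Real.log x := by
    intro n hn
    obtain ⟨h1, h2⟩ := hNm n hn
    have hn1 : (1 : ℝ) ≤ n := by exact_mod_cast h1
    have hn0 : (0 : ℝ) < n := by linarith
    constructor
    · apply Real.log_nonneg
      rw [le_div_iff₀ hn0]
      linarith
    · apply Real.log_le_log (by positivity)
      exact div_le_self hx0.le hn1
  set u : ℕ → ℝ := fun n => Real.log (x / n) * (wxb B a b D x n) ^ 2 with hu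
  have hu0 : ∀ n ∈ Icc 1 ⌊x⌋₊, 0 ≤ u n := fun n hn => mul_nonneg (hlogn n hn).1 (sq_nonneg _)
  have hQ0' : 0 ≤ Q0 k D x := by
    by_contra hcon
    push Not at hcon
    have := mul_neg_of_neg_of_pos hcon hZ0p
    linarith
  refine ⟨by change x ≤ Z; linarith, ?_, ?_, ?_, ?_, ?_, ?_⟩
  · intro n hn
    change 0 ≤ (if n ≡ v [MOD (WW D)] then u n else 0) ∧
      ((if n ≡ v [MOD (WW D)] then u n else 0) ≠ 0 → n ≡ r [MOD W])
    split_ifs with hnv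
    · exact ⟨hu0 n hn, fun _ => (hnv.of_dvd hWD).trans hvr⟩
    · exact ⟨le_rfl, fun h => absurd rfl h⟩
  · change ∑ n ∈ Icc 1 ⌊x⌋₊, (if n ≡ v [MOD (WW D)] then u n else 0) ≤ 2 * Z
    rw [← Finset.sum_filter]
    have hS1 := S1_finalB B Pool.Agent.H361R2.s1Upper hc ε (k + 1) x hx hsum
    refine hS1.trans ?_
    have hQ0 : 0 ≤ Q0 k D x := by
      by_contra hcon
      push Not at hcon
      have := mul_neg_of_neg_of_pos hcon hZ0p
      linarith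
    have e1 : Q0 k D x * ((1 / 3 + ε) * ∏ i, ((B.Q i).I2 + ε)) ≤ 3 / 2 * Z := by
      calc Q0 k D x * ((1 / 3 + ε) * ∏ i, ((B.Q i).I2 + ε)) ≤ Q0 k D x * (3 / 2 * Z0) :=
            mul_le_mul_of_nonneg_left hA hQ0
        _ = 3 / 2 * Z := by rw [hZ]; ring
    have e2 : x ^ (1 / 2 : ℝ) ≤ x := by
      calc x ^ (1 / 2 : ℝ) ≤ x ^ (1 : ℝ) := Real.rpow_le_rpow_of_exponent_le hx.le (by norm_num)
        _ = x := Real.rpow_one x
    linarith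
  · refine le_trans (Finset.sum_le_sum fun n hn => ?_) hMu
    change (if n ≡ v [MOD (WW D)] then u n else 0) ^ 2 ≤ (u n) ^ 2
    split_ifs
    · exact le_rfl
    · rw [zero_pow two_ne_zero]
      exact sq_nonneg _
  · change ∑ n ∈ (Icc 1 ⌊x⌋₊).filter (fun n => ∃ p : ℕ, p.Prime ∧ p ∣ n ∧ (p : ℝ) ≤ x ^ δ),
      (if n ≡ v [MOD (WW D)] then u n else 0) ≤ η * Z
    have e0 : ∑ n ∈ (Icc 1 ⌊x⌋₊).filter (fun n => ∃ p : ℕ, p.Prime ∧ p ∣ n ∧ (p : ℝ) ≤ x ^ δ),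
        (if n ≡ v [MOD (WW D)] then u n else 0) =
        ∑ n ∈ (Icc 1 ⌊x⌋₊).filter (fun n => n ≡ v [MOD (WW D)] ∧
          ∃ p : ℕ, p.Prime ∧ p ∣ n ∧ (p : ℝ) ≤ x ^ δ), u n := by
      rw [← Finset.sum_filter, Finset.filter_filter]
      refine Finset.sum_congr (Finset.ext fun n => ?_) fun _ _ => rfl
      simp only [Finset.mem_filter]
      tauto
    rw [e0]
    refine hNR.trans ?_
    have e1 : ∏ i, ((B.Q i).I2 + ε) ≤ 9 / 2 * Z0 := by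
      have h3 : 0 ≤ ∏ i, ((B.Q i).I2 + ε) :=
        Finset.prod_nonneg fun i _ => by
          have := h2 i
          linarith
      nlinarith
    have e2 : Q0 k D x * (30 * ∏ i, ((B.Q i).I2 + ε)) ≤ 135 * Z := by
      calc Q0 k D x * (30 * ∏ i, ((B.Q i).I2 + ε)) ≤ Q0 k D x * (30 * (9 / 2 * Z0)) := by gcongr
        _ = 135 * Z := by rw [hZ]; ring
    have e3 : x ^ (3 / 4 : ℝ) ≤ x := by
      calc x ^ (3 / 4 : ℝ) ≤ x ^ (1 : ℝ) := Real.rpow_le_rpow_of_exponent_le hx.le (by norm_num)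
        _ = x := Real.rpow_one x
    have e4 : 2 * x ≤ η * Z := by
      have h5 : 0 < Z0 * η := mul_pos hZ0p hη
      have := mul_le_mul_of_nonneg_right hq0 h5.le
      calc 2 * x = 2 / (Z0 * η) * x * (Z0 * η) := by
            have h5' := h5.ne'
            generalize Z0 * η = y at h5' ⊢
            field_simp
        _ ≤ Q0 k D x * (Z0 * η) := this
        _ = η * Z := by rw [hZ]; ring
    have e5 : η / 270 * (Q0 k D x * (30 * ∏ i, ((B.Q i).I2 + ε))) ≤ η / 270 * (135 * Z) :=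
      mul_le_mul_of_nonneg_left e2 (by positivity)
    linarith
  · intro i
    change 1 / 5 * ρ i * Z ≤ ∑ n ∈ (Icc 1 ⌊x⌋₊).filter (fun n => (a i * n + b i).Prime),
      (if n ≡ v [MOD (WW D)] then u n else 0)
    have e0 : ∑ n ∈ (Icc 1 ⌊x⌋₊).filter (fun n => (a i * n + b i).Prime),
        (if n ≡ v [MOD (WW D)] then u n else 0) =
        ∑ n ∈ (Icc 1 ⌊x⌋₊).filter (fun n => n ≡ v [MOD (WW D)] ∧ (a i * n + b i).Prime), u n := by
      rw [← Finset.sum_filter, Finset.filter_filter]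
      refine Finset.sum_congr (Finset.ext fun n => ?_) fun _ _ => rfl
      simp only [Finset.mem_filter]
      tauto
    rw [e0]
    set S := ∑ n ∈ (Icc 1 ⌊x⌋₊).filter (fun n => n ≡ v [MOD (WW D)] ∧ (a i * n + b i).Prime), u n
      with hS
    have e1 : Lx x * Q0 k D x * ((1 - ε) ^ 3 * ((B.Q i).I1 - ε) ^ 2 * BrB B i ε) - x ≤
        (Real.log x + C) * S + x ^ (3 / 4 : ℝ) := (hS2 i).trans (hFC i)
    have hQ0 : 0 ≤ Q0 k D x := by
      by_contra hcon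
      push Not at hcon
      have := mul_neg_of_neg_of_pos hcon hZ0p
      linarith
    have hLx : 0 ≤ Lx x := (Lx_pos hx).le
    have e2 : 216 / 1000 * Real.log x * (ρ i * Z) ≤
        Lx x * Q0 k D x * ((1 - ε) ^ 3 * ((B.Q i).I1 - ε) ^ 2 * BrB B i ε) := by
      calc 216 / 1000 * Real.log x * (ρ i * Z) = Lx x * Q0 k D x * (9 / 10 * (ρ i * Z0)) := by
            rw [hZ]
            unfold Lx
            ring
        _ ≤ _ := mul_le_mul_of_nonneg_left (hbet i) (by positivity)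
    have e3 : x ^ (3 / 4 : ℝ) ≤ x := by
      calc x ^ (3 / 4 : ℝ) ≤ x ^ (1 : ℝ) := Real.rpow_le_rpow_of_exponent_le hx.le (by norm_num)
        _ = x := Real.rpow_one x
    have e4 : 3 * x ≤ ρ i * Z := by
      have h5 : 0 < ρ i * Z0 := mul_pos (hρp i) hZ0p
      have := mul_le_mul_of_nonneg_right (hq3 i) h5.le
      calc 3 * x = 3 / (ρ i * Z0) * x * (ρ i * Z0) := by
            have h5' := h5.ne'
            generalize ρ i * Z0 = y at h5' ⊢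
            field_simp
        _ ≤ Q0 k D x * (ρ i * Z0) := this
        _ = ρ i * Z := by rw [hZ]; ring
    by_contra hcon
    push Not at hcon
    have e5 : (Real.log x + C) * S ≤ (Real.log x + C) * (1 / 5 * ρ i * Z) :=
      mul_le_mul_of_nonneg_left hcon.le (by linarith)
    have e6 : (1 + C / 5) ≤ 16 / 1000 * Real.log x := by
      rw [div_le_iff₀ (by norm_num)] at hlC
      linarith
    have e7 : 0 < ρ i * Z := mul_pos (hρp i) hZpos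
    have e8 : (1 + C / 5) * (ρ i * Z) ≤ 16 / 1000 * Real.log x * (ρ i * Z) :=
      mul_le_mul_of_nonneg_right e6 e7.le
    nlinarith
  · intro i j hij
    change ∑ n ∈ (Icc 1 ⌊x⌋₊).filter (fun n => (a i * n + b i).Prime ∧ (a j * n + b j).Prime),
      (if n ≡ v [MOD (WW D)] then u n else 0) ≤ 6 * (ρ i * ρ j * Z)
    have e0 : ∑ n ∈ (Icc 1 ⌊x⌋₊).filter
          (fun n => (a i * n + b i).Prime ∧ (a j * n + b j).Prime),
        (if n ≡ v [MOD (WW D)] then u n else 0) =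
        ∑ n ∈ (Icc 1 ⌊x⌋₊).filter (fun n => n ≡ v [MOD (WW D)] ∧ (a i * n + b i).Prime ∧
          (a j * n + b j).Prime), u n := by
      rw [← Finset.sum_filter, Finset.filter_filter]
      refine Finset.sum_congr (Finset.ext fun n => ?_) fun _ _ => rfl
      simp only [Finset.mem_filter]
      tauto
    rw [e0]
    refine (hP i j hij).trans ?_
    have hQ0 : 0 ≤ Q0 k D x := by
      by_contra hcon
      push Not at hcon
      have := mul_neg_of_neg_of_pos hcon hZ0p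
      linarith
    have e1 := mul_le_mul_of_nonneg_left (hpr i j hij) hQ0
    have e4 : x ≤ ρ i * ρ j * Z := by
      have h5 : 0 < ρ i * ρ j * Z0 := mul_pos (mul_pos (hρp i) (hρp j)) hZ0p
      have := mul_le_mul_of_nonneg_right (hq4 i j) h5.le
      calc x = 1 / (ρ i * ρ j * Z0) * x * (ρ i * ρ j * Z0) := by
            have h5' := h5.ne'
            generalize ρ i * ρ j * Z0 = y at h5' ⊢
            field_simp
        _ ≤ Q0 k D x * (ρ i * ρ j * Z0) := this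
        _ = ρ i * ρ j * Z := by rw [hZ]; ring
    have e5 : Q0 k D x * (5 * (ρ i * ρ j * Z0)) = 5 * (ρ i * ρ j * Z) := by rw [hZ]; ring
    have e6 : Q0 k D x * (5 * (((B.Q i).I1 ^ 2 / (B.Q i).I2) * ((B.Q j).I1 ^ 2 / (B.Q j).I2) *
          (1 / 3 * ∏ l, (B.Q l).I2))) = 5 * (ρ i * ρ j * Z) := e5
    rw [e6] at e1
    linarith


open Classical in
/-- **what the sieve gives** -/
theorem sieve_out' (B : BPar k) (h1 : ∀ i, 0 < (B.Q i).I1) (h2 : ∀ i, 0 < (B.Q i).I2)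
    (h3 : ∀ i, (B.Q i).I2 ≤ (B.Q i).IE) (h4 : ∏ i, ((B.Q i).IE / (B.Q i).I2) ≤ Real.exp 2)
    (a b : Fin k → ℕ) (ha : ∀ i, 1 ≤ a i) (hb : ∀ i, 1 ≤ b i)
    (hnp : ∀ i j, i ≠ j → a i * b j ≠ a j * b i)
    (hadm : ∀ p : ℕ, p.Prime → ∃ n : ℕ, ¬ p ∣ n ∧ ∀ i, ¬ p ∣ a i * n + b i)
    (W r : ℕ) (hW : Squarefree W) (hr : r.Coprime W) (hr' : ∀ i, (a i * r + b i).Coprime W)
    (η : ℝ) (hη : 0 < η) :
    ∃ (δ : ℝ) (C' : ℕ) (mu : ℝ → ℕ → ℝ) (Z : ℝ → ℝ), 0 < δ ∧ ∀ᶠ x : ℝ in atTop, x ≤ Z x ∧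
      (∀ n ∈ Icc 1 ⌊x⌋₊, 0 ≤ mu x n ∧ (mu x n ≠ 0 → n ≡ r [MOD W])) ∧
      ∑ n ∈ Icc 1 ⌊x⌋₊, mu x n ≤ 2 * Z x ∧
      ∑ n ∈ Icc 1 ⌊x⌋₊, (mu x n) ^ 2 ≤ x * (Real.log x) ^ C' ∧
      ∑ n ∈ (Icc 1 ⌊x⌋₊).filter (fun n => ∃ p : ℕ, p.Prime ∧ p ∣ n ∧ (p : ℝ) ≤ x ^ δ), mu x n ≤
        η * Z x ∧
      (∀ i : Fin k, 1 / 5 * ((B.Q i).I1 ^ 2 / (B.Q i).I2) * Z x ≤
        ∑ n ∈ (Icc 1 ⌊x⌋₊).filter (fun n => (a i * n + b i).Prime), mu x n) ∧
      ∀ i j : Fin k, i ≠ j →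
        ∑ n ∈ (Icc 1 ⌊x⌋₊).filter
          (fun n => (a i * n + b i).Prime ∧ (a j * n + b j).Prime), mu x n ≤
          6 * (((B.Q i).I1 ^ 2 / (B.Q i).I2) * ((B.Q j).I1 ^ 2 / (B.Q j).I2) * Z x) :=
  sieve_out_aux B h1 h2 (exists_eps B h1 h2 h3 h4) a b ha hb hnp hadm W r hW hr hr' η hη

end Pool.Agent.J6H52.AP
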