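import Mathlib
import Pool.Agent.J6H52.AP.CS
import Pool.Agent.J6H52.AP.Sieve

/-! Block measures on the integers without small prime factors in a residue class. -/

set_option autoImplicit false

namespace Pool.Agent.J6H52.AP

open Finset Filter Topology
open Pool.Agent.H361R2.Inf
open Pool.Agent.H361R2.GM (SPar)

open Classical in
/-- many elements of `S` in a class which have only large prime factors -/
def Lg (W r R C : ℕ) (S : Set ℕ) : Prop := ∃ᶠ x : ℕ in atTop, (x : ℝ) / (Real.log x) ^ C ≤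
  (((Icc 1 x).filter (fun n => n ∈ S ∧ n ≡ r [MOD W] ∧ ∀ q : ℕ, q.Prime → q ∣ n → x < q ^ R)).card : ℝ)

theorem xlog_tendsto (C : ℕ) : Tendsto (fun x : ℕ => (x : ℝ) / (Real.log x) ^ C) atTop atTop := by
  have h1 : Tendsto (fun x : ℝ => x / (Real.log x) ^ C) atTop atTop := by
    have h2 : (fun x : ℝ => (Real.log x) ^ C) =o[atTop] fun x => x ^ (1 / 2 : ℝ) := by
      have := isLittleO_log_rpow_rpow_atTop (C : ℝ) (s := 1 / 2) (by norm_num)
      simpa [Real.rpow_natCast] using this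
    have h3 := h2.def (c := 1) one_pos
    refine tendsto_atTop_mono' atTop ?_ (tendsto_rpow_atTop (y := 1 / 2) (by norm_num))
    filter_upwards [h3, eventually_gt_atTop (1 : ℝ)] with x hx hx1
    have hx0 : 0 < x := by linarith
    have hl : 0 < Real.log x := Real.log_pos hx1
    rw [Real.norm_of_nonneg (by positivity), Real.norm_of_nonneg (by positivity), one_mul] at hx
    rw [le_div_iff₀ (by positivity)]
    calc x ^ (1 / 2 : ℝ) * (Real.log x) ^ C ≤ x ^ (1 / 2 : ℝ) * x ^ (1 / 2 : ℝ) := by gcongr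
      _ = x := by
        rw [← Real.rpow_add hx0]
        norm_num
  exact h1.comp tendsto_natCast_atTop_atTop

theorem Lg.infinite {W r R C : ℕ} {S : Set ℕ} (h : Lg W r R C S) : S.Infinite := by
  classical
  intro hS
  have h1 := (xlog_tendsto C).eventually_gt_atTop (hS.toFinset.card : ℝ)
  obtain ⟨x, hx1, hx2⟩ := (h.and_eventually h1).exists
  have h2 : ((Icc 1 x).filter (fun n => n ∈ S ∧ n ≡ r [MOD W] ∧
      ∀ q : ℕ, q.Prime → q ∣ n → x < q ^ R)).card ≤ hS.toFinset.card := by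
    apply card_le_card
    intro n hn
    rw [Set.Finite.mem_toFinset]
    exact (mem_filter.1 hn).2.1
  have h3 : (((Icc 1 x).filter (fun n => n ∈ S ∧ n ≡ r [MOD W] ∧
      ∀ q : ℕ, q.Prime → q ∣ n → x < q ^ R)).card : ℝ) ≤ hS.toFinset.card := by exact_mod_cast h2
  linarith

open Classical in
/-- normalised weight of the set `A` at height `x` -/
noncomputable def tA (mu : ℝ → ℕ → ℝ) (Z : ℝ → ℝ) (δ : ℝ) (A : Set ℕ) (x : ℕ) : ℝ :=
  (∑ n ∈ (Icc 1 x).filter (fun n => n ∈ A ∧ ¬ ∃ p : ℕ, p.Prime ∧ p ∣ n ∧ (p : ℝ) ≤ (x : ℝ) ^ δ), mu x n) /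
    Z x

theorem tA_union (mu : ℝ → ℕ → ℝ) (Z : ℝ → ℝ) (δ : ℝ) (A B : Set ℕ) (h : Disjoint A B) (x : ℕ) :
    tA mu Z δ (A ∪ B) x = tA mu Z δ A x + tA mu Z δ B x := by
  classical
  unfold tA
  rw [← add_div]
  congr 1
  simp only [Set.mem_union, or_and_right]
  rw [Finset.filter_or, Finset.sum_union]
  rw [Finset.disjoint_filter]
  intro n _ ha hb
  exact Set.disjoint_left.1 h ha.1 hb.1

/-- **the measures** -/
theorem meas (off : ℕ → ℕ) (Q : ℕ → SPar) (hoff : StrictMono off)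
    (hQ : ∀ i, (Q i).c = 1 / 10 ∧ (Q i).lam = 10 ∧ 0 < (Q i).I1 ∧ 0 < (Q i).I2 ∧
      (Q i).I2 ≤ (Q i).IE)
    (hQ1 : ∀ t, 1 ≤ ∑ i ∈ Ico (off t) (off (t + 1)), (Q i).I1 ^ 2 / (Q i).I2)
    (hQ2 : ∀ N, ∏ i ∈ range (off N), ((Q i).IE / (Q i).I2) ≤ Real.exp 2)
    (J : ℕ) (a b : ℕ → ℕ) (hG : GoodForms (off J) a b) (W r : ℕ) (hW : Squarefree W)
    (hr : r.Coprime W) (hr' : ∀ i < off J, (a i * r + b i).Coprime W) :
    ∃ (R C : ℕ) (m : Set ℕ → ℝ), FMeas m ∧ m Set.univ ≤ 2 ∧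
      (∀ t < J, 1 / 200 ≤ m {n | ∃ i ∈ Ico (off t) (off (t + 1)), (a i * n + b i).Prime}) ∧
      ∀ S, 0 < m S → Lg W r R C S := by
  classical
  obtain ⟨δ, C', mu, Z, hδ, hev⟩ := sieve_out' (k := off J)
    ⟨fun i => Q i, fun i => (hQ i).1, fun i => (hQ i).2.1⟩
    (fun i => (hQ i).2.2.1) (fun i => (hQ i).2.2.2.1) (fun i => (hQ i).2.2.2.2)
    (by
      have := hQ2 J
      rwa [← Fin.prod_univ_eq_prod_range (fun i => (Q i).IE / (Q i).I2)] at this)
    (fun i => a i) (fun i => b i) (fun i => hG.ha i i.2) (fun i => hG.hb i i.2)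
    (fun i j hij => hG.ne i i.2 j j.2 (fun e => hij (Fin.ext e)))
    (fun p hp => by
      obtain ⟨n, hn1, hn2⟩ := hG.adm p hp
      exact ⟨n, hn1, fun i => hn2 i i.2⟩)
    W r hW hr (fun i => hr' i i.2) (9 / 8000) (by norm_num)
  have hevN := tendsto_natCast_atTop_atTop.eventually hev
  simp only [Nat.floor_natCast] at hevN
  -- the blocks
  have hblk : ∀ᶠ x : ℕ in atTop, (x : ℝ) ≤ Z x ∧
      (∀ n ∈ Icc 1 x, 0 ≤ mu x n ∧ (mu x n ≠ 0 → n ≡ r [MOD W])) ∧
      ∑ n ∈ Icc 1 x, mu x n ≤ 2 * Z x ∧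
      ∑ n ∈ Icc 1 x, (mu x n) ^ 2 ≤ x * (Real.log x) ^ C' ∧
      ∀ t < J, 1 / 200 * Z x ≤ ∑ n ∈ (Icc 1 x).filter (fun n => n ∈ {n : ℕ | ∃ i ∈ Ico (off t)
        (off (t + 1)), (a i * n + b i).Prime} ∧ ¬ ∃ p : ℕ, p.Prime ∧ p ∣ n ∧ (p : ℝ) ≤ (x : ℝ) ^ δ),
        mu x n := by
    filter_upwards [hevN, eventually_gt_atTop 0] with x hx hx0
    obtain ⟨hZ, hmu, htot, hsq, hnr, hs, hp⟩ := hx
    refine ⟨hZ, hmu, htot, hsq, fun t ht => ?_⟩
    have hZpos : 0 < Z x := lt_of_lt_of_le (by exact_mod_cast hx0) hZ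
    have hlt : ∀ i ∈ Ico (off t) (off (t + 1)), i < off J := by
      intro i hi
      exact lt_of_lt_of_le (Finset.mem_Ico.mp hi).2 (hoff.monotone (Nat.succ_le_of_lt ht))
    have key := cs_block49 (Icc 1 x) (mu x) (fun n hn => (hmu n hn).1)
      (Ico (off t) (off (t + 1))) (fun i n => (a i * n + b i).Prime) (Z x) hZpos
      (fun i => (Q i).I1 ^ 2 / (Q i).I2)
      (fun i _ => (div_pos (pow_pos (hQ i).2.2.1 2) (hQ i).2.2.2.1).le)
      (hQ1 t)
      (fun i hi => by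
        have h1 := hs ⟨i, hlt i hi⟩
        refine le_trans h1 (le_of_eq ?_)
        refine Finset.sum_congr ?_ fun _ _ => rfl
        ext n
        simp only [Finset.mem_filter])
      (fun i hi j hj hij => by
        have h1 := hp ⟨i, hlt i hi⟩ ⟨j, hlt j hj⟩ (fun e => hij (Fin.mk.inj e))
        refine le_trans (le_of_eq ?_) h1
        refine Finset.sum_congr ?_ fun _ _ => rfl
        ext n
        simp only [Finset.mem_filter])
    have h2 : ∑ n ∈ (Icc 1 x).filter (fun n => ∃ i ∈ Ico (off t) (off (t + 1)),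
        (a i * n + b i).Prime), mu x n ≤
        ∑ n ∈ (Icc 1 x).filter (fun n => n ∈ {n : ℕ | ∃ i ∈ Ico (off t)
        (off (t + 1)), (a i * n + b i).Prime} ∧ ¬ ∃ p : ℕ, p.Prime ∧ p ∣ n ∧ (p : ℝ) ≤ (x : ℝ) ^ δ),
        mu x n + ∑ n ∈ (Icc 1 x).filter (fun n => ∃ p : ℕ, p.Prime ∧ p ∣ n ∧ (p : ℝ) ≤ (x : ℝ) ^ δ),
        mu x n := by
      rw [Finset.sum_filter, Finset.sum_filter, Finset.sum_filter, ← Finset.sum_add_distrib]
      refine Finset.sum_le_sum fun n hn => ?_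
      have h3 := (hmu n hn).1
      by_cases h4 : ∃ i ∈ Ico (off t) (off (t + 1)), (a i * n + b i).Prime
      · by_cases h5 : ∃ p : ℕ, p.Prime ∧ p ∣ n ∧ (p : ℝ) ≤ (x : ℝ) ^ δ
        · rw [if_pos h4, if_pos h5, if_neg (fun h => h.2 h5)]
          linarith
        · rw [if_pos h4, if_neg h5, if_pos ⟨h4, h5⟩]
          linarith
      · rw [if_neg h4]
        split_ifs <;> linarith
    have h3 : 49 / 8000 * Z x ≤ ∑ n ∈ (Icc 1 x).filter (fun n => ∃ i ∈ Ico (off t) (off (t + 1)),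
        (a i * n + b i).Prime), mu x n := by
      refine le_trans key (le_of_eq ?_)
      refine Finset.sum_congr ?_ fun _ _ => rfl
      ext n
      simp only [Finset.mem_filter]
    have h4 : ∑ n ∈ (Icc 1 x).filter (fun n => ∃ p : ℕ, p.Prime ∧ p ∣ n ∧ (p : ℝ) ≤ (x : ℝ) ^ δ),
        mu x n ≤ 9 / 8000 * Z x := by
      refine le_trans (le_of_eq ?_) hnr
      refine Finset.sum_congr ?_ fun _ _ => rfl
      ext n
      simp only [Finset.mem_filter]
    have h5 := h3.trans (h2.trans (add_le_add_right h4 _))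
    have h6 : 1 / 200 * Z x ≤ ∑ n ∈ (Icc 1 x).filter (fun n => n ∈ {n : ℕ | ∃ i ∈ Ico (off t)
        (off (t + 1)), (a i * n + b i).Prime} ∧ ¬ ∃ p : ℕ, p.Prime ∧ p ∣ n ∧ (p : ℝ) ≤ (x : ℝ) ^ δ),
        mu x n := by linarith
    refine h6.trans (le_of_eq (Finset.sum_congr ?_ fun _ _ => rfl))
    ext n
    simp only [Finset.mem_filter]
    exact Iff.rfl
  -- the limit
  let F : Ultrafilter ℕ := Ultrafilter.of atTop
  have hF : (F : Filter ℕ) ≤ atTop := Ultrafilter.of_le _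
  have hevF := hblk.filter_mono hF
  have hpos : ∀ᶠ x : ℕ in (F : Filter ℕ), 0 < x := hF (eventually_gt_atTop 0)
  have hnn : ∀ A : Set ℕ, ∀ᶠ x in (F : Filter ℕ), 0 ≤ tA mu Z δ A x := by
    intro A
    filter_upwards [hevF, hpos] with x hx hx0
    have hZpos : 0 < Z x := lt_of_lt_of_le (by exact_mod_cast hx0) hx.1
    refine div_nonneg (Finset.sum_nonneg fun n hn => ?_) hZpos.le
    exact (hx.2.1 n (Finset.mem_filter.1 hn).1).1
  have hle : ∀ A : Set ℕ, ∀ᶠ x in (F : Filter ℕ), tA mu Z δ A x ≤ 2 := by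
    intro A
    filter_upwards [hevF, hpos] with x hx hx0
    have hZpos : 0 < Z x := lt_of_lt_of_le (by exact_mod_cast hx0) hx.1
    unfold tA
    rw [div_le_iff₀ hZpos]
    refine (Finset.sum_le_sum_of_subset_of_nonneg (Finset.filter_subset _ _)
      fun n hn _ => (hx.2.1 n hn).1).trans hx.2.2.1
  have hlim : ∀ A : Set ℕ, ∃ y : ℝ, y ∈ Set.Icc (0:ℝ) 2 ∧
      Tendsto (tA mu Z δ A) (F : Filter ℕ) (𝓝 y) := by
    intro A
    have h1 : (F.map (tA mu Z δ A) : Filter ℝ) ≤ 𝓟 (Set.Icc (0:ℝ) 2) := by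
      rw [Filter.le_principal_iff, Ultrafilter.mem_coe, Ultrafilter.mem_map]
      filter_upwards [hnn A, hle A] with x h1 h2
      exact ⟨h1, h2⟩
    obtain ⟨y, hy, hy2⟩ := isCompact_Icc.ultrafilter_le_nhds (F.map (tA mu Z δ A)) h1
    exact ⟨y, hy, hy2⟩
  choose m hm1 hm2 using hlim
  set R : ℕ := ⌈1 / δ⌉₊ + 1 with hR
  have hRδ : 1 ≤ R * δ := by
    have h1 : 1 / δ ≤ R := by
      rw [hR]
      push_cast
      linarith [Nat.le_ceil (1 / δ)]
    rwa [div_le_iff₀ hδ] at h1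
  have hLg : ∀ S, 0 < m S → Lg W r R (C' + 1) S := by
    intro S hS
    set e : ℝ := m S / 2 with he
    have he0 : 0 < e := by positivity
    have h1 : ∀ᶠ x in (F : Filter ℕ), e < tA mu Z δ S x :=
      (hm2 S).eventually (lt_mem_nhds (by linarith))
    have h2 : ∀ᶠ x : ℕ in (F : Filter ℕ), max (1 / e ^ 2) 1 ≤ Real.log x :=
      hF ((Real.tendsto_log_atTop.comp tendsto_natCast_atTop_atTop).eventually_ge_atTop _)
    unfold Lg
    refine Filter.Frequently.filter_mono (f := (F : Filter ℕ)) (Filter.Eventually.frequently ?_) hF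
    filter_upwards [hevF, hpos, h1, h2] with x hx hx0 h1 h2
    obtain ⟨hZ, hmu, htot, hsq, -⟩ := hx
    have hx1 : (1 : ℝ) ≤ x := by exact_mod_cast hx0
    have hxp : (0 : ℝ) < x := by linarith
    have hZpos : 0 < Z x := lt_of_lt_of_le hxp hZ
    have hlog1 : 1 ≤ Real.log x := (le_max_right _ _).trans h2
    have hloge : 1 / e ^ 2 ≤ Real.log x := (le_max_left _ _).trans h2
    unfold tA at h1
    rw [lt_div_iff₀ hZpos] at h1
    set T := (Icc 1 x).filter (fun n => n ∈ S ∧ n ≡ r [MOD W] ∧ ∀ q : ℕ, q.Prime → q ∣ n → x < q ^ R)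
      with hT
    have h3 : ∑ n ∈ (Icc 1 x).filter (fun n => n ∈ S ∧ ¬ ∃ p : ℕ, p.Prime ∧ p ∣ n ∧
        (p : ℝ) ≤ (x : ℝ) ^ δ), mu x n ≤ ∑ n ∈ T, mu x n := by
      rw [hT, Finset.sum_filter, Finset.sum_filter]
      refine Finset.sum_le_sum fun n hn => ?_
      have h4 := hmu n hn
      by_cases h5 : n ∈ S ∧ ¬ ∃ p : ℕ, p.Prime ∧ p ∣ n ∧ (p : ℝ) ≤ (x : ℝ) ^ δ
      · rw [if_pos h5]
        by_cases h6 : mu x n = 0
        · rw [h6]
          split_ifs <;> exact le_rfl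
        · rw [if_pos]
          refine ⟨h5.1, h4.2 h6, fun q hq hqn => ?_⟩
          have h7 : (x : ℝ) ^ δ < q := by
            by_contra hcon
            exact h5.2 ⟨q, hq, hqn, not_lt.1 hcon⟩
          have h8 : (x : ℝ) < (q : ℝ) ^ R := by
            calc (x : ℝ) = (x : ℝ) ^ (1 : ℝ) := (Real.rpow_one _).symm
              _ ≤ (x : ℝ) ^ (δ * R) := Real.rpow_le_rpow_of_exponent_le hx1 (by linarith)
              _ = ((x : ℝ) ^ δ) ^ R := by rw [Real.rpow_mul hxp.le, Real.rpow_natCast]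
              _ < (q : ℝ) ^ R := pow_lt_pow_left₀ h7 (by positivity) (by omega)
          exact_mod_cast h8
      · rw [if_neg h5]
        split_ifs
        · exact h4.1
        · exact le_rfl
    have h4 : (∑ n ∈ T, mu x n) ^ 2 ≤ T.card * ∑ n ∈ T, (mu x n) ^ 2 :=
      sq_sum_le_card_mul_sum_sq
    have h5 : ∑ n ∈ T, (mu x n) ^ 2 ≤ x * (Real.log x) ^ C' := by
      refine le_trans ?_ hsq
      exact Finset.sum_le_sum_of_subset_of_nonneg (Finset.filter_subset _ _)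
        fun n _ _ => sq_nonneg _
    have h6 : (e * Z x) ^ 2 ≤ (∑ n ∈ T, mu x n) ^ 2 :=
      pow_le_pow_left₀ (by positivity) (h1.le.trans h3) 2
    have h7 : (e * Z x) ^ 2 ≤ T.card * (x * (Real.log x) ^ C') :=
      (h6.trans h4).trans (mul_le_mul_of_nonneg_left h5 (Nat.cast_nonneg _))
    have h8 : (e * x) ^ 2 ≤ (e * Z x) ^ 2 := by
      apply pow_le_pow_left₀ (by positivity)
      exact mul_le_mul_of_nonneg_left hZ he0.le
    have h9 : e ^ 2 * x ≤ T.card * (Real.log x) ^ C' := by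
      have h10 : (e ^ 2 * x) * x ≤ (T.card * (Real.log x) ^ C') * x := by
        calc (e ^ 2 * x) * x = (e * x) ^ 2 := by ring
          _ ≤ T.card * (x * (Real.log x) ^ C') := h8.trans h7
          _ = _ := by ring
      exact le_of_mul_le_mul_right h10 hxp
    have h11 : (x : ℝ) ≤ Real.log x * (e ^ 2 * x) := by
      rw [div_le_iff₀ (by positivity)] at hloge
      calc (x : ℝ) = 1 * x := (one_mul _).symm
        _ ≤ (Real.log x * e ^ 2) * x := mul_le_mul_of_nonneg_right hloge hxp.le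
        _ = _ := by ring
    have h12 : (x : ℝ) / (Real.log x) ^ (C' + 1) ≤ (T.card : ℝ) := by
      rw [div_le_iff₀ (by positivity)]
      calc (x : ℝ) ≤ Real.log x * (e ^ 2 * x) := h11
        _ ≤ Real.log x * (T.card * (Real.log x) ^ C') := by gcongr
        _ = _ := by ring
    convert h12 using 3
  have hm0 : ∀ A, 0 ≤ m A := fun A => (hm1 A).1
  refine ⟨R, C' + 1, m, ⟨hm0, fun A B hAB => ?_, fun A hA => ?_⟩, (hm1 _).2, fun t ht => ?_, hLg⟩
  · have h1 : Tendsto (tA mu Z δ (A ∪ B)) (F : Filter ℕ) (𝓝 (m A + m B)) := by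
      have h2 := (hm2 A).add (hm2 B)
      refine h2.congr fun x => ?_
      rw [tA_union mu Z δ A B hAB x]
    exact tendsto_nhds_unique (hm2 _) h1
  · by_contra hcon
    exact (hLg A (lt_of_le_of_ne (hm0 A) (Ne.symm hcon))).infinite hA
  · refine ge_of_tendsto (hm2 _) ?_
    filter_upwards [hevF, hpos] with x hx hx0
    have hZpos : 0 < Z x := lt_of_lt_of_le (by exact_mod_cast hx0) hx.1
    unfold tA
    rw [le_div_iff₀ hZpos]
    have h3 := hx.2.2.2.2 t ht
    refine h3.trans (le_of_eq (Finset.sum_congr ?_ fun _ _ => rfl))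
    ext n
    simp only [Finset.mem_filter]
    exact Iff.rfl

end Pool.Agent.J6H52.AP
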