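import Mathlib
import Pool.Agent.J6H52.AP.Meas

/-! Block measures on the integers without small prime factors in a residue class: a positive proportion of the
scales of a given sequence. -/

set_option autoImplicit false

namespace Pool.Agent.J6H52.AP

open Finset Filter Topology
open Pool.Agent.H361R2.Inf
open Pool.Agent.H361R2.GM (SPar)

open Classical in
/-- the number of the `k < K` with `P k` -/
noncomputable def num (P : ℕ → Prop) (K : ℕ) : ℕ := ((range K).filter P).card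

/-- positive upper density -/
def PUD (P : ℕ → Prop) : Prop := ∃ c : ℝ, 0 < c ∧ ∃ᶠ K : ℕ in atTop, c * K ≤ (num P K : ℝ)

theorem num_mono {P P' : ℕ → Prop} (h : ∀ k, P k → P' k) (K : ℕ) : num P K ≤ num P' K := by
  classical
  unfold num
  exact card_le_card fun k hk => by
    rw [mem_filter] at hk ⊢
    exact ⟨hk.1, h k hk.2⟩

/-- finitely many numbers do not matter -/
theorem PUD.mono' {P P' : ℕ → Prop} (h : PUD P) (k₀ : ℕ) (hP : ∀ k, k₀ ≤ k → P k → P' k) : PUD P' := by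
  classical
  obtain ⟨c, hc, h⟩ := h
  refine ⟨c / 2, by positivity, ?_⟩
  have h1 : ∀ᶠ K : ℕ in atTop, (k₀ : ℝ) ≤ c / 2 * K := by
    have h2 : Tendsto (fun K : ℕ => c / 2 * (K : ℝ)) atTop atTop :=
      tendsto_natCast_atTop_atTop.const_mul_atTop (by positivity)
    exact h2.eventually_ge_atTop _
  refine (h.and_eventually h1).mono ?_
  rintro K ⟨h2, h3⟩
  have h4 : num P K ≤ k₀ + num P' K := by
    unfold num
    have h5 : (range K).filter P ⊆ range k₀ ∪ (range K).filter P' := by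
      intro k hk
      rw [mem_filter] at hk
      rw [mem_union, mem_filter, mem_range]
      by_cases h6 : k < k₀
      · exact Or.inl h6
      · exact Or.inr ⟨hk.1, hP k (by omega) hk.2⟩
    refine (card_le_card h5).trans ((card_union_le _ _).trans ?_)
    rw [card_range]
  have h5 : (num P K : ℝ) ≤ k₀ + num P' K := by exact_mod_cast h4
  linarith

theorem PUD.frequently {P : ℕ → Prop} (h : PUD P) : ∃ᶠ k : ℕ in atTop, P k := by
  classical
  rw [Filter.frequently_atTop]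
  intro a
  by_contra hcon
  push Not at hcon
  obtain ⟨c, hc, h'⟩ := h.mono' (P' := fun _ => False) a (fun k hk hP => hcon k hk hP)
  have h1 : ∀ᶠ K : ℕ in atTop, 0 < K := eventually_gt_atTop 0
  obtain ⟨K, hK, hK0⟩ := (h'.and_eventually h1).exists
  have : num (fun _ => False) K = 0 := by
    unfold num
    simp
  rw [this] at hK
  have : (0 : ℝ) < K := by exact_mod_cast hK0
  have := mul_pos hc this
  push_cast at hK
  linarith

/-- a shift does not matter -/
theorem PUD.shift {P : ℕ → Prop} (k₀ : ℕ) (h : PUD (fun k => P (k + k₀))) : PUD P := by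
  classical
  obtain ⟨c, hc, h⟩ := h
  refine ⟨c / 2, by positivity, ?_⟩
  rw [Filter.frequently_atTop] at h ⊢
  intro a
  obtain ⟨K, hK, h1⟩ := h (a + k₀)
  refine ⟨K + k₀, by omega, ?_⟩
  have h2 : num (fun k => P (k + k₀)) K ≤ num P (K + k₀) := by
    unfold num
    rw [← card_map (addRightEmbedding k₀)]
    apply card_le_card
    intro k hk
    rw [Finset.mem_map] at hk
    obtain ⟨l, hl, rfl⟩ := hk
    rw [mem_filter, mem_range] at hl ⊢
    simp only [addRightEmbedding_apply]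
    exact ⟨by omega, hl.2⟩
  have h3 : (num (fun k => P (k + k₀)) K : ℝ) ≤ num P (K + k₀) := by exact_mod_cast h2
  have h4 : (k₀ : ℝ) ≤ K := by exact_mod_cast (by omega : k₀ ≤ K)
  push_cast
  have h5 : c / 2 * (K + k₀) ≤ c * K := by nlinarith
  linarith

open Classical in
/-- the number of the elements `≤ x` of `S` in a class which have only large prime factors -/
noncomputable def cl (W r R : ℕ) (S : Set ℕ) (x : ℕ) : ℕ :=
  ((Icc 1 x).filter (fun n => n ∈ S ∧ n ≡ r [MOD W] ∧ ∀ q : ℕ, q.Prime → q ∣ n → x < q ^ R)).card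

open Classical in
theorem rich (mu : ℝ → ℕ → ℝ) (Z : ℝ → ℝ) (δ : ℝ) (W r R C' : ℕ) (hRδ : 1 ≤ R * δ) (S : Set ℕ) (e : ℝ)
    (he0 : 0 < e) (x : ℕ) (hx0 : 0 < x) (hZ : (x : ℝ) ≤ Z x)
    (hmu : ∀ n ∈ Icc 1 x, 0 ≤ mu x n ∧ (mu x n ≠ 0 → n ≡ r [MOD W]))
    (hsq : ∑ n ∈ Icc 1 x, (mu x n) ^ 2 ≤ x * (Real.log x) ^ C')
    (h1 : e < tA mu Z δ S x) (h2 : max (1 / e ^ 2) 1 ≤ Real.log x) :
    (x : ℝ) / (Real.log x) ^ (C' + 1) ≤ (cl W r R S x : ℝ) := by
  have hx1 : (1 : ℝ) ≤ x := by exact_mod_cast hx0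
  have hxp : (0 : ℝ) < x := by linarith
  have hZpos : 0 < Z x := lt_of_lt_of_le hxp hZ
  have hlog1 : 1 ≤ Real.log x := (le_max_right _ _).trans h2
  have hloge : 1 / e ^ 2 ≤ Real.log x := (le_max_left _ _).trans h2
  unfold tA at h1
  rw [lt_div_iff₀ hZpos] at h1
  set T := (Icc 1 x).filter (fun n => n ∈ S ∧ n ≡ r [MOD W] ∧ ∀ q : ℕ, q.Prime → q ∣ n → x < q ^ R)
    with hT
  have h3 : ∑ n ∈ (Icc 1 x).filter (fun n => n ∈ S ∧ ¬ ∃ p : ℕ, p.Prime ∧ p ∣ n ∧
      (p : ℝ) ≤ (x : ℝ) ^ δ), mu x n ≤ ∑ n ∈ T, mu x n := by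
    rw [hT, Finset.sum_filter, Finset.sum_filter]
    refine Finset.sum_le_sum fun n hn => ?_
    have h4 := hmu n hn
    by_cases h5 : n ∈ S ∧ ¬ ∃ p : ℕ, p.Prime ∧ p ∣ n ∧ (p : ℝ) ≤ (x : ℝ) ^ δ
    · rw [if_pos h5]
      by_cases h6 : mu x n = 0
      · rw [h6]
        split_ifs <;> exact le_rfl
      · rw [if_pos]
        refine ⟨h5.1, h4.2 h6, fun q hq hqn => ?_⟩
        have h7 : (x : ℝ) ^ δ < q := by
          by_contra hcon
          exact h5.2 ⟨q, hq, hqn, not_lt.1 hcon⟩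
        have h8 : (x : ℝ) < (q : ℝ) ^ R := by
          have hR1 : R ≠ 0 := by
            rintro rfl
            norm_num at hRδ
          calc (x : ℝ) = (x : ℝ) ^ (1 : ℝ) := (Real.rpow_one _).symm
            _ ≤ (x : ℝ) ^ (δ * R) := Real.rpow_le_rpow_of_exponent_le hx1 (by linarith)
            _ = ((x : ℝ) ^ δ) ^ R := by rw [Real.rpow_mul hxp.le, Real.rpow_natCast]
            _ < (q : ℝ) ^ R := pow_lt_pow_left₀ h7 (by positivity) hR1
        exact_mod_cast h8
    · rw [if_neg h5]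
      split_ifs
      · exact h4.1
      · exact le_rfl
  have h4 : (∑ n ∈ T, mu x n) ^ 2 ≤ T.card * ∑ n ∈ T, (mu x n) ^ 2 :=
    sq_sum_le_card_mul_sum_sq
  have h5 : ∑ n ∈ T, (mu x n) ^ 2 ≤ x * (Real.log x) ^ C' := by
    refine le_trans ?_ hsq
    exact Finset.sum_le_sum_of_subset_of_nonneg (Finset.filter_subset _ _)
      fun n _ _ => sq_nonneg _
  have h6 : (e * Z x) ^ 2 ≤ (∑ n ∈ T, mu x n) ^ 2 :=
    pow_le_pow_left₀ (by positivity) (h1.le.trans h3) 2
  have h7 : (e * Z x) ^ 2 ≤ T.card * (x * (Real.log x) ^ C') :=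
    (h6.trans h4).trans (mul_le_mul_of_nonneg_left h5 (Nat.cast_nonneg _))
  have h8 : (e * x) ^ 2 ≤ (e * Z x) ^ 2 := by
    apply pow_le_pow_left₀ (by positivity)
    exact mul_le_mul_of_nonneg_left hZ he0.le
  have h9 : e ^ 2 * x ≤ T.card * (Real.log x) ^ C' := by
    have h10 : (e ^ 2 * x) * x ≤ (T.card * (Real.log x) ^ C') * x := by
      calc (e ^ 2 * x) * x = (e * x) ^ 2 := by ring
        _ ≤ T.card * (x * (Real.log x) ^ C') := h8.trans h7
        _ = _ := by ring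
    exact le_of_mul_le_mul_right h10 hxp
  have h11 : (x : ℝ) ≤ Real.log x * (e ^ 2 * x) := by
    rw [div_le_iff₀ (by positivity)] at hloge
    calc (x : ℝ) = 1 * x := (one_mul _).symm
      _ ≤ (Real.log x * e ^ 2) * x := mul_le_mul_of_nonneg_right hloge hxp.le
      _ = _ := by ring
  have h12 : (x : ℝ) / (Real.log x) ^ (C' + 1) ≤ (T.card : ℝ) := by
    rw [div_le_iff₀ (by positivity)]
    calc (x : ℝ) ≤ Real.log x * (e ^ 2 * x) := h11
      _ ≤ Real.log x * (T.card * (Real.log x) ^ C') := by gcongr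
      _ = _ := by ring
  exact h12

/-- many elements of `S` in a class which have only large prime factors, for a positive proportion of the scales -/
def LgS (y : ℕ → ℕ) (W r R C : ℕ) (S : Set ℕ) : Prop :=
  PUD fun k => ((y k : ℕ) : ℝ) / (Real.log (y k)) ^ C ≤ (cl W r R S (y k) : ℝ)

theorem LgS.infinite {y : ℕ → ℕ} (hy : StrictMono y) {W r R C : ℕ} {S : Set ℕ} (h : LgS y W r R C S) :
    S.Infinite := by
  classical
  intro hS
  have h1 := ((xlog_tendsto C).comp hy.tendsto_atTop).eventually_gt_atTop (hS.toFinset.card : ℝ)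
  obtain ⟨k, hk1, hk2⟩ := (h.frequently.and_eventually h1).exists
  have h2 : cl W r R S (y k) ≤ hS.toFinset.card := by
    unfold cl
    apply card_le_card
    intro n hn
    rw [Set.Finite.mem_toFinset]
    exact (mem_filter.1 hn).2.1
  have h3 : (cl W r R S (y k) : ℝ) ≤ hS.toFinset.card := by exact_mod_cast h2
  simp only [Function.comp] at hk2
  linarith

/-- **the measures, for a sequence of scales** -/
theorem measS (y : ℕ → ℕ) (hy : StrictMono y) (off : ℕ → ℕ) (Q : ℕ → SPar) (hoff : StrictMono off)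
    (hQ : ∀ i, (Q i).c = 1 / 10 ∧ (Q i).lam = 10 ∧ 0 < (Q i).I1 ∧ 0 < (Q i).I2 ∧
      (Q i).I2 ≤ (Q i).IE)
    (hQ1 : ∀ t, 1 ≤ ∑ i ∈ Ico (off t) (off (t + 1)), (Q i).I1 ^ 2 / (Q i).I2)
    (hQ2 : ∀ N, ∏ i ∈ range (off N), ((Q i).IE / (Q i).I2) ≤ Real.exp 2)
    (J : ℕ) (a b : ℕ → ℕ) (hG : GoodForms (off J) a b) (W r : ℕ) (hW : Squarefree W)
    (hr : r.Coprime W) (hr' : ∀ i < off J, (a i * r + b i).Coprime W) :
    ∃ (R C : ℕ) (m : Set ℕ → ℝ), FMeas m ∧ m Set.univ ≤ 2 ∧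
      (∀ t < J, 1 / 200 ≤ m {n | ∃ i ∈ Ico (off t) (off (t + 1)), (a i * n + b i).Prime}) ∧
      ∀ S, 0 < m S → LgS y W r R C S := by
  classical
  obtain ⟨δ, C', mu, Z, hδ, hev⟩ := sieve_out' (k := off J)
    ⟨fun i => Q i, fun i => (hQ i).1, fun i => (hQ i).2.1⟩
    (fun i => (hQ i).2.2.1) (fun i => (hQ i).2.2.2.1) (fun i => (hQ i).2.2.2.2)
    (by
      have := hQ2 J
      rwa [← Fin.prod_univ_eq_prod_range (fun i => (Q i).IE / (Q i).I2)] at this)
    (fun i => a i) (fun i => b i) (fun i => hG.ha i i.2) (fun i => hG.hb i i.2)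
    (fun i j hij => hG.ne i i.2 j j.2 (fun e => hij (Fin.ext e)))
    (fun p hp => by
      obtain ⟨n, hn1, hn2⟩ := hG.adm p hp
      exact ⟨n, hn1, fun i => hn2 i i.2⟩)
    W r hW hr (fun i => hr' i i.2) (9 / 8000) (by norm_num)
  have hevN := tendsto_natCast_atTop_atTop.eventually hev
  simp only [Nat.floor_natCast] at hevN
  -- the blocks
  have hblk : ∀ᶠ x : ℕ in atTop, (x : ℝ) ≤ Z x ∧
      (∀ n ∈ Icc 1 x, 0 ≤ mu x n ∧ (mu x n ≠ 0 → n ≡ r [MOD W])) ∧
      ∑ n ∈ Icc 1 x, mu x n ≤ 2 * Z x ∧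
      ∑ n ∈ Icc 1 x, (mu x n) ^ 2 ≤ x * (Real.log x) ^ C' ∧
      ∀ t < J, 1 / 200 * Z x ≤ ∑ n ∈ (Icc 1 x).filter (fun n => n ∈ {n : ℕ | ∃ i ∈ Ico (off t)
        (off (t + 1)), (a i * n + b i).Prime} ∧ ¬ ∃ p : ℕ, p.Prime ∧ p ∣ n ∧ (p : ℝ) ≤ (x : ℝ) ^ δ),
        mu x n := by
    filter_upwards [hevN, eventually_gt_atTop 0] with x hx hx0
    obtain ⟨hZ, hmu, htot, hsq, hnr, hs, hp⟩ := hx
    refine ⟨hZ, hmu, htot, hsq, fun t ht => ?_⟩
    have hZpos : 0 < Z x := lt_of_lt_of_le (by exact_mod_cast hx0) hZ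
    have hlt : ∀ i ∈ Ico (off t) (off (t + 1)), i < off J := by
      intro i hi
      exact lt_of_lt_of_le (Finset.mem_Ico.mp hi).2 (hoff.monotone (Nat.succ_le_of_lt ht))
    have key := cs_block49 (Icc 1 x) (mu x) (fun n hn => (hmu n hn).1)
      (Ico (off t) (off (t + 1))) (fun i n => (a i * n + b i).Prime) (Z x) hZpos
      (fun i => (Q i).I1 ^ 2 / (Q i).I2)
      (fun i _ => (div_pos (pow_pos (hQ i).2.2.1 2) (hQ i).2.2.2.1).le)
      (hQ1 t)
      (fun i hi => by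
        have h1 := hs ⟨i, hlt i hi⟩
        refine le_trans h1 (le_of_eq ?_)
        refine Finset.sum_congr ?_ fun _ _ => rfl
        ext n
        simp only [Finset.mem_filter])
      (fun i hi j hj hij => by
        have h1 := hp ⟨i, hlt i hi⟩ ⟨j, hlt j hj⟩ (fun e => hij (Fin.mk.inj e))
        refine le_trans (le_of_eq ?_) h1
        refine Finset.sum_congr ?_ fun _ _ => rfl
        ext n
        simp only [Finset.mem_filter])
    have h2 : ∑ n ∈ (Icc 1 x).filter (fun n => ∃ i ∈ Ico (off t) (off (t + 1)),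
        (a i * n + b i).Prime), mu x n ≤
        ∑ n ∈ (Icc 1 x).filter (fun n => n ∈ {n : ℕ | ∃ i ∈ Ico (off t)
        (off (t + 1)), (a i * n + b i).Prime} ∧ ¬ ∃ p : ℕ, p.Prime ∧ p ∣ n ∧ (p : ℝ) ≤ (x : ℝ) ^ δ),
        mu x n + ∑ n ∈ (Icc 1 x).filter (fun n => ∃ p : ℕ, p.Prime ∧ p ∣ n ∧ (p : ℝ) ≤ (x : ℝ) ^ δ),
        mu x n := by
      rw [Finset.sum_filter, Finset.sum_filter, Finset.sum_filter, ← Finset.sum_add_distrib]
      refine Finset.sum_le_sum fun n hn => ?_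
      have h3 := (hmu n hn).1
      by_cases h4 : ∃ i ∈ Ico (off t) (off (t + 1)), (a i * n + b i).Prime
      · by_cases h5 : ∃ p : ℕ, p.Prime ∧ p ∣ n ∧ (p : ℝ) ≤ (x : ℝ) ^ δ
        · rw [if_pos h4, if_pos h5, if_neg (fun h => h.2 h5)]
          linarith
        · rw [if_pos h4, if_neg h5, if_pos ⟨h4, h5⟩]
          linarith
      · rw [if_neg h4]
        split_ifs <;> linarith
    have h3 : 49 / 8000 * Z x ≤ ∑ n ∈ (Icc 1 x).filter (fun n => ∃ i ∈ Ico (off t) (off (t + 1)),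
        (a i * n + b i).Prime), mu x n := by
      refine le_trans key (le_of_eq ?_)
      refine Finset.sum_congr ?_ fun _ _ => rfl
      ext n
      simp only [Finset.mem_filter]
    have h4 : ∑ n ∈ (Icc 1 x).filter (fun n => ∃ p : ℕ, p.Prime ∧ p ∣ n ∧ (p : ℝ) ≤ (x : ℝ) ^ δ),
        mu x n ≤ 9 / 8000 * Z x := by
      refine le_trans (le_of_eq ?_) hnr
      refine Finset.sum_congr ?_ fun _ _ => rfl
      ext n
      simp only [Finset.mem_filter]
    have h5 := h3.trans (h2.trans (add_le_add_right h4 _))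
    have h6 : 1 / 200 * Z x ≤ ∑ n ∈ (Icc 1 x).filter (fun n => n ∈ {n : ℕ | ∃ i ∈ Ico (off t)
        (off (t + 1)), (a i * n + b i).Prime} ∧ ¬ ∃ p : ℕ, p.Prime ∧ p ∣ n ∧ (p : ℝ) ≤ (x : ℝ) ^ δ),
        mu x n := by linarith
    refine h6.trans (le_of_eq (Finset.sum_congr ?_ fun _ _ => rfl))
    ext n
    simp only [Finset.mem_filter]
    exact Iff.rfl
  -- the scales
  obtain ⟨k₀, hk₀⟩ := Filter.eventually_atTop.1
    (hy.tendsto_atTop.eventually (hblk.and (eventually_gt_atTop 0)))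
  set z : ℕ → ℕ := fun k => y (k + k₀) with hz
  have hzb : ∀ k, ((z k : ℕ) : ℝ) ≤ Z (z k) ∧
      (∀ n ∈ Icc 1 (z k), 0 ≤ mu (z k) n ∧ (mu (z k) n ≠ 0 → n ≡ r [MOD W])) ∧
      ∑ n ∈ Icc 1 (z k), mu (z k) n ≤ 2 * Z (z k) ∧
      ∑ n ∈ Icc 1 (z k), (mu (z k) n) ^ 2 ≤ (z k) * (Real.log (z k)) ^ C' ∧
      (∀ t < J, 1 / 200 ≤ tA mu Z δ {n : ℕ | ∃ i ∈ Ico (off t) (off (t + 1)), (a i * n + b i).Prime} (z k)) ∧
      0 < z k := by
    intro k
    obtain ⟨⟨h1, h2, h3, h4, h5⟩, h6⟩ := hk₀ (k + k₀) (by omega)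
    have hZpos : 0 < Z (z k) := lt_of_lt_of_le (by exact_mod_cast h6) h1
    refine ⟨h1, h2, h3, h4, fun t ht => ?_, h6⟩
    have h7 := h5 t ht
    unfold tA
    rw [le_div_iff₀ hZpos]
    refine h7.trans (le_of_eq (Finset.sum_congr ?_ fun _ _ => rfl))
    ext n
    simp only [Finset.mem_filter]
    exact Iff.rfl
  have hZpos : ∀ k, 0 < Z (z k) := fun k =>
    lt_of_lt_of_le (by exact_mod_cast (hzb k).2.2.2.2.2) (hzb k).1
  have hnn : ∀ (A : Set ℕ) k, 0 ≤ tA mu Z δ A (z k) := by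
    intro A k
    exact div_nonneg (Finset.sum_nonneg fun n hn => ((hzb k).2.1 n (Finset.mem_filter.1 hn).1).1)
      (hZpos k).le
  have hle : ∀ (A : Set ℕ) k, tA mu Z δ A (z k) ≤ 2 := by
    intro A k
    unfold tA
    rw [div_le_iff₀ (hZpos k)]
    refine (Finset.sum_le_sum_of_subset_of_nonneg (Finset.filter_subset _ _)
      fun n hn _ => ((hzb k).2.1 n hn).1).trans (hzb k).2.2.1
  set av : Set ℕ → ℕ → ℝ := fun A K => (∑ k ∈ range K, tA mu Z δ A (z k)) / K with hav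
  have hav0 : ∀ A K, 0 ≤ av A K := fun A K =>
    div_nonneg (Finset.sum_nonneg fun k _ => hnn A k) (Nat.cast_nonneg _)
  have hav2 : ∀ A K, av A K ≤ 2 := by
    intro A K
    rcases Nat.eq_zero_or_pos K with rfl | hK
    · simp [hav]
    · simp only [hav]
      rw [div_le_iff₀ (by exact_mod_cast hK)]
      calc ∑ k ∈ range K, tA mu Z δ A (z k) ≤ ∑ _k ∈ range K, (2 : ℝ) :=
            Finset.sum_le_sum fun k _ => hle A k
        _ = 2 * K := by
            rw [Finset.sum_const, card_range, nsmul_eq_mul, mul_comm]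
  let F : Ultrafilter ℕ := Ultrafilter.of atTop
  have hF : (F : Filter ℕ) ≤ atTop := Ultrafilter.of_le _
  have hlim : ∀ A : Set ℕ, ∃ l : ℝ, l ∈ Set.Icc (0:ℝ) 2 ∧ Tendsto (av A) (F : Filter ℕ) (𝓝 l) := by
    intro A
    have h1 : (F.map (av A) : Filter ℝ) ≤ 𝓟 (Set.Icc (0:ℝ) 2) := by
      rw [Filter.le_principal_iff, Ultrafilter.mem_coe, Ultrafilter.mem_map]
      exact Filter.univ_mem' fun K => ⟨hav0 A K, hav2 A K⟩
    obtain ⟨l, hl, hl2⟩ := isCompact_Icc.ultrafilter_le_nhds (F.map (av A)) h1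
    exact ⟨l, hl, hl2⟩
  choose m hm1 hm2 using hlim
  set R : ℕ := ⌈1 / δ⌉₊ + 1 with hR
  have hRδ : 1 ≤ R * δ := by
    have h1 : 1 / δ ≤ R := by
      rw [hR]
      push_cast
      linarith [Nat.le_ceil (1 / δ)]
    rwa [div_le_iff₀ hδ] at h1
  have hLg : ∀ S, 0 < m S → LgS y W r R (C' + 1) S := by
    intro S hS
    set e : ℝ := m S / 4 with he
    have he0 : 0 < e := by positivity
    have h1 : ∀ᶠ K in (F : Filter ℕ), 2 * e < av S K :=
      (hm2 S).eventually (lt_mem_nhds (by linarith))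
    have h2 : PUD fun k => e < tA mu Z δ S (z k) := by
      refine ⟨e / 2, by positivity, ?_⟩
      refine Filter.Frequently.filter_mono (f := (F : Filter ℕ)) (Filter.Eventually.frequently ?_) hF
      filter_upwards [h1, hF (eventually_gt_atTop 0)] with K hK hK0
      have hKp : (0 : ℝ) < K := by exact_mod_cast hK0
      simp only [hav] at hK
      rw [lt_div_iff₀ hKp] at hK
      have h3 : ∑ k ∈ range K, tA mu Z δ S (z k) ≤
          ∑ k ∈ range K, (e + if e < tA mu Z δ S (z k) then 2 else 0) := by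
        refine Finset.sum_le_sum fun k _ => ?_
        split_ifs with h4
        · linarith [hle S k]
        · linarith
      rw [Finset.sum_add_distrib, Finset.sum_const, card_range, nsmul_eq_mul, ← Finset.sum_filter,
        Finset.sum_const, nsmul_eq_mul] at h3
      change e / 2 * K ≤ (((range K).filter fun k => e < tA mu Z δ S (z k)).card : ℝ)
      have h5 : (((range K).filter fun k => e < tA mu Z δ S (z k)).card : ℝ) =
          (((range K).filter fun k => e < tA mu Z δ S (z k)).card : ℝ) := rfl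
      linarith
    have h6 : ∀ᶠ k : ℕ in atTop, max (1 / e ^ 2) 1 ≤ Real.log (z k) := by
      have h7 : Tendsto (fun k => ((z k : ℕ) : ℝ)) atTop atTop :=
        tendsto_natCast_atTop_atTop.comp ((hy.tendsto_atTop).comp (tendsto_add_atTop_nat k₀))
      exact (Real.tendsto_log_atTop.comp h7).eventually_ge_atTop _
    obtain ⟨k₁, hk₁⟩ := Filter.eventually_atTop.1 h6
    refine PUD.shift k₀ (h2.mono' k₁ fun k hk h7 => ?_)
    exact rich mu Z δ W r R C' hRδ S e he0 (z k) (hzb k).2.2.2.2.2 (hzb k).1 (hzb k).2.1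
      (hzb k).2.2.2.1 h7 (hk₁ k hk)
  have hm0 : ∀ A, 0 ≤ m A := fun A => (hm1 A).1
  refine ⟨R, C' + 1, m, ⟨hm0, fun A B hAB => ?_, fun A hA => ?_⟩, (hm1 _).2, fun t ht => ?_, hLg⟩
  · have h1 : Tendsto (av (A ∪ B)) (F : Filter ℕ) (𝓝 (m A + m B)) := by
      have h2 := (hm2 A).add (hm2 B)
      refine h2.congr fun K => ?_
      simp only [hav]
      rw [← add_div, ← Finset.sum_add_distrib]
      congr 1
      exact Finset.sum_congr rfl fun k _ => (tA_union mu Z δ A B hAB (z k)).symm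
    exact tendsto_nhds_unique (hm2 _) h1
  · by_contra hcon
    exact (hLg A (lt_of_le_of_ne (hm0 A) (Ne.symm hcon))).infinite hy hA
  · refine ge_of_tendsto (hm2 _) ?_
    filter_upwards [hF (eventually_gt_atTop 0)] with K hK0
    have hKp : (0 : ℝ) < K := by exact_mod_cast hK0
    simp only [hav]
    rw [le_div_iff₀ hKp]
    calc 1 / 200 * (K : ℝ) = ∑ _k ∈ range K, (1 / 200 : ℝ) := by
          rw [Finset.sum_const, card_range, nsmul_eq_mul, mul_comm]
      _ ≤ _ := Finset.sum_le_sum fun k _ => (hzb k).2.2.2.2.1 t ht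

end Pool.Agent.J6H52.AP
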