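import Mathlib
import Pool.Agent.H361R2.InfB3
import Pool.Agent.H361R2.InfA6
import Pool.Agent.H361R2.InfA1
import Pool.Agent.J6H52.AP.Meas

/-! Exact patterns along almost primes in sequences of linear forms. -/

set_option autoImplicit false

namespace Pool.Agent.J6H52.AP

open Finset Filter Topology
open Pool.Agent.H361R2.Inf

/-- the residue class in which the given forms have composite values -/
theorem cls (A B : ℕ → ℕ) (hA1 : ∀ i, 1 ≤ A i) (hcop : ∀ i, (A i).Coprime (B i)) (K : ℕ)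
    (bad : Finset (ℤ × ℤ)) (hbad : ∀ g ∈ bad, 1 ≤ g.1 ∧ g.2 ≠ 0 ∧ IsCoprime g.1 g.2 ∧
      ∀ i, g ≠ ((A i : ℤ), (B i : ℤ))) :
    ∃ (W r Q : ℕ), Squarefree W ∧ r.Coprime W ∧ (∀ i < K, (A i * r + B i).Coprime W) ∧
      ∀ g ∈ bad, ∀ n : ℕ, n ≡ r [MOD W] → Q < n → ¬ Nat.Prime (g.1 * n + g.2).toNat := by
  classical
  set M : ℕ := ∑ g ∈ bad, g.1.natAbs + ∑ g ∈ bad, g.2.natAbs +
    ∑ g ∈ bad, ∑ i ∈ range K, (g.1 * B i - A i * g.2).natAbs with hM
  set q : ℤ × ℤ → ℕ := fun g => Nat.nth Nat.Prime (M + Encodable.encode g) with hq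
  have hqp : ∀ g, (q g).Prime := fun g => Nat.prime_nth_prime _
  have hqM : ∀ g, M < q g := fun g => by
    have : M + Encodable.encode g + 2 ≤ q g := Nat.add_two_le_nth_prime _
    omega
  have hqinj : Function.Injective q := by
    intro g g' h
    have h1 := Nat.nth_injective Nat.infinite_setOfPred_prime h
    have h2 : Encodable.encode g = Encodable.encode g' := by omega
    exact Encodable.encode_injective h2
  have hg1 : ∀ g ∈ bad, ¬ (q g : ℤ) ∣ g.1 := by
    intro g hg hd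
    have h1 : g.1.natAbs ≤ ∑ g ∈ bad, g.1.natAbs :=
      Finset.single_le_sum (f := fun g : ℤ × ℤ => g.1.natAbs) (fun _ _ => Nat.zero_le _) hg
    have h2 := hqM g
    have h3 := (hbad g hg).1
    have h4 := Int.le_of_dvd (by omega) hd
    omega
  have hg2 : ∀ g ∈ bad, ¬ (q g : ℤ) ∣ g.2 := by
    intro g hg hd
    have h1 : g.2.natAbs ≤ ∑ g ∈ bad, g.2.natAbs :=
      Finset.single_le_sum (f := fun g : ℤ × ℤ => g.2.natAbs) (fun _ _ => Nat.zero_le _) hg
    have h2 := hqM g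
    have h3 := (hbad g hg).2.1
    have h4 : q g ∣ g.2.natAbs := Int.natCast_dvd.1 hd
    have h5 := Nat.le_of_dvd (by omega) h4
    omega
  have hroot : ∀ g : ℤ × ℤ, ∃ r : ℕ, g ∈ bad → (q g : ℤ) ∣ g.1 * r + g.2 := by
    intro g
    by_cases hg : g ∈ bad
    · obtain ⟨r, hr⟩ := A6_root (q g) (hqp g) g.1 g.2 (hg1 g hg)
      exact ⟨r, fun _ => hr⟩
    · exact ⟨0, fun h => absurd h hg⟩
  choose ro hro using hroot
  have hpair : Set.Pairwise (bad : Set (ℤ × ℤ)) (Function.onFun Nat.Coprime q) := by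
    intro x _ y _ hxy
    exact (Nat.coprime_primes (hqp x) (hqp y)).mpr (fun h => hxy (hqinj h))
  obtain ⟨r, hr⟩ := Nat.chineseRemainderOfFinset ro q bad (fun i _ => (hqp i).ne_zero) hpair
  have hqr : ∀ g ∈ bad, ∀ n : ℕ, n ≡ r [MOD q g] → (q g : ℤ) ∣ g.1 * n + g.2 := by
    intro g hg n hn
    have h1 : r ≡ ro g [MOD q g] := hr _ hg
    have h2 : (n : ℤ) ≡ (ro g : ℤ) [ZMOD q g] := Int.natCast_modEq_iff.mpr (hn.trans h1)
    have h3 : g.1 * n + g.2 ≡ g.1 * (ro g : ℤ) + g.2 [ZMOD q g] :=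
      (h2.mul_left _).add_right _
    exact (Int.ModEq.dvd_iff h3).mpr (hro g hg)
  refine ⟨∏ x ∈ bad, q x, r, ∑ g ∈ bad, (q g + g.2.natAbs), ?_, ?_, ?_, ?_⟩
  · apply Finset.squarefree_prod_of_pairwise_isCoprime
    · intro x hx y hy hxy
      exact Nat.coprime_iff_isRelPrime.1 (hpair hx hy hxy)
    · intro x _
      exact (hqp x).prime.squarefree
  · apply Nat.Coprime.prod_right
    intro g hg
    rw [Nat.coprime_comm, (hqp g).coprime_iff_not_dvd]
    intro hd
    have h1 := hqr g hg r (Nat.ModEq.refl _)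
    have h2 : (q g : ℤ) ∣ g.1 * (r : ℤ) := (Int.natCast_dvd_natCast.2 hd).mul_left _
    exact hg2 g hg ((dvd_add_right h2).1 h1)
  · intro i hi
    apply Nat.Coprime.prod_right
    intro g hg
    rw [Nat.coprime_comm, (hqp g).coprime_iff_not_dvd]
    intro hd
    have hd' : (q g : ℤ) ∣ (A i : ℤ) * r + B i := by
      have := Int.natCast_dvd_natCast.2 hd
      push_cast at this
      exact this
    have h1 : (q g : ℤ) ∣ g.1 * (r : ℤ) + g.2 := hqr g hg r (Nat.ModEq.refl _)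
    have h2 : (q g : ℤ) ∣ g.1 * B i - A i * g.2 := by
      have h3 := (hd'.mul_left g.1).sub (h1.mul_left (A i : ℤ))
      have h4 : g.1 * ((A i : ℤ) * r + B i) - A i * (g.1 * r + g.2) = g.1 * B i - A i * g.2 := by
        ring
      rwa [h4] at h3
    have h5 : (g.1 * B i - A i * g.2).natAbs ≤ M := by
      have h6 : ∑ i ∈ range K, (g.1 * B i - A i * g.2).natAbs ≤
          ∑ g ∈ bad, ∑ i ∈ range K, (g.1 * B i - A i * g.2).natAbs :=
        Finset.single_le_sum
          (f := fun g : ℤ × ℤ => ∑ i ∈ range K, (g.1 * B i - A i * g.2).natAbs)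
          (fun _ _ => Nat.zero_le _) hg
      have h7 : (g.1 * B i - A i * g.2).natAbs ≤
          ∑ i ∈ range K, (g.1 * B i - A i * g.2).natAbs :=
        Finset.single_le_sum (f := fun i : ℕ => (g.1 * B i - A i * g.2).natAbs)
          (fun _ _ => Nat.zero_le _) (mem_range.mpr hi)
      omega
    have h8 : g.1 * B i - A i * g.2 = 0 := by
      apply Int.eq_zero_of_abs_lt_dvd h2
      have := hqM g
      rw [Int.abs_eq_natAbs]
      exact_mod_cast lt_of_le_of_lt h5 this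
    obtain ⟨hg1', -, hg2', hg3'⟩ := hbad g hg
    apply hg3' i
    exact A6_prim hg1' (by exact_mod_cast hA1 i) hg2' (Nat.isCoprime_iff_coprime.2 (hcop i))
      (by linarith)
  · intro g hg n hn hQ hprime
    have hd : q g ∣ ∏ x ∈ bad, q x := Finset.dvd_prod_of_mem q hg
    have h1 : (q g : ℤ) ∣ g.1 * n + g.2 := hqr g hg n (hn.of_dvd hd)
    have h2 : q g + g.2.natAbs ≤ ∑ g ∈ bad, (q g + g.2.natAbs) :=
      Finset.single_le_sum (f := fun g : ℤ × ℤ => q g + g.2.natAbs)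
        (fun _ _ => Nat.zero_le _) hg
    have h3 := (hbad g hg).1
    have h4 : (n : ℤ) ≤ g.1 * n := by nlinarith [Int.natCast_nonneg n]
    have h5 : (q g : ℤ) < g.1 * n + g.2 := by omega
    have h6 : ((g.1 * n + g.2).toNat : ℤ) = g.1 * n + g.2 := Int.toNat_of_nonneg (by omega)
    have h7 : q g ∣ (g.1 * n + g.2).toNat := by
      rw [← h6] at h1
      exact Int.natCast_dvd_natCast.mp h1
    have h8 := (Nat.prime_dvd_prime_iff_eq (hqp g) hprime).mp h7
    omega

/-- numbers without small prime factors -/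
theorem few_factors {x n r : ℕ} (hx : 1 ≤ x) (hn0 : 1 ≤ n) (hn : n ≤ x)
    (h : ∀ q : ℕ, q.Prime → q ∣ n → x < q ^ r) : n.primeFactorsList.length ≤ r := by
  by_contra hcon
  push Not at hcon
  have h1 : ∀ l : List ℕ, (∀ q ∈ l, x < q ^ r) → l ≠ [] → x ^ l.length < l.prod ^ r := by
    intro l
    induction l with
    | nil => intro _ h; exact absurd rfl h
    | cons a l ih =>
      intro hl _
      have ha := hl a (by simp)
      by_cases hl0 : l = []
      · subst hl0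
        simpa using ha
      · have h2 := ih (fun q hq => hl q (List.mem_cons_of_mem a hq)) hl0
        rw [List.length_cons, List.prod_cons, pow_succ, mul_pow, mul_comm]
        exact Nat.mul_lt_mul'' ha h2
  have hne : n.primeFactorsList ≠ [] := by
    intro h0
    rw [h0] at hcon
    simp at hcon
  have h2 := h1 n.primeFactorsList (fun q hq => h q (Nat.prime_of_mem_primeFactorsList hq)
    (Nat.dvd_of_mem_primeFactorsList hq)) hne
  rw [Nat.prod_primeFactorsList (by omega)] at h2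
  have h3 : n ^ r ≤ x ^ r := Nat.pow_le_pow_left hn r
  have h4 : x ^ r ≤ x ^ n.primeFactorsList.length := Nat.pow_le_pow_right hx hcon.le
  omega

open Classical in
/-- the number of the `n ≤ x` in `S` with at most `r` prime factors, all larger than `x ^ (1 / r)` -/
noncomputable def cnt (r : ℕ) (S : Set ℕ) (x : ℕ) : ℕ :=
  ((Icc 1 x).filter (fun n : ℕ => n.primeFactorsList.length ≤ r ∧ (∀ q : ℕ, q.Prime → q ∣ n → x < q ^ r) ∧
    n ∈ S)).card

/-- many almost primes belong to `S` -/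
def Many (S : Set ℕ) : Prop := ∃ r C : ℕ, ∃ᶠ x : ℕ in atTop, (x : ℝ) / (Real.log x) ^ C ≤ cnt r S x

theorem Many.mono {S S' : Set ℕ} (h : Many S) (hS : S ⊆ S') : Many S' := by
  classical
  obtain ⟨r, C, h⟩ := h
  refine ⟨r, C, h.mono fun x hx => hx.trans ?_⟩
  unfold cnt
  exact_mod_cast card_le_card (fun n hn => by
    rw [mem_filter] at hn ⊢
    exact ⟨hn.1, hn.2.1, hn.2.2.1, hS hn.2.2.2⟩)

theorem Many.infinite {S : Set ℕ} (h : Many S) : S.Infinite := by
  classical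
  obtain ⟨r, C, h⟩ := h
  intro hS
  have h1 := (xlog_tendsto C).eventually_gt_atTop (hS.toFinset.card : ℝ)
  obtain ⟨x, hx1, hx2⟩ := (h.and_eventually h1).exists
  have h2 : cnt r S x ≤ hS.toFinset.card := by
    unfold cnt
    apply card_le_card
    intro n hn
    rw [Set.Finite.mem_toFinset]
    exact (mem_filter.1 hn).2.2.2
  have h3 : (cnt r S x : ℝ) ≤ hS.toFinset.card := by exact_mod_cast h2
  linarith

/-- elements up to `Q` do not matter -/
theorem many_of_Lg {W r R C : ℕ} {S S' : Set ℕ} (h : Lg W r R C S) (Q : ℕ)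
    (hS : ∀ n ∈ S, n ≡ r [MOD W] → Q < n → n ∈ S') : Many S' := by
  classical
  refine ⟨R, C + 1, ?_⟩
  have h1 := (xlog_tendsto (C + 1)).eventually_ge_atTop (Q : ℝ)
  have h2 : ∀ᶠ x : ℕ in atTop, 2 ≤ Real.log x :=
    (Real.tendsto_log_atTop.comp tendsto_natCast_atTop_atTop).eventually_ge_atTop _
  refine (h.and_eventually (h1.and h2)).mono ?_
  rintro x ⟨hx1, hx2, hx3⟩
  set T := (Icc 1 x).filter (fun n => n ∈ S ∧ n ≡ r [MOD W] ∧ ∀ q : ℕ, q.Prime → q ∣ n → x < q ^ R)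
    with hT
  have hx0 : 1 ≤ x := by
    by_contra hcon
    have : x = 0 := by omega
    rw [this] at hx3
    simp at hx3
    linarith
  have h3 : T.card ≤ Q + cnt R S' x := by
    have h4 : T ⊆ Icc 1 Q ∪ (Icc 1 x).filter (fun n : ℕ => n.primeFactorsList.length ≤ R ∧
        (∀ q : ℕ, q.Prime → q ∣ n → x < q ^ R) ∧ n ∈ S') := by
      intro n hn
      rw [hT, mem_filter, mem_Icc] at hn
      obtain ⟨⟨a1, a2⟩, a3, a4, a5⟩ := hn
      rw [mem_union, mem_Icc, mem_filter, mem_Icc]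
      by_cases hQ : n ≤ Q
      · exact Or.inl ⟨a1, hQ⟩
      · exact Or.inr ⟨⟨a1, a2⟩, few_factors hx0 a1 a2 a5, a5, hS n a3 a4 (by omega)⟩
    refine (card_le_card h4).trans ((card_union_le _ _).trans ?_)
    rw [Nat.card_Icc, Nat.add_sub_cancel]
    exact le_rfl
  have hL0 : 0 < Real.log x := by linarith
  have h5 : (x : ℝ) / (Real.log x) ^ C ≤ Q + cnt R S' x := by
    refine hx1.trans ?_
    have : (T.card : ℝ) ≤ Q + cnt R S' x := by exact_mod_cast h3
    convert this using 3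
  have h6 : 2 * ((x : ℝ) / (Real.log x) ^ (C + 1)) ≤ (x : ℝ) / (Real.log x) ^ C := by
    have e : (x : ℝ) / (Real.log x) ^ C = Real.log x * ((x : ℝ) / (Real.log x) ^ (C + 1)) := by
      rw [pow_succ]
      field_simp
    rw [e]
    apply mul_le_mul_of_nonneg_right hx3
    positivity
  linarith

/-- **exact patterns along almost primes in a sequence of forms** -/
theorem seqP (P : Set ℕ → Prop) (off : ℕ → ℕ)
    (hcomb : ∀ (m : Set ℕ → ℝ), FMeas m → m Set.univ ≤ 2 → ∀ (E : ℕ → Set ℕ),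
      (∀ t, (1 / 200 : ℝ) ≤ m {n | ∃ i ∈ Ico (off t) (off (t + 1)), n ∈ E i}) →
      ∃ I : Set ℕ, P I ∧ ∀ N : ℕ, 0 < m {n | ∀ i < N, (n ∈ E i ↔ i ∈ I)})
    (hmeas : ∀ (J : ℕ) (a b : ℕ → ℕ), GoodForms (off J) a b → ∀ (W r : ℕ), Squarefree W →
      r.Coprime W → (∀ i < off J, (a i * r + b i).Coprime W) →
      ∃ (R C : ℕ) (m : Set ℕ → ℝ), FMeas m ∧ m Set.univ ≤ 2 ∧
        (∀ t < J, 1 / 200 ≤ m {n | ∃ i ∈ Ico (off t) (off (t + 1)), (a i * n + b i).Prime}) ∧
        ∀ S, 0 < m S → Lg W r R C S)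
    (A B : ℕ → ℕ) (hA : ∀ i, 1 ≤ A i) (hB : ∀ i, 1 ≤ B i) (hcop : ∀ i, (A i).Coprime (B i))
    (hinj : Function.Injective (fun i => (A i, B i)))
    (hadm : ∀ p : ℕ, p.Prime → ∃ n : ℕ, ¬ p ∣ n ∧ ∀ i, ¬ p ∣ A i * n + B i) :
    ∃ I : Set ℕ, P I ∧ ∀ T : Finset (ℤ × ℤ), (∀ f ∈ T, 1 ≤ f.1 ∧ f.2 ≠ 0) →
      Many {n : ℕ | ∀ f ∈ T, (Nat.Prime (f.1 * n + f.2).toNat ↔ ∃ i ∈ I, f = ((A i : ℤ), (B i : ℤ)))} := by
  classical
  set f : ℕ → ℤ × ℤ := fun i => ((A i : ℤ), (B i : ℤ)) with hf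
  have hfinj : Function.Injective f := by
    intro i j hij
    have h1 := Prod.mk.inj hij
    apply hinj
    simp only
    rw [Prod.mk.injEq]
    exact ⟨by exact_mod_cast h1.1, by exact_mod_cast h1.2⟩
  have hne : ∀ i j, i ≠ j → A i * B j ≠ A j * B i := by
    intro i j hij heq
    refine hij (hfinj ?_)
    exact A6_prim (by exact_mod_cast hA i) (by exact_mod_cast hA j)
      (Nat.isCoprime_iff_coprime.2 (hcop i)) (Nat.isCoprime_iff_coprime.2 (hcop j))
      (by exact_mod_cast heq)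
  have hgood : ∀ J, GoodForms (off J) A B := fun J =>
    ⟨fun i _ => hA i, fun i _ => hB i, fun i _ j _ hij => hne i j hij, fun p hp => by
      obtain ⟨n, h1, h2⟩ := hadm p hp
      exact ⟨n, h1, fun i _ => h2 i⟩⟩
  set bad : ℕ → Finset (ℤ × ℤ) := fun J =>
    ((range J).image (fun e => Denumerable.ofNat (ℤ × ℤ) e)).filter
      (fun g => 1 ≤ g.1 ∧ g.2 ≠ 0 ∧ IsCoprime g.1 g.2 ∧ g ∉ Set.range f) with hbad
  choose W r Q hW hr hr' hQ using fun J : ℕ => cls A B hA hcop (off J) (bad J)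
    (by
      intro g hg
      obtain ⟨_, h1, h2, h3, h4⟩ := Finset.mem_filter.mp hg
      exact ⟨h1, h2, h3, fun i h => h4 ⟨i, h.symm⟩⟩)
  choose R C M hM hM2 hMc hMS using fun J : ℕ => hmeas J A B (hgood J) (W J) (r J) (hW J) (hr J) (hr' J)
  set U : Ultrafilter ℕ := Ultrafilter.of atTop with hU
  have hUle : (U : Filter ℕ) ≤ atTop := Ultrafilter.of_le _
  have hlim : ∀ S : Set ℕ, ∃ l : ℝ, Tendsto (fun J => M J S) U (𝓝 l) := by
    intro S
    have hc1 : IsCompact (Set.Icc (0 : ℝ) 2) := isCompact_Icc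
    have h1 : ((U.map (fun J => M J S) : Ultrafilter ℝ) : Filter ℝ) ≤ 𝓟 (Set.Icc (0 : ℝ) 2) := by
      rw [le_principal_iff, Ultrafilter.mem_coe, Ultrafilter.mem_map]
      apply Filter.univ_mem'
      intro J
      exact ⟨(hM J).nonneg S, (T3_mono (hM J) (Set.subset_univ S)).trans (hM2 J)⟩
    obtain ⟨l, _, hl⟩ := hc1.ultrafilter_le_nhds _ h1
    exact ⟨l, hl⟩
  choose m hm using hlim
  have hmF : FMeas m := by
    refine ⟨fun S => ?_, fun S T hST => ?_, fun S hS => ?_⟩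
    · exact ge_of_tendsto' (hm S) fun J => (hM J).nonneg S
    · have h1 := (hm S).add (hm T)
      have h2 := hm (S ∪ T)
      have h3 : (fun J => M J (S ∪ T)) = fun J => M J S + M J T := by
        ext J
        exact (hM J).add S T hST
      rw [h3] at h2
      exact tendsto_nhds_unique h2 h1
    · have h1 := hm S
      have h2 : (fun J => M J S) = fun _ => 0 := by
        ext J
        exact (hM J).fin S hS
      rw [h2] at h1
      exact tendsto_nhds_unique h1 tendsto_const_nhds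
  have hmuniv : m Set.univ ≤ 2 := le_of_tendsto' (hm Set.univ) hM2
  obtain ⟨I, hI, hIN⟩ := hcomb m hmF hmuniv (fun i => {n : ℕ | Nat.Prime (A i * n + B i)})
    (by
      intro t
      apply ge_of_tendsto (hm _)
      have h1 : ∀ᶠ J in (U : Filter ℕ), t < J := hUle (eventually_gt_atTop t)
      filter_upwards [h1] with J hJ
      exact hMc J t hJ)
  refine ⟨I, hI, fun T hT => ?_⟩
  obtain ⟨N1, hN1⟩ : ∃ N : ℕ, ∀ i, f i ∈ T → i < N := by
    have h1 : (f ⁻¹' (T : Set (ℤ × ℤ))).Finite := T.finite_toSet.preimage hfinj.injOn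
    obtain ⟨N, hN⟩ := h1.bddAbove
    exact ⟨N + 1, fun i hi => Nat.lt_succ_of_le (hN hi)⟩
  set N2 : ℕ := T.sup Encodable.encode + 1 with hN2
  have h2 : ∀ᶠ J in (U : Filter ℕ), 0 < M J {n | ∀ i < N1,
      (n ∈ {n : ℕ | Nat.Prime (A i * n + B i)} ↔ i ∈ I)} :=
    (hm _).eventually (lt_mem_nhds (hIN N1))
  have h3 : ∀ᶠ J in (U : Filter ℕ), N2 ≤ J := hUle (eventually_ge_atTop N2)
  obtain ⟨J, hJ1, hJ2⟩ := (h2.and h3).exists
  refine many_of_Lg (hMS J _ hJ1) (Q J + ∑ g ∈ T, (g.1.natAbs + g.2.natAbs)) ?_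
  intro n hn1 hn2 hn3 g hg
  by_cases hgf : g ∈ Set.range f
  · obtain ⟨i, rfl⟩ := hgf
    have h1 := hn1 i (hN1 i hg)
    have e : ((f i).1 * (n : ℤ) + (f i).2).toNat = A i * n + B i := by
      simp only [hf]
      have : ((A i : ℤ) * n + B i) = ((A i * n + B i : ℕ) : ℤ) := by push_cast; ring
      rw [this, Int.toNat_natCast]
    rw [e]
    constructor
    · intro hp
      exact ⟨i, h1.mp hp, rfl⟩
    · rintro ⟨j, hj, hij⟩
      have h2 : i = j := hfinj hij
      rw [← h2] at hj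
      exact h1.mpr hj
  · have hgG : ¬ ∃ i ∈ I, g = ((A i : ℤ), (B i : ℤ)) := by
      rintro ⟨i, _, h⟩
      exact hgf ⟨i, h.symm⟩
    refine iff_of_false ?_ hgG
    by_cases hgc : IsCoprime g.1 g.2
    · have hgb : g ∈ bad J := by
        refine Finset.mem_filter.mpr ⟨?_, (hT g hg).1, (hT g hg).2, hgc, hgf⟩
        refine Finset.mem_image.mpr ⟨Encodable.encode g, ?_, Denumerable.ofNat_encode g⟩
        rw [Finset.mem_range]
        have h1 : Encodable.encode g ≤ T.sup Encodable.encode :=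
          Finset.le_sup (f := Encodable.encode) hg
        omega
      exact hQ J g hgb n hn2 (by omega)
    · intro hprime
      have h1 : g.1.natAbs + g.2.natAbs ≤ ∑ g ∈ T, (g.1.natAbs + g.2.natAbs) :=
        Finset.single_le_sum (f := fun g : ℤ × ℤ => g.1.natAbs + g.2.natAbs)
          (fun _ _ => Nat.zero_le _) hg
      have h3 := (hT g hg).1
      have h4 : (n : ℤ) ≤ g.1 * n := by nlinarith [Int.natCast_nonneg n]
      have h5 : (g.1.natAbs : ℤ) < g.1 * n + g.2 := by omega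
      have h6 : ((g.1 * n + g.2).toNat : ℤ) = g.1 * n + g.2 :=
        Int.toNat_of_nonneg (by omega)
      set d : ℕ := Int.gcd g.1 g.2 with hd
      have hd1 : (d : ℤ) ∣ g.1 := Int.gcd_dvd_left ..
      have hd2 : (d : ℤ) ∣ g.2 := Int.gcd_dvd_right ..
      have hdne : d ≠ 1 := fun h => hgc (Int.isCoprime_iff_gcd_eq_one.mpr h)
      have h7 : d ∣ (g.1 * n + g.2).toNat := by
        have h8 : (d : ℤ) ∣ ((g.1 * n + g.2).toNat : ℤ) := by
          rw [h6]
          exact (hd1.mul_right _).add hd2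
        exact Int.natCast_dvd_natCast.mp h8
      have h9 := (Nat.dvd_prime hprime).mp h7
      have h10 : (d : ℤ) ≤ g.1 := Int.le_of_dvd (by omega) hd1
      rcases h9 with h9 | h9
      · exact hdne h9
      · omega

end Pool.Agent.J6H52.AP
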