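import Mathlib
import Pool.Agent.H361R2.InfB2
import Pool.Agent.H361R2.InfQ
import Pool.Agent.J6H52.AP.Seq
import Pool.Agent.J6H52.AP.Scales

/-! Exact patterns along almost primes in admissible sequences of linear forms: dense patterns, a positive proportion
of the scales. -/

set_option autoImplicit false

namespace Pool.Agent.J6H52.AP

open Finset Filter Topology
open Pool.Agent.H361R2.Inf

/-- many almost primes up to `y k` belong to `S`, for a positive proportion of the `k` -/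
def ManyS (y : ℕ → ℕ) (S : Set ℕ) : Prop :=
  ∃ r C : ℕ, PUD fun k => ((y k : ℕ) : ℝ) / (Real.log (y k)) ^ C ≤ (cnt r S (y k) : ℝ)

theorem ManyS.mono {y : ℕ → ℕ} {S S' : Set ℕ} (h : ManyS y S) (hS : S ⊆ S') : ManyS y S' := by
  classical
  obtain ⟨r, C, h⟩ := h
  refine ⟨r, C, h.mono' 0 fun k _ hk => hk.trans ?_⟩
  unfold cnt
  exact_mod_cast card_le_card (fun n hn => by
    rw [mem_filter] at hn ⊢
    exact ⟨hn.1, hn.2.1, hn.2.2.1, hS hn.2.2.2⟩)

/-- elements up to `Q` do not matter -/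
theorem manyS_of_LgS {y : ℕ → ℕ} (hy : StrictMono y) {W r R C : ℕ} {S S' : Set ℕ} (h : LgS y W r R C S) (Q : ℕ)
    (hS : ∀ n ∈ S, n ≡ r [MOD W] → Q < n → n ∈ S') : ManyS y S' := by
  classical
  refine ⟨R, C + 1, ?_⟩
  have h1 : ∀ᶠ k : ℕ in atTop, (Q : ℝ) ≤ ((y k : ℕ) : ℝ) / (Real.log (y k)) ^ (C + 1) :=
    ((xlog_tendsto (C + 1)).comp hy.tendsto_atTop).eventually_ge_atTop (Q : ℝ)
  have h2 : ∀ᶠ k : ℕ in atTop, 2 ≤ Real.log (y k) :=
    (Real.tendsto_log_atTop.comp (tendsto_natCast_atTop_atTop.comp hy.tendsto_atTop)).eventually_ge_atTop _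
  obtain ⟨k₀, hk₀⟩ := Filter.eventually_atTop.1 (h1.and h2)
  refine h.mono' k₀ fun k hk hx1 => ?_
  obtain ⟨hx2, hx3⟩ := hk₀ k hk
  generalize y k = x at hx1 hx2 hx3 ⊢
  set T := (Icc 1 x).filter (fun n => n ∈ S ∧ n ≡ r [MOD W] ∧ ∀ q : ℕ, q.Prime → q ∣ n → x < q ^ R)
    with hT
  have hx0 : 1 ≤ x := by
    by_contra hcon
    have : x = 0 := by omega
    rw [this] at hx3
    simp at hx3
    linarith
  have h3 : T.card ≤ Q + cnt R S' x := by
    have h4 : T ⊆ Icc 1 Q ∪ (Icc 1 x).filter (fun n : ℕ => n.primeFactorsList.length ≤ R ∧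
        (∀ q : ℕ, q.Prime → q ∣ n → x < q ^ R) ∧ n ∈ S') := by
      intro n hn
      rw [hT, mem_filter, mem_Icc] at hn
      obtain ⟨⟨a1, a2⟩, a3, a4, a5⟩ := hn
      rw [mem_union, mem_Icc, mem_filter, mem_Icc]
      by_cases hQ : n ≤ Q
      · exact Or.inl ⟨a1, hQ⟩
      · exact Or.inr ⟨⟨a1, a2⟩, few_factors hx0 a1 a2 a5, a5, hS n a3 a4 (by omega)⟩
    refine (card_le_card h4).trans ((card_union_le _ _).trans ?_)
    rw [Nat.card_Icc, Nat.add_sub_cancel]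
    exact le_rfl
  have hL0 : 0 < Real.log x := by linarith
  have h5 : (x : ℝ) / (Real.log x) ^ C ≤ Q + cnt R S' x := by
    refine hx1.trans ?_
    have h6 : (T.card : ℝ) ≤ Q + cnt R S' x := by exact_mod_cast h3
    unfold cl
    convert h6 using 3
  have h6 : 2 * ((x : ℝ) / (Real.log x) ^ (C + 1)) ≤ (x : ℝ) / (Real.log x) ^ C := by
    have e : (x : ℝ) / (Real.log x) ^ C = Real.log x * ((x : ℝ) / (Real.log x) ^ (C + 1)) := by
      rw [pow_succ]
      field_simp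
    rw [e]
    apply mul_le_mul_of_nonneg_right hx3
    positivity
  linarith

/-- **exact patterns along almost primes in a sequence of forms, for a positive proportion of the scales** -/
theorem seqS (y : ℕ → ℕ) (hy : StrictMono y) (P : Set ℕ → Prop) (off : ℕ → ℕ)
    (hcomb : ∀ (m : Set ℕ → ℝ), FMeas m → m Set.univ ≤ 2 → ∀ (E : ℕ → Set ℕ),
      (∀ t, (1 / 200 : ℝ) ≤ m {n | ∃ i ∈ Ico (off t) (off (t + 1)), n ∈ E i}) →
      ∃ I : Set ℕ, P I ∧ ∀ N : ℕ, 0 < m {n | ∀ i < N, (n ∈ E i ↔ i ∈ I)})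
    (hmeas : ∀ (J : ℕ) (a b : ℕ → ℕ), GoodForms (off J) a b → ∀ (W r : ℕ), Squarefree W →
      r.Coprime W → (∀ i < off J, (a i * r + b i).Coprime W) →
      ∃ (R C : ℕ) (m : Set ℕ → ℝ), FMeas m ∧ m Set.univ ≤ 2 ∧
        (∀ t < J, 1 / 200 ≤ m {n | ∃ i ∈ Ico (off t) (off (t + 1)), (a i * n + b i).Prime}) ∧
        ∀ S, 0 < m S → LgS y W r R C S)
    (A B : ℕ → ℕ) (hA : ∀ i, 1 ≤ A i) (hB : ∀ i, 1 ≤ B i) (hcop : ∀ i, (A i).Coprime (B i))
    (hinj : Function.Injective (fun i => (A i, B i)))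
    (hadm : ∀ p : ℕ, p.Prime → ∃ n : ℕ, ¬ p ∣ n ∧ ∀ i, ¬ p ∣ A i * n + B i) :
    ∃ I : Set ℕ, P I ∧ ∀ T : Finset (ℤ × ℤ), (∀ f ∈ T, 1 ≤ f.1 ∧ f.2 ≠ 0) →
      ManyS y {n : ℕ | ∀ f ∈ T, (Nat.Prime (f.1 * n + f.2).toNat ↔ ∃ i ∈ I, f = ((A i : ℤ), (B i : ℤ)))} := by
  classical
  set f : ℕ → ℤ × ℤ := fun i => ((A i : ℤ), (B i : ℤ)) with hf
  have hfinj : Function.Injective f := by
    intro i j hij
    have h1 := Prod.mk.inj hij
    apply hinj
    simp only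
    rw [Prod.mk.injEq]
    exact ⟨by exact_mod_cast h1.1, by exact_mod_cast h1.2⟩
  have hne : ∀ i j, i ≠ j → A i * B j ≠ A j * B i := by
    intro i j hij heq
    refine hij (hfinj ?_)
    exact A6_prim (by exact_mod_cast hA i) (by exact_mod_cast hA j)
      (Nat.isCoprime_iff_coprime.2 (hcop i)) (Nat.isCoprime_iff_coprime.2 (hcop j))
      (by exact_mod_cast heq)
  have hgood : ∀ J, GoodForms (off J) A B := fun J =>
    ⟨fun i _ => hA i, fun i _ => hB i, fun i _ j _ hij => hne i j hij, fun p hp => by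
      obtain ⟨n, h1, h2⟩ := hadm p hp
      exact ⟨n, h1, fun i _ => h2 i⟩⟩
  set bad : ℕ → Finset (ℤ × ℤ) := fun J =>
    ((range J).image (fun e => Denumerable.ofNat (ℤ × ℤ) e)).filter
      (fun g => 1 ≤ g.1 ∧ g.2 ≠ 0 ∧ IsCoprime g.1 g.2 ∧ g ∉ Set.range f) with hbad
  choose W r Q hW hr hr' hQ using fun J : ℕ => cls A B hA hcop (off J) (bad J)
    (by
      intro g hg
      obtain ⟨_, h1, h2, h3, h4⟩ := Finset.mem_filter.mp hg
      exact ⟨h1, h2, h3, fun i h => h4 ⟨i, h.symm⟩⟩)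
  choose R C M hM hM2 hMc hMS using fun J : ℕ => hmeas J A B (hgood J) (W J) (r J) (hW J) (hr J) (hr' J)
  set U : Ultrafilter ℕ := Ultrafilter.of atTop with hU
  have hUle : (U : Filter ℕ) ≤ atTop := Ultrafilter.of_le _
  have hlim : ∀ S : Set ℕ, ∃ l : ℝ, Tendsto (fun J => M J S) U (𝓝 l) := by
    intro S
    have hc1 : IsCompact (Set.Icc (0 : ℝ) 2) := isCompact_Icc
    have h1 : ((U.map (fun J => M J S) : Ultrafilter ℝ) : Filter ℝ) ≤ 𝓟 (Set.Icc (0 : ℝ) 2) := by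
      rw [le_principal_iff, Ultrafilter.mem_coe, Ultrafilter.mem_map]
      apply Filter.univ_mem'
      intro J
      exact ⟨(hM J).nonneg S, (T3_mono (hM J) (Set.subset_univ S)).trans (hM2 J)⟩
    obtain ⟨l, _, hl⟩ := hc1.ultrafilter_le_nhds _ h1
    exact ⟨l, hl⟩
  choose m hm using hlim
  have hmF : FMeas m := by
    refine ⟨fun S => ?_, fun S T hST => ?_, fun S hS => ?_⟩
    · exact ge_of_tendsto' (hm S) fun J => (hM J).nonneg S
    · have h1 := (hm S).add (hm T)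
      have h2 := hm (S ∪ T)
      have h3 : (fun J => M J (S ∪ T)) = fun J => M J S + M J T := by
        ext J
        exact (hM J).add S T hST
      rw [h3] at h2
      exact tendsto_nhds_unique h2 h1
    · have h1 := hm S
      have h2 : (fun J => M J S) = fun _ => 0 := by
        ext J
        exact (hM J).fin S hS
      rw [h2] at h1
      exact tendsto_nhds_unique h1 tendsto_const_nhds
  have hmuniv : m Set.univ ≤ 2 := le_of_tendsto' (hm Set.univ) hM2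
  obtain ⟨I, hI, hIN⟩ := hcomb m hmF hmuniv (fun i => {n : ℕ | Nat.Prime (A i * n + B i)})
    (by
      intro t
      apply ge_of_tendsto (hm _)
      have h1 : ∀ᶠ J in (U : Filter ℕ), t < J := hUle (eventually_gt_atTop t)
      filter_upwards [h1] with J hJ
      exact hMc J t hJ)
  refine ⟨I, hI, fun T hT => ?_⟩
  obtain ⟨N1, hN1⟩ : ∃ N : ℕ, ∀ i, f i ∈ T → i < N := by
    have h1 : (f ⁻¹' (T : Set (ℤ × ℤ))).Finite := T.finite_toSet.preimage hfinj.injOn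
    obtain ⟨N, hN⟩ := h1.bddAbove
    exact ⟨N + 1, fun i hi => Nat.lt_succ_of_le (hN hi)⟩
  set N2 : ℕ := T.sup Encodable.encode + 1 with hN2
  have h2 : ∀ᶠ J in (U : Filter ℕ), 0 < M J {n | ∀ i < N1,
      (n ∈ {n : ℕ | Nat.Prime (A i * n + B i)} ↔ i ∈ I)} :=
    (hm _).eventually (lt_mem_nhds (hIN N1))
  have h3 : ∀ᶠ J in (U : Filter ℕ), N2 ≤ J := hUle (eventually_ge_atTop N2)
  obtain ⟨J, hJ1, hJ2⟩ := (h2.and h3).exists
  refine manyS_of_LgS hy (hMS J _ hJ1) (Q J + ∑ g ∈ T, (g.1.natAbs + g.2.natAbs)) ?_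
  intro n hn1 hn2 hn3 g hg
  by_cases hgf : g ∈ Set.range f
  · obtain ⟨i, rfl⟩ := hgf
    have h1 := hn1 i (hN1 i hg)
    have e : ((f i).1 * (n : ℤ) + (f i).2).toNat = A i * n + B i := by
      simp only [hf]
      have : ((A i : ℤ) * n + B i) = ((A i * n + B i : ℕ) : ℤ) := by push_cast; ring
      rw [this, Int.toNat_natCast]
    rw [e]
    constructor
    · intro hp
      exact ⟨i, h1.mp hp, rfl⟩
    · rintro ⟨j, hj, hij⟩
      have h2 : i = j := hfinj hij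
      rw [← h2] at hj
      exact h1.mpr hj
  · have hgG : ¬ ∃ i ∈ I, g = ((A i : ℤ), (B i : ℤ)) := by
      rintro ⟨i, _, h⟩
      exact hgf ⟨i, h.symm⟩
    refine iff_of_false ?_ hgG
    by_cases hgc : IsCoprime g.1 g.2
    · have hgb : g ∈ bad J := by
        refine Finset.mem_filter.mpr ⟨?_, (hT g hg).1, (hT g hg).2, hgc, hgf⟩
        refine Finset.mem_image.mpr ⟨Encodable.encode g, ?_, Denumerable.ofNat_encode g⟩
        rw [Finset.mem_range]
        have h1 : Encodable.encode g ≤ T.sup Encodable.encode :=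
          Finset.le_sup (f := Encodable.encode) hg
        omega
      exact hQ J g hgb n hn2 (by omega)
    · intro hprime
      have h1 : g.1.natAbs + g.2.natAbs ≤ ∑ g ∈ T, (g.1.natAbs + g.2.natAbs) :=
        Finset.single_le_sum (f := fun g : ℤ × ℤ => g.1.natAbs + g.2.natAbs)
          (fun _ _ => Nat.zero_le _) hg
      have h3 := (hT g hg).1
      have h4 : (n : ℤ) ≤ g.1 * n := by nlinarith [Int.natCast_nonneg n]
      have h5 : (g.1.natAbs : ℤ) < g.1 * n + g.2 := by omega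
      have h6 : ((g.1 * n + g.2).toNat : ℤ) = g.1 * n + g.2 :=
        Int.toNat_of_nonneg (by omega)
      set d : ℕ := Int.gcd g.1 g.2 with hd
      have hd1 : (d : ℤ) ∣ g.1 := Int.gcd_dvd_left ..
      have hd2 : (d : ℤ) ∣ g.2 := Int.gcd_dvd_right ..
      have hdne : d ≠ 1 := fun h => hgc (Int.isCoprime_iff_gcd_eq_one.mpr h)
      have h7 : d ∣ (g.1 * n + g.2).toNat := by
        have h8 : (d : ℤ) ∣ ((g.1 * n + g.2).toNat : ℤ) := by
          rw [h6]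
          exact (hd1.mul_right _).add hd2
        exact Int.natCast_dvd_natCast.mp h8
      have h9 := (Nat.dvd_prime hprime).mp h7
      have h10 : (d : ℤ) ≤ g.1 := Int.le_of_dvd (by omega) hd1
      rcases h9 with h9 | h9
      · exact hdne h9
      · omega

/-- at least `(log X) ^ θ` elements below `X` for arbitrarily large `X` -/
def LDense (θ : ℝ) (I : Set ℕ) : Prop :=
  ∃ᶠ X : ℕ in atTop, (Real.log X) ^ θ ≤ ((I ∩ Set.Iio X).ncard : ℝ)

theorem LDense.mono {θ θ' : ℝ} (h : θ ≤ θ') {I : Set ℕ} (hI : LDense θ' I) :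
    LDense θ I := by
  unfold LDense at *
  refine (hI.and_eventually (eventually_ge_atTop 3)).mono ?_
  rintro X ⟨h1, h2⟩
  refine le_trans ?_ h1
  apply Real.rpow_le_rpow_of_exponent_le _ h
  have h3 : (3 : ℝ) ≤ X := by exact_mod_cast h2
  have h4 : (0 : ℝ) < X := by linarith
  rw [Real.le_log_iff_exp_le h4]
  linarith [Real.exp_one_lt_d9]

theorem dense' (y : ℕ → ℕ) (hy : StrictMono y) (A B : ℕ → ℕ) (hA : ∀ i, 1 ≤ A i) (hB : ∀ i, 1 ≤ B i)
    (hinj : Function.Injective (fun i => (A i, B i)))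
    (hadm : ∀ p : ℕ, p.Prime → ∃ n : ℕ, ¬ p ∣ n ∧ ∀ i, ¬ p ∣ A i * n + B i) (θ : ℝ)
    (hθ0 : 1 / 2 ≤ θ) (hθ : θ < 1) :
    ∃ I : Set ℕ, LDense θ I ∧ ∀ T : Finset (ℤ × ℤ), (∀ f ∈ T, 1 ≤ f.1 ∧ f.2 ≠ 0) →
      ManyS y {n : ℕ | ∀ f ∈ T, (Nat.Prime (f.1 * n + f.2).toNat ↔ ∃ i ∈ I, f = ((A i : ℤ), (B i : ℤ)))} := by
  classical
  have hcop : ∀ i, (A i).Coprime (B i) := by
    intro i
    by_contra hcon
    obtain ⟨p, hp, hpd⟩ := Nat.exists_prime_and_dvd hcon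
    obtain ⟨n, -, hn⟩ := hadm p hp
    apply hn i
    exact dvd_add ((hpd.trans (Nat.gcd_dvd_left _ _)).mul_right _) (hpd.trans (Nat.gcd_dvd_right _ _))
  obtain ⟨off, Q, hoff, h0, hQ, hQ1, hQ2, C, hC, hgr⟩ :=
    exists_blocks_growth ((1 - θ) / 2) (by linarith)
  exact seqS y hy (LDense θ) off
    (fun m hm hm2 E hE => by
      obtain ⟨I, hI1, hI2⟩ := comb_density m hm hm2 off hoff h0 E (1 / 200) (by norm_num) hE
      refine ⟨I, ?_, hI2⟩
      exact count_of_blocks off hoff C ((1 - θ) / 2) (1 / 200 / 8) θ hC (by norm_num) (by linarith)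
        (by nlinarith) hgr I hI1)
    (fun J a b hG W r hW hr hr' => measS y hy off Q hoff hQ hQ1 hQ2 J a b hG W r hW hr hr')
    A B hA hB hcop hinj hadm

/-- **dense exact patterns along almost primes** -/
theorem dense (y : ℕ → ℕ) (hy : StrictMono y) (A B : ℕ → ℕ) (hA : ∀ i, 1 ≤ A i) (hB : ∀ i, 1 ≤ B i)
    (hinj : Function.Injective (fun i => (A i, B i)))
    (hadm : ∀ p : ℕ, p.Prime → ∃ n : ℕ, ¬ p ∣ n ∧ ∀ i, ¬ p ∣ A i * n + B i) (ε : ℝ) (hε : 0 < ε) :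
    ∃ I : Set ℕ, LDense (1 - ε) I ∧ ∀ T : Finset (ℤ × ℤ), (∀ f ∈ T, 1 ≤ f.1 ∧ f.2 ≠ 0) →
      ManyS y {n : ℕ | ∀ f ∈ T, (Nat.Prime (f.1 * n + f.2).toNat ↔ ∃ i ∈ I, f = ((A i : ℤ), (B i : ℤ)))} := by
  obtain ⟨I, h1, h2⟩ := dense' y hy A B hA hB hinj hadm (max (1 - ε) (1 / 2))
    (le_max_right _ _) (max_lt (by linarith) (by norm_num))
  exact ⟨I, h1.mono (le_max_left _ _), h2⟩

end Pool.Agent.J6H52.AP
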