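import Mathlib
import Pool.Agent.H361R2.InfT4
import Pool.Agent.J6H52.Branch.Rank
import Pool.Agent.J6H52.AP.Seq

/-! Exact patterns along almost primes: infinite sets and trees of linear forms. -/

set_option autoImplicit false

namespace Pool.Agent.J6H52.AP

open Finset Filter Topology
open Pool.Agent.H361R2.Inf
open Pool.Agent.J6H52.Branch
open scoped Nat

/-- the forms considered: `a n + b` with `a, b ≥ 1` coprime and `a + b` odd, as pairs `(a, b)` -/
def Fm (f : ℤ × ℤ) : Prop := 1 ≤ f.1 ∧ 1 ≤ f.2 ∧ IsCoprime f.1 f.2 ∧ Odd (f.1 + f.2)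

/-- a residue class without zeros of the forms and without zero -/
theorem avoid' (A B : ℕ → ℕ) (hcop : ∀ i, (A i).Coprime (B i)) (hodd : ∀ i, Odd (A i + B i))
    (hA : ∀ j i, j ≤ i → A i ≡ A j [MOD (j + 3)!])
    (hB : ∀ j i, j ≤ i → B i ≡ B j [MOD (j + 3)!]) (p : ℕ) (hp : p.Prime) :
    ∃ n : ℕ, ¬ p ∣ n ∧ ∀ i, ¬ p ∣ A i * n + B i := by
  classical
  rcases hp.eq_two_or_odd' with rfl | hpo
  · refine ⟨1, by norm_num, fun i h => ?_⟩
    rw [mul_one] at h
    exact (Nat.not_even_iff_odd.2 (hodd i)) (even_iff_two_dvd.2 h)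
  have hp3 : 3 ≤ p := by
    have := hp.two_le
    rcases hpo with ⟨m, hm⟩
    omega
  set bad := (range (p - 2)).biUnion (fun i => (range p).filter (fun n : ℕ => p ∣ A i * n + B i))
    with hbad
  have hcard : (insert 0 bad).card < p := by
    have h1 : bad.card ≤ p - 2 := by
      calc bad.card ≤ ∑ i ∈ range (p - 2), ((range p).filter (fun n : ℕ => p ∣ A i * n + B i)).card :=
            card_biUnion_le
        _ ≤ ∑ i ∈ range (p - 2), 1 := by
            apply sum_le_sum
            intro i _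
            rw [card_le_one]
            intro m hm n hn
            rw [mem_filter, mem_range] at hm hn
            have hpA : ¬ p ∣ A i := by
              intro h
              have h2 : p ∣ B i := (Nat.dvd_add_right (h.mul_right m)).1 hm.2
              have h3 := Nat.dvd_gcd h h2
              rw [hcop i] at h3
              exact hp.one_lt.ne' (Nat.dvd_one.1 h3)
            have h5 : A i * m + B i ≡ A i * n + B i [MOD p] :=
              ((Nat.modEq_zero_iff_dvd.2 hm.2).trans (Nat.modEq_zero_iff_dvd.2 hn.2).symm)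
            have h6 : A i * m ≡ A i * n [MOD p] := Nat.ModEq.add_right_cancel' _ h5
            have h7 : m ≡ n [MOD p] :=
              Nat.ModEq.cancel_left_of_coprime ((Nat.Prime.coprime_iff_not_dvd hp).2 hpA) h6
            exact Nat.ModEq.eq_of_lt_of_lt h7 hm.1 hn.1
        _ = p - 2 := by simp
    have h2 := card_insert_le 0 bad
    omega
  obtain ⟨n, hn, hnb⟩ : ∃ n ∈ range p, n ∉ insert 0 bad := by
    by_contra hcon
    push Not at hcon
    have := card_le_card (show range p ⊆ insert 0 bad from hcon)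
    rw [card_range] at this
    omega
  rw [mem_insert, not_or] at hnb
  rw [mem_range] at hn
  refine ⟨n, fun h => ?_, fun i hi => ?_⟩
  · have := Nat.le_of_dvd (by omega) h
    omega
  by_cases h : i < p - 2
  · apply hnb.2
    rw [hbad, mem_biUnion]
    exact ⟨i, mem_range.mpr h, mem_filter.mpr ⟨mem_range.2 hn, hi⟩⟩
  · apply hnb.2
    have hj : p - 3 ≤ i := by omega
    rw [hbad, mem_biUnion]
    refine ⟨p - 3, mem_range.mpr (by omega), mem_filter.mpr ⟨mem_range.2 hn, ?_⟩⟩
    have hpd : p ∣ (p - 3 + 3)! := (hp.dvd_factorial).mpr (by omega)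
    have h1 : A i ≡ A (p - 3) [MOD p] := (hA (p - 3) i hj).of_dvd hpd
    have h2 : B i ≡ B (p - 3) [MOD p] := (hB (p - 3) i hj).of_dvd hpd
    have h3 : A i * n + B i ≡ A (p - 3) * n + B (p - 3) [MOD p] := (h1.mul_right _).add h2
    exact (Nat.ModEq.dvd_iff h3 dvd_rfl).1 hi

/-- **infinite sets of forms** -/
theorem inf_forms (F : Set (ℤ × ℤ)) (hF : F.Infinite) (hF1 : ∀ f ∈ F, Fm f) :
    ∃ G ⊆ F, G.Infinite ∧ ∀ T : Finset (ℤ × ℤ), (∀ f ∈ T, 1 ≤ f.1 ∧ f.2 ≠ 0) →
      Many {n : ℕ | ∀ f ∈ T, (Nat.Prime (f.1 * n + f.2).toNat ↔ f ∈ G)} := by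
  classical
  have hne0 : ∀ j : ℕ, NeZero (j + 3)! := fun j => ⟨Nat.factorial_ne_zero _⟩
  obtain ⟨f, hinj, hfF, hcol⟩ := exists_seq (fun j => ZMod (j + 3)! × ZMod (j + 3)!)
    (fun j (x : ℤ × ℤ) => ((x.1.toNat : ZMod (j + 3)!), (x.2.toNat : ZMod (j + 3)!))) F hF
  set A : ℕ → ℕ := fun i => (f i).1.toNat with hAdef
  set B : ℕ → ℕ := fun i => (f i).2.toNat with hBdef
  have hAz : ∀ i, ((A i : ℕ) : ℤ) = (f i).1 := fun i =>
    Int.toNat_of_nonneg (by have := (hF1 _ (hfF i)).1; omega)
  have hBz : ∀ i, ((B i : ℕ) : ℤ) = (f i).2 := fun i =>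
    Int.toNat_of_nonneg (by have := (hF1 _ (hfF i)).2.1; omega)
  have hfAB : ∀ i, f i = ((A i : ℤ), (B i : ℤ)) := fun i => by rw [hAz, hBz]
  have hA1 : ∀ i, 1 ≤ A i := fun i => by
    have := (hF1 _ (hfF i)).1
    rw [← hAz] at this
    exact_mod_cast this
  have hB1 : ∀ i, 1 ≤ B i := fun i => by
    have := (hF1 _ (hfF i)).2.1
    rw [← hBz] at this
    exact_mod_cast this
  have hcop' : ∀ i, (A i).Coprime (B i) := fun i => by
    have := (hF1 _ (hfF i)).2.2.1
    rw [← hAz, ← hBz] at this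
    exact Nat.isCoprime_iff_coprime.1 this
  have hodd : ∀ i, Odd (A i + B i) := fun i => by
    have := (hF1 _ (hfF i)).2.2.2
    rw [← hAz, ← hBz] at this
    exact_mod_cast this
  have hAc : ∀ j i, j ≤ i → A i ≡ A j [MOD (j + 3)!] := by
    intro j i hji
    have := congrArg Prod.fst (hcol j i hji)
    exact (ZMod.natCast_eq_natCast_iff _ _ _).mp this
  have hBc : ∀ j i, j ≤ i → B i ≡ B j [MOD (j + 3)!] := by
    intro j i hji
    have := congrArg Prod.snd (hcol j i hji)
    exact (ZMod.natCast_eq_natCast_iff _ _ _).mp this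
  have hinj' : Function.Injective (fun i => (A i, B i)) := by
    intro i j hij
    apply hinj
    rw [hfAB, hfAB]
    have h1 := Prod.mk.inj hij
    rw [h1.1, h1.2]
  obtain ⟨off, Q, hoff, h0, hQ, hQ1, hQ2⟩ := exists_blocks
  obtain ⟨I, hI, hIT⟩ := seqP Set.Infinite off
    (fun m hm _ E hE => comb m hm off hoff h0 E (1 / 200) (by norm_num) hE)
    (fun J a b hG W r hW hr hr' => meas off Q hoff hQ hQ1 hQ2 J a b hG W r hW hr hr')
    A B hA1 hB1 hcop' hinj' (fun p hp => avoid' A B hcop' hodd hAc hBc p hp)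
  refine ⟨f '' I, ?_, hI.image hinj.injOn, fun T hT => (hIT T hT).mono ?_⟩
  · rintro _ ⟨i, _, rfl⟩
    exact hfF i
  · intro n hn g hg
    rw [hn g hg]
    constructor
    · rintro ⟨i, hi, rfl⟩
      exact ⟨i, hi, hfAB i⟩
    · rintro ⟨i, hi, rfl⟩
      exact ⟨i, hi, hfAB i⟩

/-- for many almost primes the forms of `F` and no other forms of a given finite set are simultaneously prime -/
def GA (F : Finset (ℤ × ℤ)) : Prop :=
  ∀ T : Finset (ℤ × ℤ), (∀ f ∈ T, 1 ≤ f.1 ∧ f.2 ≠ 0) →
    Many {x : ℕ | (∀ f ∈ F, Nat.Prime (f.1 * x + f.2).toNat) ∧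
      ∀ f ∈ T, Nat.Prime (f.1 * x + f.2).toNat → f ∈ F}

variable {k : ℕ} {U : List (Fin k) → Ultrafilter (List (Fin k))}

/-- the empty pattern has no rank -/
theorem rootA (hcoh : ∀ t s, s ∈ U t → {y | s ∈ U y} ∈ U t)
    (hext : ∀ t, {y | t <+: y ∧ t ≠ y} ∈ U t)
    (P : List (Fin k) → Fin 1 → ℤ × ℤ) (hP : ∀ t a, Fm (P t a))
    (hne : ∀ t f, {y | P y 0 ≠ f} ∈ U t) : ∀ α, ¬ Bad U P GA univ α ∅ [] := by
  classical
  intro α hα
  choose sa sX hsX hs using fun (F : Finset (ℤ × ℤ)) (t : List (Fin k)) =>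
    strat (U := U) (P := P) (G := GA) (le_refl 1) univ F t
  have hT : ∀ F : Finset (ℤ × ℤ), ∃ T : Finset (ℤ × ℤ), ¬ GA F → (∀ f ∈ T, 1 ≤ f.1 ∧ f.2 ≠ 0) ∧
      ¬ Many {x : ℕ | (∀ f ∈ F, Nat.Prime (f.1 * x + f.2).toNat) ∧
        ∀ f ∈ T, Nat.Prime (f.1 * x + f.2).toNat → f ∈ F} := by
    intro F
    by_cases h : GA F
    · exact ⟨∅, fun h' => absurd h h'⟩
    · unfold GA at h
      push Not at h
      obtain ⟨T, h1, h2⟩ := h
      exact ⟨T, fun _ => ⟨h1, h2⟩⟩
  choose wT hwT using hT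
  have hneF : ∀ (t : List (Fin k)) (T : Finset (ℤ × ℤ)), {y | P y 0 ∉ T} ∈ U t := by
    intro t T
    have h1 : ∀ᶠ y in (U t : Filter (List (Fin k))), ∀ f ∈ T, P y 0 ≠ f := by
      rw [Filter.eventually_all_finset]
      intro f _
      exact hne t f
    filter_upwards [h1] with y hy h
    exact hy _ h rfl
  obtain ⟨y, hy0, hy, hyΦ⟩ := chain hcoh hext (fun Q t => {y |
      (∀ F ∈ (Q.image (fun q => P q 0)).powerset, y ∈ sX F t ∧ P y 0 ∉ wT F) ∧
      P y 0 ∉ Q.image (fun q => P q 0)}) (by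
    intro Q t
    refine Filter.inter_mem ?_ (hneF t _)
    change ∀ᶠ y in (U t : Filter (List (Fin k))), ∀ F ∈ (Q.image (fun q => P q 0)).powerset,
      y ∈ sX F t ∧ P y 0 ∉ wT F
    rw [Filter.eventually_all_finset]
    intro F _
    exact Filter.inter_mem (hsX F t) (hneF t _)) []
  set f : ℕ → ℤ × ℤ := fun i => P (y (i + 1)) 0 with hf
  have hfne : ∀ i i', i < i' → f i ≠ f i' := by
    intro i i' h h1
    refine (hyΦ i' i' le_rfl).2 ?_
    change f i' ∈ _
    rw [← h1]
    rw [mem_image]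
    exact ⟨y (i + 1), mem_image_of_mem _ (mem_range.2 (by omega)), rfl⟩
  have hfinj : Function.Injective f := by
    intro i i' h
    rcases lt_trichotomy i i' with h1 | h1 | h1
    · exact absurd h (hfne _ _ h1)
    · exact h1
    · exact absurd h.symm (hfne _ _ h1)
  obtain ⟨G, hGf, hGinf, hG⟩ := inf_forms (Set.range f)
    (Set.infinite_range_of_injective hfinj) (by
      rintro _ ⟨i, rfl⟩
      exact hP _ _)
  have hIinf : ∀ N, ∃ i, N ≤ i ∧ f i ∈ G := by
    intro N
    by_contra hcon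
    push Not at hcon
    refine hGinf (((range N).image f).finite_toSet.subset ?_)
    intro g hg
    obtain ⟨i, rfl⟩ := hGf hg
    have : i < N := by
      by_contra h
      exact hcon i (by omega) hg
    exact mem_coe.2 (mem_image_of_mem _ (mem_range.2 this))
  -- descent
  have key : ∀ ρ : Ordinal.{0}, ∀ (N : ℕ) (F : Finset (ℤ × ℤ)), Bad U P GA univ ρ F (y N) →
      (∀ g, g ∈ F ↔ ∃ i < N, f i ∈ G ∧ g = f i) → False := by
    intro ρ
    induction ρ using WellFoundedLT.induction with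
    | ind ρ ih =>
      intro N F hB hF
      by_cases hmin : ∃ ρ' < ρ, Bad U P GA univ ρ' F (y N)
      · obtain ⟨ρ', h1, h2⟩ := hmin
        exact ih ρ' h1 N F h2 hF
      · push Not at hmin
        have hFQ : F ∈ (((range (N + 1)).image y).image (fun q => P q 0)).powerset := by
          rw [mem_powerset]
          intro g hg
          obtain ⟨i, hi, _, rfl⟩ := (hF g).1 hg
          rw [mem_image]
          exact ⟨y (i + 1), mem_image_of_mem _ (mem_range.2 (by omega)), rfl⟩
        have hGA : GA F := by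
          by_contra hcon
          obtain ⟨h1, h2⟩ := hwT F hcon
          refine h2 ((hG (F ∪ wT F) ?_).mono ?_)
          · intro g hg
            rcases mem_union.1 hg with h | h
            · obtain ⟨i, _, _, rfl⟩ := (hF g).1 h
              have h3 := hP (y (i + 1)) 0
              exact ⟨h3.1, by have := h3.2.1; simp only [hf]; omega⟩
            · exact h1 g h
          · intro x hx
            refine ⟨fun g hg => ?_, fun g hg hp => ?_⟩
            · obtain ⟨i, _, hi, rfl⟩ := (hF g).1 hg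
              exact (hx _ (mem_union_left _ hg)).2 hi
            · have h3 := (hx g (mem_union_right _ hg)).1 hp
              obtain ⟨i, rfl⟩ := hGf h3
              rcases Nat.lt_or_ge i N with h4 | h4
              · exact (hF _).2 ⟨i, h4, h3, rfl⟩
              · exact absurd hg ((hyΦ i N h4).1 F hFQ).2
        obtain ⟨_, hX⟩ := hs F (y N) ρ hB hmin hGA
        classical
        have hex := hIinf N
        set i := Nat.find hex with hi
        obtain ⟨h1, h2⟩ := Nat.find_spec hex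
        rw [← hi] at h1 h2
        obtain ⟨β, hβ, hB'⟩ := hX _ ((hyΦ i N h1).1 F hFQ).1
        refine ih β hβ (i + 1) _ hB' ?_
        intro g
        have hsa : P (y (i + 1)) (sa F (y N)) = f i := by
          simp only [hf]
          congr 1
          exact Subsingleton.elim _ _
        rw [hsa, mem_insert, hF g]
        constructor
        · rintro (rfl | ⟨i', h3, h4, rfl⟩)
          · exact ⟨i, by omega, h2, rfl⟩
          · exact ⟨i', by omega, h4, rfl⟩
        · rintro ⟨i', h3, h4, rfl⟩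
          rcases Nat.lt_or_ge i' N with h5 | h5
          · exact Or.inr ⟨i', h5, h4, rfl⟩
          · left
            have h6 : i ≤ i' := Nat.find_min' hex ⟨h5, h4⟩
            have h7 : i' = i := by omega
            rw [h7]
  refine key α 0 ∅ (by rw [hy0]; exact hα) ?_
  intro g
  simp

/-- **all branches of a tree, almost prime arguments** -/
theorem mainA (k : ℕ) (hk : 0 < k) (P : ℕ → List (Fin k) → ℤ × ℤ) (hP : ∀ j t, Fm (P j t))
    (hfin : ∀ j (a : ℕ → Fin k) (f : ℤ × ℤ), {n : ℕ | P j ((List.range n).map a) = f}.Finite) :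
    ∃ w : ℕ → List (Option (Fin k)), (∀ i, none ∈ w i) ∧
      ∀ J : ℕ → ℕ, StrictMono J → ∀ (a : ℕ → Fin k) (j : ℕ), j ≤ J 0 → ∀ L : Finset ℕ,
        (∀ l ∈ L, 1 ≤ l) → GA (L.image fun l => P j ((List.range l).flatMap fun i =>
          (w (J i)).map fun o => o.getD (a i))) := by
  obtain ⟨V, U, hV, hcoh, hsub, hext⟩ := exists_ultra hk
  obtain ⟨w, hw, h⟩ := columns hV hcoh hsub (fun _ => 1) (fun j t _ => P j t) (fun _ => GA)
    (fun _ => univ) (fun j => rootA hcoh hext (fun t _ => P j t) (fun t _ => hP j t)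
      (fun t f => ne_form hcoh hext (P j) f (fun a => hfin j a f) t))
  exact ⟨w, hw, fun J hJ a j hj L hL => h J hJ a j hj (fun _ => 0) (fun _ => mem_univ _) L hL⟩

end Pool.Agent.J6H52.AP
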