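import Mathlib
import Pool.Agent.N790.IA.Meas
import Pool.Agent.N790.IA.Rank
import Pool.Agent.J6H52.Branch.Rows
import Pool.Agent.J6H52.AP.Tree

/-! Trees of tuples of linear forms, almost prime arguments: many rows with free choices along all branches. -/

set_option autoImplicit false

namespace Pool.Agent.J6H52.AP

open Finset Filter Topology
open Pool.Agent.H361R2.Inf
open Pool.Agent.J6H52.Branch
open Pool.Agent.N790.IA (avoid blocks blocks_unique hits PI)

/-- **classes of forms** -/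
theorem classesA : ∃ off : ℕ → ℕ, StrictMono off ∧ off 0 = 0 ∧ ∀ n : ℕ, 1 ≤ n →
    ∀ (A B : ℕ → ℤ), (∀ i, 1 ≤ A i) → (∀ i, 1 ≤ B i) → (∀ i, IsCoprime (A i) (B i)) →
      Function.Injective (fun i => (A i, B i)) →
      (∀ p : ℕ, p.Prime → ∃ x : ℕ, ¬ (p : ℤ) ∣ (x : ℤ) ∧ ∀ i, ¬ (p : ℤ) ∣ A i * x + B i) →
      ∃ I : Set ℕ, PI n off I ∧ ∀ T : Finset (ℤ × ℤ), (∀ f ∈ T, 1 ≤ f.1 ∧ f.2 ≠ 0) →
        Many {x : ℕ | ∀ f ∈ T, (Nat.Prime (f.1 * x + f.2).toNat ↔ ∃ i ∈ I, f = (A i, B i))} := by
  obtain ⟨off, Q, hoff, h0, hQ, hQ1, hQ2⟩ := exists_blocks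
  refine ⟨off, hoff, h0, fun n hn A B hA hB hcop hinj hadm => ?_⟩
  have hAz : ∀ i, (((A i).toNat : ℕ) : ℤ) = A i := fun i =>
    Int.toNat_of_nonneg (by have := hA i; omega)
  have hBz : ∀ i, (((B i).toNat : ℕ) : ℤ) = B i := fun i =>
    Int.toNat_of_nonneg (by have := hB i; omega)
  obtain ⟨I, hI, hIT⟩ := seqP (PI n off) off (Pool.Agent.N790.IA.hcomb n hn off hoff)
    (fun J a b hG W r hW hr hr' => meas off Q hoff hQ hQ1 hQ2 J a b hG W r hW hr hr')
    (fun i => (A i).toNat) (fun i => (B i).toNat) (fun i => by have := hA i; omega)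
    (fun i => by have := hB i; omega)
    (fun i => by
      rw [← Nat.isCoprime_iff_coprime, hAz, hBz]
      exact hcop i)
    (fun i j hij => by
      have h1 := Prod.mk.inj hij
      apply hinj
      simp only
      rw [← hAz i, ← hAz j, ← hBz i, ← hBz j, h1.1, h1.2])
    (fun p hp => by
      obtain ⟨x, h1, h2⟩ := hadm p hp
      refine ⟨x, fun h => h1 (Int.natCast_dvd_natCast.2 h), fun i h => h2 i ?_⟩
      have h3 := Int.natCast_dvd_natCast.2 h
      push_cast at h3
      rw [hAz, hBz] at h3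
      exact h3)
  refine ⟨I, hI, fun T hT => (hIT T hT).mono ?_⟩
  intro x hx f hf
  rw [hx f hf]
  simp only [hAz, hBz]

variable {k n : ℕ} {U : List (Fin k) → Ultrafilter (List (Fin k))}

/-- the forms of `F` are simultaneously prime for many almost primes, the forms of any given finite set of other
forms, which do not belong to the tree, being composite -/
def GdA (P : List (Fin k) → Fin n → ℤ × ℤ) (F : Finset (ℤ × ℤ)) : Prop :=
  ∀ T : Finset (ℤ × ℤ), (∀ f ∈ T, 1 ≤ f.1 ∧ f.2 ≠ 0 ∧ ∀ t a, f ≠ P t a) →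
    Many {x : ℕ | (∀ f ∈ F, Nat.Prime (f.1 * x + f.2).toNat) ∧
      ∀ f ∈ T, ¬ Nat.Prime (f.1 * x + f.2).toNat}

/-- **many rows are not bad** -/
theorem rowsA (hcoh : ∀ t s, s ∈ U t → {y | s ∈ U y} ∈ U t)
    (hext : ∀ t, {y | t <+: y ∧ t ≠ y} ∈ U t)
    (hn : 1 ≤ n) (P : List (Fin k) → Fin n → ℤ × ℤ) (hA : ∀ t a, 1 ≤ (P t a).1)
    (hB : ∀ t a, 1 ≤ (P t a).2) (hcop : ∀ t a, IsCoprime (P t a).1 (P t a).2)
    (hne : ∀ t a f, {y | P y a ≠ f} ∈ U t)
    (hadm : ∀ p : ℕ, p.Prime → p ≤ n + 1 → ∀ t, ∃ c : ℤ, ¬ (p : ℤ) ∣ c ∧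
      ∀ a, ¬ (p : ℤ) ∣ (P t a).1 * c + (P t a).2) :
    ∃ S : Finset (Fin n), n ≤ 400 * S.card ∧ ∀ α, ¬ Bad U P (GdA P) S α ∅ [] := by
  classical
  by_contra hcon
  push Not at hcon
  choose sa sX hsX hs using fun (S : Finset (Fin n)) (F : Finset (ℤ × ℤ)) (t : List (Fin k)) =>
    strat (U := U) (P := P) (G := GdA P) hn S F t
  set res : ∀ m : ℕ, List (Fin k) → Fin n → ZMod (m + 1) × ZMod (m + 1) := fun m y a =>
    (((P y a).1 : ZMod (m + 1)), ((P y a).2 : ZMod (m + 1))) with hres
  have hv : ∀ (m : ℕ) (t : List (Fin k)), ∃ v : Fin n → ZMod (m + 1) × ZMod (m + 1),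
      {y | res m y = v} ∈ U t := fun m t => lim_val (U t) (res m)
  choose v hv using hv
  obtain ⟨off, hoff, h0, hcl⟩ := classesA
  obtain ⟨y, hy0, hy, hyΦ⟩ := chain hcoh hext (fun Q t => {y |
      (∀ S : Finset (Fin n), ∀ F ∈ (Q.biUnion (fun q => univ.image (P q))).powerset, y ∈ sX S F t) ∧
      (∀ m ∈ range (Q.card + n + 1), res m y = v m t) ∧
      ∀ a, P y a ∉ Q.biUnion (fun q => univ.image (P q))}) (by
    intro Q t
    refine Filter.inter_mem ?_ (Filter.inter_mem ?_ ?_)
    · change ∀ᶠ y in (U t : Filter (List (Fin k))), ∀ S : Finset (Fin n),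
        ∀ F ∈ (Q.biUnion (fun q => univ.image (P q))).powerset, y ∈ sX S F t
      rw [Filter.eventually_all]
      intro S
      rw [Filter.eventually_all_finset]
      intro F _
      exact hsX S F t
    · change ∀ᶠ y in (U t : Filter (List (Fin k))), ∀ m ∈ range (Q.card + n + 1), res m y = v m t
      rw [Filter.eventually_all_finset]
      intro m _
      exact hv m t
    · change ∀ᶠ y in (U t : Filter (List (Fin k))),
        ∀ a, P y a ∉ Q.biUnion (fun q => univ.image (P q))
      rw [Filter.eventually_all]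
      intro a
      have h1 : ∀ᶠ y in (U t : Filter (List (Fin k))),
          ∀ f ∈ Q.biUnion (fun q => univ.image (P q)), P y a ≠ f := by
        rw [Filter.eventually_all_finset]
        intro f _
        exact hne t a f
      filter_upwards [h1] with y hy h
      exact hy _ h rfl) []
  have hyinj : Function.Injective y := fun i i' h =>
    (chain_length hy).injective (congrArg List.length h)
  have hcard : ∀ i, ((range (i + 1)).image y).card = i + 1 := by
    intro i
    rw [card_image_of_injective _ hyinj, card_range]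
  choose blk hblk1 hblk2 using blocks hoff h0
  set lab : ℕ → Fin n := fun i => ⟨blk i % n, Nat.mod_lt _ hn⟩ with hlab
  set f : ℕ → ℤ × ℤ := fun i => P (y (i + 1)) (lab i) with hf
  have hfne : ∀ i i', i < i' → f i ≠ f i' := by
    intro i i' h h1
    refine (hyΦ i' i' le_rfl).2.2 (lab i') ?_
    change f i' ∈ _
    rw [← h1, mem_biUnion]
    exact ⟨y (i + 1), mem_image_of_mem _ (mem_range.2 (by omega)), mem_image_of_mem _ (mem_univ _)⟩
  have hfinj : Function.Injective f := by
    intro i i' h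
    rcases lt_trichotomy i i' with h1 | h1 | h1
    · exact absurd h (hfne _ _ h1)
    · exact h1
    · exact absurd h.symm (hfne _ _ h1)
  have hadm' : ∀ p : ℕ, p.Prime → ∃ x : ℕ, ¬ (p : ℤ) ∣ (x : ℤ) ∧
      ∀ i, ¬ (p : ℤ) ∣ (f i).1 * x + (f i).2 := by
    intro p hp
    have : Fact p.Prime := ⟨hp⟩
    obtain ⟨m, rfl⟩ : ∃ m, p = m + 1 := ⟨p - 1, by have := hp.pos; omega⟩
    rcases Nat.lt_or_ge (n + 1) (m + 1) with hnp | hnp
    · have hnz : ∀ t a, res m t a ≠ 0 := by
        intro j a h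
        have h1 := (Prod.ext_iff.1 h).1
        have h2 := (Prod.ext_iff.1 h).2
        simp only [hres, Prod.fst_zero, Prod.snd_zero] at h1 h2
        rw [ZMod.intCast_zmod_eq_zero_iff_dvd] at h1 h2
        have := (hcop j a).isUnit_of_dvd' h1 h2
        exact (Nat.prime_iff_prime_int.1 hp).not_isUnit this
      set D : Finset (ZMod (m + 1) × ZMod (m + 1)) :=
        insert (1, 0) (((range (m - n - 1)).image (fun i => res m (y (i + 1)) (lab i))) ∪
          univ.image (v m (y (m - n - 1)))) with hD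
      obtain ⟨x, hx⟩ := avoid hp D (by
        refine lt_of_le_of_lt (card_insert_le _ _) ?_
        refine lt_of_le_of_lt (Nat.add_le_add_right (card_union_le _ _) 1) ?_
        have h1 : ((range (m - n - 1)).image
            (fun i => res m (y (i + 1)) (lab i))).card ≤ m - n - 1 := by
          refine card_image_le.trans ?_
          rw [card_range]
        have h2 : (univ.image (v m (y (m - n - 1)))).card ≤ n := by
          refine card_image_le.trans ?_
          simp
        omega) (by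
        intro d hd
        rw [hD, mem_insert, mem_union, mem_image, mem_image] at hd
        rcases hd with rfl | ⟨i, _, rfl⟩ | ⟨a, _, rfl⟩
        · intro h
          have h1 := (Prod.ext_iff.1 h).1
          simp at h1
        · exact hnz _ _
        · obtain ⟨t', ht'⟩ := Ultrafilter.nonempty_of_mem (hv m (y (m - n - 1)))
          have ht'' : res m t' = v m (y (m - n - 1)) := ht'
          rw [← ht'']
          exact hnz _ _)
      refine ⟨x.val, fun hi => ?_, fun i hi => ?_⟩
      · have h1 := (ZMod.intCast_zmod_eq_zero_iff_dvd _ (m + 1)).2 hi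
        push_cast at h1
        rw [ZMod.natCast_zmod_val] at h1
        refine hx (1, 0) (by rw [hD]; exact mem_insert_self _ _) ?_
        simp only [one_mul, add_zero]
        exact h1
      have h1 := (ZMod.intCast_zmod_eq_zero_iff_dvd _ (m + 1)).2 hi
      push_cast at h1
      rw [ZMod.natCast_zmod_val] at h1
      by_cases him : i < m - n - 1
      · exact hx _ (by
          rw [hD]
          exact mem_insert_of_mem (mem_union_left _ (mem_image_of_mem _ (mem_range.2 him)))) h1
      · have h2 := (hyΦ i (m - n - 1) (by omega)).2.1 m (mem_range.2 (by rw [hcard]; omega))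
        have h3 := congrFun h2 (lab i)
        refine hx (v m (y (m - n - 1)) (lab i)) (by
          rw [hD]
          exact mem_insert_of_mem (mem_union_right _ (mem_image_of_mem _ (mem_univ _)))) ?_
        rw [← h3]
        exact h1
    · obtain ⟨c, hc0, hc⟩ := hadm (m + 1) hp hnp (y 1)
      have hp0 : (0 : ℤ) < ((m + 1 : ℕ) : ℤ) := by exact_mod_cast hp.pos
      have h1 : (((c % ((m + 1 : ℕ) : ℤ)).toNat : ℕ) : ℤ) = c % ((m + 1 : ℕ) : ℤ) :=
        Int.toNat_of_nonneg (Int.emod_nonneg _ hp0.ne')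
      refine ⟨(c % ((m + 1 : ℕ) : ℤ)).toNat, fun hi => hc0 ?_, fun i hi => hc (lab i) ?_⟩
      · rw [h1] at hi
        exact (Int.dvd_iff_dvd_of_dvd_sub (Int.dvd_self_sub_emod)).2 hi
      rw [h1] at hi
      have h2 : res m (y (i + 1)) (lab i) = res m (y 1) (lab i) := by
        have e1 := (hyΦ i 0 (Nat.zero_le i)).2.1 m (mem_range.2 (by rw [hcard]; omega))
        have e2 := (hyΦ 0 0 le_rfl).2.1 m (mem_range.2 (by rw [hcard]; omega))
        rw [e1]
        exact (congrFun e2 (lab i)).symm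
      have h3 := (Prod.ext_iff.1 h2).1
      have h4 := (Prod.ext_iff.1 h2).2
      simp only [hres] at h3 h4
      rw [← ZMod.intCast_zmod_eq_zero_iff_dvd] at hi ⊢
      push_cast at hi ⊢
      have h5 : ((c % ((m : ℤ) + 1) : ℤ) : ZMod (m + 1)) = (c : ZMod (m + 1)) := by
        have := ZMod.intCast_mod c (m + 1)
        push_cast at this
        exact this
      rw [h5] at hi
      rw [← h3, ← h4]
      exact hi
  obtain ⟨I, hPI, hI⟩ := hcl n hn (fun i => (f i).1) (fun i => (f i).2) (fun i => hA _ _)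
    (fun i => hB _ _) (fun i => hcop _ _) hfinj hadm'
  -- a set of rows which occurs infinitely often
  obtain ⟨S, hS, hSf⟩ : ∃ S : Finset (Fin n), n ≤ 400 * S.card ∧
      ∃ᶠ β in atTop, ∀ a ∈ S, hits off I (β * n + a) := by
    by_contra hcon2
    have h1 : ∀ᶠ β in atTop, ∀ S : Finset (Fin n), n ≤ 400 * S.card →
        ¬ ∀ a ∈ S, hits off I (β * n + a) := by
      rw [Filter.eventually_all]
      intro S
      by_cases h : n ≤ 400 * S.card
      · have h2 : ¬ ∃ᶠ β in atTop, ∀ a ∈ S, hits off I (β * n + a) := fun h3 => hcon2 ⟨S, h, h3⟩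
        rw [Filter.not_frequently] at h2
        filter_upwards [h2] with β hβ _ using hβ
      · filter_upwards with β h3 using absurd h3 h
    obtain ⟨β, hβ1, hβ2⟩ := (hPI.and_eventually h1).exists
    refine hβ2 (univ.filter (fun a : Fin n => hits off I (β * n + a))) ?_
      (fun a ha => (mem_filter.1 ha).2)
    have h3 : (univ.filter (fun a : Fin n => hits off I (β * n + a))).map Fin.valEmbedding =
        (range n).filter (fun a => hits off I (β * n + a)) := by
      ext a
      simp only [Finset.mem_map, mem_filter, mem_univ, true_and, mem_range, Fin.valEmbedding_apply]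
      constructor
      · rintro ⟨b, hb, rfl⟩
        exact ⟨b.2, hb⟩
      · rintro ⟨ha, hb⟩
        exact ⟨⟨a, ha⟩, hb, rfl⟩
    rw [← card_map Fin.valEmbedding, h3]
    exact hβ1
  obtain ⟨α, hα⟩ := hcon S hS
  -- descent
  have key : ∀ ρ : Ordinal.{0}, ∀ (N : ℕ) (F : Finset (ℤ × ℤ)), Bad U P (GdA P) S ρ F (y N) →
      (∀ g ∈ F, ∃ i ∈ I, i < N ∧ g = f i) → False := by
    intro ρ
    induction ρ using WellFoundedLT.induction with
    | ind ρ ih =>
      intro N F hBd hF
      by_cases hmin : ∃ ρ' < ρ, Bad U P (GdA P) S ρ' F (y N)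
      · obtain ⟨ρ', h1, h2⟩ := hmin
        exact ih ρ' h1 N F h2 hF
      · push Not at hmin
        have hG : GdA P F := by
          intro T hT
          refine (hI (F ∪ T) ?_).mono ?_
          · intro g hg
            rcases mem_union.1 hg with h | h
            · obtain ⟨i, _, _, rfl⟩ := hF g h
              have h3 := hB (y (i + 1)) (lab i)
              exact ⟨hA _ _, by simp only [hf]; omega⟩
            · exact ⟨(hT g h).1, (hT g h).2.1⟩
          · intro x hx
            refine ⟨fun g hg => ?_, fun g hg hp => ?_⟩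
            · obtain ⟨i, hi, _, rfl⟩ := hF g hg
              exact (hx _ (mem_union_left _ hg)).2 ⟨i, hi, rfl⟩
            · obtain ⟨i, _, hgi⟩ := (hx g (mem_union_right _ hg)).1 hp
              exact (hT g hg).2.2 _ _ hgi
        obtain ⟨ha, hX⟩ := hs S F (y N) ρ hBd hmin hG
        obtain ⟨β, hβN, hβ⟩ := (Filter.frequently_atTop.1 hSf) N
        obtain ⟨i, hi, hiI⟩ := hβ _ ha
        rw [mem_Ico] at hi
        have hNi : N ≤ i := by
          have h1 : β * n + (sa S F (y N) : ℕ) ≤ off (β * n + (sa S F (y N) : ℕ)) := hoff.id_le _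
          have h2 : β ≤ β * n := Nat.le_mul_of_pos_right _ hn
          omega
        have hlabi : lab i = sa S F (y N) := by
          have h1 : blk i = β * n + (sa S F (y N) : ℕ) :=
            blocks_unique hoff (hblk1 i) (hblk2 i) hi.1 hi.2
          apply Fin.ext
          simp only [hlab, h1]
          rw [Nat.mul_add_mod_self_right, Nat.mod_eq_of_lt (sa S F (y N)).2]
        have hjX : y (i + 1) ∈ sX S F (y N) := (hyΦ i N hNi).1 S F (by
          rw [mem_powerset]
          intro g hg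
          obtain ⟨i', _, hi'N, rfl⟩ := hF g hg
          rw [mem_biUnion]
          exact ⟨y (i' + 1), mem_image_of_mem _ (mem_range.2 (by omega)),
            mem_image_of_mem _ (mem_univ _)⟩)
        obtain ⟨ρ', hρ', hB'⟩ := hX _ hjX
        refine ih ρ' hρ' (i + 1) _ hB' ?_
        intro g hg
        rcases mem_insert.1 hg with rfl | hg
        · exact ⟨i, hiI, by omega, by simp only [hf, hlabi]⟩
        · obtain ⟨i', h1, h2, h3⟩ := hF g hg
          exact ⟨i', h1, by omega, h3⟩
  exact key α 0 ∅ (by rw [hy0]; exact hα) (by simp)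

/-- **the theorem on trees of tuples** -/
theorem main_rowsA (k : ℕ) (hk : 0 < k) (n : ℕ → ℕ) (hn : ∀ j, 1 ≤ n j)
    (P : ∀ j, List (Fin k) → Fin (n j) → ℤ × ℤ)
    (hP : ∀ j t r, 1 ≤ (P j t r).1 ∧ 1 ≤ (P j t r).2 ∧ IsCoprime (P j t r).1 (P j t r).2)
    (hfin : ∀ j (a : ℕ → Fin k) r (f : ℤ × ℤ), {m : ℕ | P j ((List.range m).map a) r = f}.Finite)
    (hadm : ∀ j t, ∀ p : ℕ, p.Prime → p ≤ n j + 1 →
      ∃ c : ℤ, ¬ (p : ℤ) ∣ c ∧ ∀ r, ¬ (p : ℤ) ∣ (P j t r).1 * c + (P j t r).2) :
    ∃ (S : ∀ j, Finset (Fin (n j))) (w : ℕ → List (Option (Fin k))),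
      (∀ j, n j ≤ 400 * (S j).card) ∧ (∀ i, none ∈ w i) ∧
      ∀ J : ℕ → ℕ, StrictMono J → ∀ (a : ℕ → Fin k) (j : ℕ), j ≤ J 0 →
        ∀ s : ℕ → Fin (n j), (∀ l, s l ∈ S j) → ∀ L : Finset ℕ, (∀ l ∈ L, 1 ≤ l) →
          GdA (P j) (L.image fun l => P j ((List.range l).flatMap fun i =>
            (w (J i)).map fun o => o.getD (a i)) (s l)) := by
  obtain ⟨V, U, hV, hcoh, hsub, hext⟩ := exists_ultra hk
  have h1 : ∀ j, ∃ S : Finset (Fin (n j)), n j ≤ 400 * S.card ∧
      ∀ α, ¬ Bad U (P j) (GdA (P j)) S α ∅ [] := fun j =>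
    rowsA hcoh hext (hn j) (P j) (fun t a => (hP j t a).1) (fun t a => (hP j t a).2.1)
      (fun t a => (hP j t a).2.2)
      (fun t a f => ne_form hcoh hext (fun y => P j y a) f (fun b => hfin j b a f) t)
      (fun p hp hpn t => hadm j t p hp hpn)
  choose S hS1 hS2 using h1
  obtain ⟨w, hw, h⟩ := columns hV hcoh hsub n P (fun j => GdA (P j)) S hS2
  exact ⟨S, w, hS1, hw, h⟩

end Pool.Agent.J6H52.AP
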